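import Pool.Agent.Helper50.Ctrl.PdeDefs

set_option autoImplicit false

namespace Pool.Agent.Helper50.Ctrl

open MeasureTheory Set Real

lemma al_bound {ε ζ W E P K : ℝ} (hε : 0 < ε) (hζ : ε ≤ ζ) (hW : 0 < W) (hE : 0 ≤ E)
    (hEW : E ≤ W) (hP : P ≤ 20 * W) :
    ζ * al ε ζ W E P K ≤ ζ * (K / (W * (1 + W ^ 100))) + (E / W) * (1 / (1 + W ^ 100))
      + 121 * (ε / ζ) * (1 / (1 + W ^ 100))
      + 202 / ε * (ζ * ((W - E) * W ^ 99 / (1 + W ^ 100) ^ 2)) := by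
  have hζ0 : 0 < ζ := lt_of_lt_of_le hε hζ
  set q := 1 + W ^ 100 with hq
  have hD : 0 < W ^ 100 := by positivity
  have hq0 : 0 < q := by positivity
  have hq1 : W ^ 100 ≤ q := by rw [hq]; linarith
  set e := E / W with he
  have he0 : 0 ≤ e := div_nonneg hE hW.le
  have he1 : e ≤ 1 := by rw [he, div_le_one hW]; exact hEW
  set ρ := ε / ζ with hρ
  have hρ0 : 0 < ρ := div_pos hε hζ0
  have hρ1 : ρ ≤ 1 := by rw [hρ, div_le_one hζ0]; exact hζ
  set p := P / W with hp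
  have hp1 : p ≤ 20 := by rw [hp, div_le_iff₀ hW]; exact hP
  have e1 : ζ * al ε ζ W E P K = ζ * (K / (W * q)) + e * (1 / q) * (1 - ρ + ρ ^ 2)
      + ρ * p * (1 / q) + 101 / ε * (ζ * (W ^ 100 / q ^ 2)) * (1 - (1 - ρ ^ 2) * e ^ 2) := by
    unfold al
    rw [← hq, hρ, hp, he]
    field_simp
    ring
  rw [e1]
  have b1 : e * (1 / q) * (1 - ρ + ρ ^ 2) ≤ e * (1 / q) := by
    have h1 : 0 ≤ e * (1 / q) := by positivity
    have h2 : 1 - ρ + ρ ^ 2 ≤ 1 := by nlinarith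
    nlinarith
  have b2 : ρ * p * (1 / q) ≤ 20 * ρ * (1 / q) := by
    have h1 : 0 ≤ ρ * (1 / q) := by positivity
    nlinarith
  have b3 : 101 / ε * (ζ * (W ^ 100 / q ^ 2)) * (1 - (1 - ρ ^ 2) * e ^ 2) ≤
      202 / ε * (ζ * ((W - E) * W ^ 99 / q ^ 2)) + 101 * ρ * (1 / q) := by
    have h1 : (1 - (1 - ρ ^ 2) * e ^ 2) ≤ 2 * (1 - e) + ρ ^ 2 := by
      have : e ^ 2 ≤ 1 := by nlinarith
      nlinarith [sq_nonneg (1 - e), sq_nonneg ρ]
    have h2 : 0 ≤ 101 / ε * (ζ * (W ^ 100 / q ^ 2)) := by positivity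
    have h3 : 101 / ε * (ζ * (W ^ 100 / q ^ 2)) * (2 * (1 - e)) =
        202 / ε * (ζ * ((W - E) * W ^ 99 / q ^ 2)) := by
      rw [he]
      field_simp
      ring
    have h4 : 101 / ε * (ζ * (W ^ 100 / q ^ 2)) * ρ ^ 2 ≤ 101 * ρ * (1 / q) := by
      have h5 : 101 / ε * (ζ * (W ^ 100 / q ^ 2)) * ρ ^ 2 = 101 * ρ * (W ^ 100 / q ^ 2) := by
        rw [hρ]
        field_simp
      rw [h5]
      apply mul_le_mul_of_nonneg_left _ (by positivity)
      rw [div_le_div_iff₀ (by positivity) hq0]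
      nlinarith
    calc 101 / ε * (ζ * (W ^ 100 / q ^ 2)) * (1 - (1 - ρ ^ 2) * e ^ 2)
        ≤ 101 / ε * (ζ * (W ^ 100 / q ^ 2)) * (2 * (1 - e) + ρ ^ 2) :=
          mul_le_mul_of_nonneg_left h1 h2
      _ = 101 / ε * (ζ * (W ^ 100 / q ^ 2)) * (2 * (1 - e)) +
          101 / ε * (ζ * (W ^ 100 / q ^ 2)) * ρ ^ 2 := by ring
      _ ≤ _ := by rw [h3]; linarith
  have b4 : 121 * ρ * (1 / q) = 20 * ρ * (1 / q) + 101 * ρ * (1 / q) := by ring
  linarith

/-- large constant -/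
noncomputable def C1 : ℝ := 101 ^ 99
/-- large constant -/
noncomputable def C2 : ℝ := C1 * 2 ^ 99

lemma C1_ge : 1 ≤ C1 := one_le_pow₀ (by norm_num)
lemma two99_ge : (1:ℝ) ≤ 2 ^ 99 := one_le_pow₀ (by norm_num)

lemma C2_ge : 1 ≤ C2 := by
  unfold C2
  have h1 := C1_ge
  have h2 := two99_ge
  generalize (2:ℝ) ^ 99 = c at h2 ⊢
  nlinarith

lemma pow99_add {x y : ℝ} (hx : 0 ≤ x) (hy : 0 ≤ y) :
    (x + y) ^ 99 ≤ 3 * x ^ 99 + C1 * y ^ 99 := by
  have h4 : 0 ≤ x ^ 99 := pow_nonneg hx 99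
  have h5 : 0 ≤ y ^ 99 := pow_nonneg hy 99
  have h6 := C1_ge
  rcases le_or_gt y (x / 100) with h | h
  · have h1 : (x + y) ^ 99 ≤ (101 / 100 * x) ^ 99 :=
      pow_le_pow_left₀ (by linarith) (by linarith) 99
    rw [mul_pow] at h1
    have h3 : (101 / 100 : ℝ) ^ 99 ≤ 3 := by norm_num
    have h7 : (101 / 100 : ℝ) ^ 99 * x ^ 99 ≤ 3 * x ^ 99 := mul_le_mul_of_nonneg_right h3 h4
    have h8 : 0 ≤ C1 * y ^ 99 := mul_nonneg (by linarith) h5
    exact h1.trans (h7.trans (by linarith))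
  · have h1 : (x + y) ^ 99 ≤ (101 * y) ^ 99 :=
      pow_le_pow_left₀ (by linarith) (by linarith) 99
    rw [mul_pow] at h1
    refine h1.trans ?_
    unfold C1
    have h8 : 0 ≤ 3 * x ^ 99 := mul_nonneg (by norm_num) h4
    exact le_add_of_nonneg_left h8

lemma pow99_two {y : ℝ} (hy0 : 0 ≤ y) (hy1 : y ≤ 2) : C1 * y ^ 99 ≤ C2 * y := by
  have h1 : y = 2 * (y / 2) := by ring
  have h2 : (y / 2) ^ 99 ≤ y / 2 := by
    have := pow_le_pow_of_le_one (show 0 ≤ y / 2 by linarith) (show y / 2 ≤ 1 by linarith)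
      (show 1 ≤ 99 by norm_num)
    rwa [pow_one] at this
  have h3 : y ^ 99 = 2 ^ 99 * (y / 2) ^ 99 := by
    rw [← mul_pow, ← h1]
  have h4 : y ^ 99 ≤ 2 ^ 99 * y := by
    rw [h3]
    apply mul_le_mul_of_nonneg_left _ (pow_nonneg (by norm_num) 99)
    linarith
  have h5 := C1_ge
  unfold C2
  rw [mul_assoc]
  exact mul_le_mul_of_nonneg_left h4 (by linarith)

lemma ratio_bounds {W : ℝ} (hW : 0 < W) : 0 ≤ W ^ 99 / (1 + W ^ 100) ^ 2 ∧
    W ^ 99 / (1 + W ^ 100) ^ 2 ≤ 1 ∧ W ^ 99 / (1 + W ^ 100) ^ 2 ≤ W ^ 99 ∧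
    W ^ 99 / (1 + W ^ 100) ^ 2 ≤ 1 / W := by
  have hD : 0 < W ^ 100 := pow_pos hW 100
  have hW99 : 0 < W ^ 99 := pow_pos hW 99
  have e : W ^ 99 * W = W ^ 100 := by rw [← pow_succ]
  have hle : W ≤ 1 → W ^ 99 ≤ 1 := fun h => pow_le_one₀ hW.le h
  have hge : 1 ≤ W → W ^ 99 ≤ W ^ 100 := fun h => pow_le_pow_right₀ h (by norm_num)
  generalize W ^ 100 = D at hD e hge ⊢
  generalize W ^ 99 = B at hW99 e hle hge ⊢
  have hq1 : 1 ≤ (1 + D) ^ 2 := by nlinarith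
  have hq0 : 0 < (1 + D) ^ 2 := by positivity
  refine ⟨by positivity, ?_, div_le_self hW99.le hq1, ?_⟩
  · rw [div_le_one hq0]
    rcases le_or_gt W 1 with h | h
    · exact (hle h).trans hq1
    · have := hge h.le
      nlinarith
  · rw [div_le_div_iff₀ hq0 hW, e]
    nlinarith

lemma plateau_low {W F A x δ e : ℝ} (hA : 0 < A) (hA1 : A ≤ 1) (hδ : 0 ≤ δ) (hδ1 : δ ≤ 1)
    (hx : 0 ≤ x) (he : 0 ≤ e) (he1 : e ≤ 1) (hW : 0 < W) (hWle : W ≤ δ + x + A)
    (hF : F ≤ δ + x * e) :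
    F * W ^ 99 / (1 + W ^ 100) ^ 2 ≤ δ + 3 * x ^ 100 * e + C2 * x * (δ + A) := by
  have hy0 : 0 ≤ δ + A := by linarith
  have hy2 : δ + A ≤ 2 := by linarith
  have hWle' : W ≤ x + (δ + A) := by linarith
  have h3 : W ^ 99 ≤ 3 * x ^ 99 + C1 * (δ + A) ^ 99 :=
    (pow_le_pow_left₀ hW.le hWle' 99).trans (pow99_add hx hy0)
  have h4 := pow99_two hy0 hy2
  obtain ⟨hr0, h1, h2, -⟩ := ratio_bounds hW
  have h9' : x * x ^ 99 = x ^ 100 := (pow_succ' x 99).symm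
  have h5 : F * W ^ 99 / (1 + W ^ 100) ^ 2 = F * (W ^ 99 / (1 + W ^ 100) ^ 2) := by
    rw [mul_div_assoc]
  rw [h5]
  have hC := C2_ge
  generalize W ^ 99 / (1 + W ^ 100) ^ 2 = r at hr0 h1 h2 ⊢
  generalize W ^ 99 = W99 at h2 h3
  generalize (δ + A) ^ 99 = y99 at h3 h4
  rw [← h9']
  have hx99 : 0 ≤ x ^ 99 := pow_nonneg hx 99
  generalize x ^ 99 = x99 at h3 hx99 ⊢
  generalize C2 = c2 at h4 hC ⊢
  generalize C1 * y99 = c1 at h3 h4
  have h6 : F * r ≤ (δ + x * e) * r := mul_le_mul_of_nonneg_right hF hr0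
  have h7 : δ * r ≤ δ := by nlinarith
  have h8 : x * e * r ≤ x * e * (3 * x99 + c2 * (δ + A)) := by
    apply mul_le_mul_of_nonneg_left _ (by positivity)
    linarith
  have h9 : x * e * (3 * x99 + c2 * (δ + A)) = 3 * (x * x99) * e + c2 * x * (δ + A) * e := by
    ring
  have h10 : c2 * x * (δ + A) * e ≤ c2 * x * (δ + A) := by
    have : 0 ≤ c2 * x * (δ + A) := by positivity
    nlinarith
  nlinarith

lemma plateau_high {W F A x δ e : ℝ} (hA : 1 < A) (hδ : 0 ≤ δ)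
    (hx : 0 ≤ x) (he1 : e ≤ 1) (hAW : A ≤ W) (hF : F ≤ δ + x * e) :
    F * W ^ 99 / (1 + W ^ 100) ^ 2 ≤ δ * (1 / A) + C2 * x * (1 / A) := by
  have hA0 : 0 < A := by linarith
  have hW : 0 < W := by linarith
  obtain ⟨hr0, -, -, h1⟩ := ratio_bounds hW
  have h2 : 1 / W ≤ 1 / A := one_div_le_one_div_of_le hA0 hAW
  have h5 : F * W ^ 99 / (1 + W ^ 100) ^ 2 = F * (W ^ 99 / (1 + W ^ 100) ^ 2) := by
    rw [mul_div_assoc]
  rw [h5]
  have hC := C2_ge
  generalize W ^ 99 / (1 + W ^ 100) ^ 2 = r at hr0 h1 ⊢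
  generalize C2 = c2 at hC ⊢
  have hxe : x * e ≤ c2 * x := by nlinarith
  calc F * r ≤ (δ + c2 * x) * r := mul_le_mul_of_nonneg_right (by linarith) hr0
    _ ≤ (δ + c2 * x) * (1 / A) := by
        apply mul_le_mul_of_nonneg_left (h1.trans h2)
        have : 0 ≤ c2 * x := mul_nonneg (by linarith) hx
        linarith
    _ = _ := by ring

/-- majorant of `1/(1+W^100)` -/
noncomputable def Mb (L z : ℝ) : ℝ :=
  (Iio 0).indicator (fun _ => (1:ℝ)) z + (Icc 0 L).indicator (fun _ => (1:ℝ)) z +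
    (Ioi L).indicator (fun z => exp (-(z - L))) z

lemma Mb_le {L z : ℝ} (h : z ≤ L) : 1 ≤ Mb L z := by
  unfold Mb
  rcases lt_or_ge z 0 with h1 | h1
  · rw [indicator_of_mem (show z ∈ Iio 0 from h1)]
    have h2 : 0 ≤ (Icc 0 L).indicator (fun _ => (1:ℝ)) z :=
      indicator_nonneg (fun _ _ => by norm_num) _
    have h3 : 0 ≤ (Ioi L).indicator (fun z => exp (-(z - L))) z :=
      indicator_nonneg (fun _ _ => (exp_pos _).le) _
    linarith
  · rw [indicator_of_mem (show z ∈ Icc 0 L from ⟨h1, h⟩)]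
    have h2 : 0 ≤ (Iio 0).indicator (fun _ => (1:ℝ)) z :=
      indicator_nonneg (fun _ _ => by norm_num) _
    have h3 : 0 ≤ (Ioi L).indicator (fun z => exp (-(z - L))) z :=
      indicator_nonneg (fun _ _ => (exp_pos _).le) _
    linarith

lemma Mb_gt {L z : ℝ} (h : L < z) : exp (-(z - L)) ≤ Mb L z := by
  unfold Mb
  rw [indicator_of_mem (show z ∈ Ioi L from h) (fun z => exp (-(z - L)))]
  have h2 : 0 ≤ (Iio 0).indicator (fun _ => (1:ℝ)) z :=
    indicator_nonneg (fun _ _ => by norm_num) _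
  have h3 : 0 ≤ (Icc 0 L).indicator (fun _ => (1:ℝ)) z :=
    indicator_nonneg (fun _ _ => by norm_num) _
  linarith

lemma Mb_nonneg (L z : ℝ) : 0 ≤ Mb L z := by
  unfold Mb
  have h1 : 0 ≤ (Iio 0).indicator (fun _ => (1:ℝ)) z :=
    indicator_nonneg (fun _ _ => by norm_num) _
  have h2 : 0 ≤ (Icc 0 L).indicator (fun _ => (1:ℝ)) z :=
    indicator_nonneg (fun _ _ => by norm_num) _
  have h3 : 0 ≤ (Ioi L).indicator (fun z => exp (-(z - L))) z :=
    indicator_nonneg (fun _ _ => (exp_pos _).le) _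
  linarith

lemma Mb_meas (L : ℝ) : Measurable (Mb L) := by
  unfold Mb
  refine ((measurable_const.indicator measurableSet_Iio).add
    (measurable_const.indicator measurableSet_Icc)).add
    (Measurable.indicator (by fun_prop) measurableSet_Ioi)

variable {τ : ℝ} {n i : ℕ} {t : ℝ}

/-- length of the plateau -/
noncomputable def LL (τ : ℝ) : ℝ := 1 / (2 * τ)

lemma LL_pos (hτ : 0 < τ) : 0 < LL τ := by unfold LL; positivity

lemma ka_eq : ka τ = exp (-(LL τ)) := rfl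

lemma InCycle.W_ge_exp (h : InCycle τ n i t) (hτ : 0 < τ) (hτ1 : τ ≤ 1) (z : ℝ) :
    exp (z - LL τ) ≤ WW τ n t z := by
  refine le_trans ?_ (h.WW_ge' hτ hτ1 z)
  have h1 := h.AA_ge hτ
  rw [ka_eq] at h1
  calc exp (z - LL τ) = exp (-(LL τ)) * exp z := by rw [← exp_add]; congr 1; ring
    _ ≤ AA τ i t * exp z := mul_le_mul_of_nonneg_right h1 (exp_pos _).le

lemma InCycle.q_le (h : InCycle τ n i t) (hτ : 0 < τ) (hτ1 : τ ≤ 1) (z : ℝ) :
    1 / (1 + WW τ n t z ^ 100) ≤ Mb (LL τ) z := by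
  have hW := WW_pos hτ n t z
  rcases le_or_gt z (LL τ) with h1 | h1
  · refine le_trans ?_ (Mb_le h1)
    rw [div_le_one (by positivity)]
    have : 0 < WW τ n t z ^ 100 := by positivity
    linarith
  · refine le_trans ?_ (Mb_gt h1)
    have h2 := h.W_ge_exp hτ hτ1 z
    have h3 : 1 ≤ exp (z - LL τ) := one_le_exp (by linarith)
    have h4 : exp (z - LL τ) ≤ exp (z - LL τ) ^ 100 := by
      calc exp (z - LL τ) = exp (z - LL τ) ^ 1 := by ring
        _ ≤ _ := pow_le_pow_right₀ h3 (by norm_num)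
    have h5 : exp (z - LL τ) ^ 100 ≤ WW τ n t z ^ 100 :=
      pow_le_pow_left₀ (exp_pos _).le h2 _
    rw [div_le_iff₀ (by positivity)]
    have h6 : exp (-(z - LL τ)) * exp (z - LL τ) = 1 := by
      rw [← exp_add]; simp
    have h7 := exp_pos (-(z - LL τ))
    nlinarith

/-- the main bound of the diffusion term -/
lemma InCycle.diff_le (h : InCycle τ n i t) (hτ : 0 < τ) (hτ1 : τ ≤ 1)
    (hδ : τ ^ 4 + ka τ ≤ 1) (z : ℝ) :
    (WW τ n t z - EE τ n t z) * WW τ n t z ^ 99 / (1 + WW τ n t z ^ 100) ^ 2 ≤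
      (τ ^ 4 + ka τ) * Mb (LL τ) z
      + (Iic (LL τ)).indicator (fun z => 3 * xx τ i t ^ 100 * E1 (sg (sj τ i t)) z
          + C2 * xx τ i t * (τ ^ 4 + ka τ)) z
      + C2 * xx τ i t * exp (-|z - (-log (AA τ i t))|) := by
  have hAA := h.AA_pos hτ
  have hW := WW_pos hτ n t z
  have hx := xx_nonneg (τ := τ) i t
  have hF := h.F_le hτ hτ1 z
  have hWle := h.WW_le hτ hτ1 z
  have hWge := h.WW_ge' hτ hτ1 z
  have hδ0 : 0 ≤ τ ^ 4 + ka τ := by
    have := ka_pos (τ := τ)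
    positivity
  have hA : AA τ i t * exp z = exp (z - (-log (AA τ i t))) := by
    rw [sub_neg_eq_add, exp_add, exp_log hAA, mul_comm]
  have hlog : -log (AA τ i t) ≤ LL τ := by
    have h1 := h.AA_ge hτ
    have h2 := log_le_log ka_pos h1
    rw [ka_eq, log_exp] at h2
    linarith
  have hC2 := C2_ge
  have hE1 := E1_pos (sg (sj τ i t)) z
  rcases le_or_gt z (-log (AA τ i t)) with h1 | h1
  · have hA1 : AA τ i t * exp z ≤ 1 := by
      rw [hA]
      exact exp_le_one_iff.mpr (by linarith)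
    have h2 := plateau_low (by positivity) hA1 hδ0 hδ hx hE1.le (E1_le_one _ _) hW hWle hF
    have hzL : z ≤ LL τ := h1.trans hlog
    rw [indicator_of_mem (show z ∈ Iic (LL τ) from hzL)]
    have h3 := Mb_le hzL
    have h4 : exp (-|z - (-log (AA τ i t))|) = AA τ i t * exp z := by
      rw [hA, abs_of_nonpos (by linarith), neg_neg]
    rw [h4]
    have h5 : τ ^ 4 + ka τ ≤ (τ ^ 4 + ka τ) * Mb (LL τ) z := by nlinarith
    have h6 : C2 * xx τ i t * (τ ^ 4 + ka τ + AA τ i t * exp z) =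
      C2 * xx τ i t * (τ ^ 4 + ka τ) + C2 * xx τ i t * (AA τ i t * exp z) := by ring
    linarith
  · have hA1 : 1 < AA τ i t * exp z := by
      rw [hA]
      exact one_lt_exp_iff.mpr (by linarith)
    have h2 := plateau_high hA1 hδ0 hx (E1_le_one _ _) hWge hF
    have h4 : exp (-|z - (-log (AA τ i t))|) = 1 / (AA τ i t * exp z) := by
      rw [hA, abs_of_pos (by linarith), exp_neg, one_div]
    rw [h4]
    have h5 : 1 / (AA τ i t * exp z) ≤ Mb (LL τ) z := by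
      rcases le_or_gt z (LL τ) with h6 | h6
      · refine le_trans ?_ (Mb_le h6)
        rw [div_le_one (by positivity)]
        exact hA1.le
      · refine le_trans ?_ (Mb_gt h6)
        rw [hA, one_div, ← exp_neg]
        apply exp_le_exp.mpr
        linarith
    have h6 : 0 ≤ (Iic (LL τ)).indicator (fun z => 3 * xx τ i t ^ 100 * E1 (sg (sj τ i t)) z
          + C2 * xx τ i t * (τ ^ 4 + ka τ)) z := by
      apply indicator_nonneg
      intro w _
      have h7 := E1_pos (sg (sj τ i t)) w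
      have h8 : 0 ≤ xx τ i t ^ 100 := pow_nonneg hx 100
      have h9 : 0 ≤ C2 * xx τ i t * (τ ^ 4 + ka τ) :=
        mul_nonneg (mul_nonneg (by linarith) hx) hδ0
      generalize xx τ i t ^ 100 = x100 at h8 ⊢
      have h10 : 0 ≤ 3 * x100 * E1 (sg (sj τ i t)) w := by positivity
      linarith
    have h7 := mul_le_mul_of_nonneg_left h5 hδ0
    linarith

end Pool.Agent.Helper50.Ctrl
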