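import Pool.Agent.Helper50.Ctrl.Fixed

set_option autoImplicit false

namespace Pool.Agent.Helper50.Ctrl

open MeasureTheory Set Real
open scoped ENNReal

variable {τ : ℝ} {n i : ℕ} {t : ℝ}

lemma aa_eq_ar (hτ : 0 < τ) (n : ℕ) (t x y : ℝ) :
    aa τ n t x y = ar τ n t ((zt (τ ^ 2) x y - 1) / τ ^ 2) := by
  unfold aa ar
  have : 1 + τ ^ 2 * ((zt (τ ^ 2) x y - 1) / τ ^ 2) = zt (τ ^ 2) x y := by
    field_simp
    ring
  rw [this]

lemma ar_meas (hτ : 0 < τ) (n : ℕ) (t : ℝ) : Measurable (ar τ n t) := by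
  have h1 : Measurable fun z => WW τ n t z :=
    (cont_WW hτ n (X := ℝ) continuous_const continuous_id).measurable
  have h2 : Measurable fun z => EE τ n t z :=
    (cont_EE hτ n (X := ℝ) continuous_const continuous_id).measurable
  have h3 : Measurable fun z => PI τ n t z :=
    (cont_PI hτ n (X := ℝ) continuous_const continuous_id).measurable
  have h4 : Measurable fun z => KK τ n t z :=
    (cont_KK hτ n (X := ℝ) continuous_const continuous_id).measurable
  unfold ar al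
  fun_prop

lemma plane_eq (hτ : 0 < τ) (n : ℕ) (t : ℝ) :
    ∫⁻ p : ℝ × ℝ, ENNReal.ofReal (aa τ n t p.1 p.2) =
      ENNReal.ofReal (2 * π * τ ^ 2) * II (τ ^ 2) (ar τ n t) := by
  have h1 := lintegral_plane (τ ^ 2) (by positivity) (fun z => ENNReal.ofReal (ar τ n t z))
    (ar_meas hτ n t).ennreal_ofReal
  have h2 : ∫⁻ p : ℝ × ℝ, ENNReal.ofReal (aa τ n t p.1 p.2) = ∫⁻ p : ℝ × ℝ,
      ENNReal.ofReal (ar τ n t ((√(p.1 ^ 2 + p.2 ^ 2 + (τ ^ 2) ^ 2) - 1) / τ ^ 2)) := by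
    apply lintegral_congr
    intro p
    rw [aa_eq_ar hτ]
    rfl
  rw [h2, h1]
  unfold II
  have m : Measurable fun z => ENNReal.ofReal ((1 + τ ^ 2 * z) * ar τ n t z) :=
    ((by fun_prop : Measurable fun z : ℝ => 1 + τ ^ 2 * z).mul (ar_meas hτ n t)).ennreal_ofReal
  rw [← lintegral_const_mul _ m]
  apply setLIntegral_congr_fun measurableSet_Ioi
  intro z hz
  have h3 := dom_pos hτ hz
  have h4 : 0 < τ ^ 2 := by positivity
  simp only
  rw [ENNReal.ofReal_mul (p := 2 * π * τ ^ 2) (by positivity),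
    ENNReal.ofReal_mul (p := 1 + τ ^ 2 * z) (by linarith)]
  ring

lemma kill_meas (hτ : 0 < τ) (n : ℕ) (t : ℝ) : Measurable fun z => kill τ n t z :=
  (kill_cont hτ n (X := ℝ) continuous_const continuous_id).measurable

lemma f1_meas (b D t : ℝ) : Measurable (f1 τ b D t) := by
  unfold f1
  exact (Measurable.indicator (by fun_prop) measurableSet_Iic).add
    ((Mb_meas _).indicator measurableSet_Ioi)

lemma f2_meas : Measurable (f2 τ) := by
  unfold f2
  exact (((Mb_meas _).const_mul _).add (measurable_const.indicator measurableSet_Iic)).const_mul _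

lemma f1_nonneg {b D : ℝ} (hD : 0 ≤ D) (t z : ℝ) : 0 ≤ f1 τ b D t z := by
  unfold f1
  exact add_nonneg (indicator_nonneg (fun _ _ => mul_nonneg hD (exp_pos _).le) _)
    (indicator_nonneg (fun _ _ => Mb_nonneg _ _) _)

lemma f2_nonneg (hτ : 0 < τ) (z : ℝ) : 0 ≤ f2 τ z := by
  unfold f2
  have h1 : 0 ≤ (Iic ((τ - 1) / τ ^ 2)).indicator (fun _ => (1:ℝ)) z :=
    indicator_nonneg (fun _ _ => by norm_num) _
  have h2 := Mb_nonneg (LL τ) z
  positivity

noncomputable def R1 (τ D b t : ℝ) : ℝ := D * exp (-b + t / τ ^ 2) + (b + LL τ + 1)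
noncomputable def R2 (τ : ℝ) : ℝ := 121 * (τ * (1 / τ ^ 2 + LL τ) + 1 / τ)
noncomputable def R3 (τ x σ : ℝ) : ℝ := (τ ^ 4 + ka τ) * vM (τ ^ 2) (LL τ)
      + (3 * x ^ 100 * (√(2 * σ) + (1 + τ ^ 2 * LL τ) * LL τ)
      + C2 * x * (τ ^ 4 + ka τ) * vL (τ ^ 2) (LL τ)) + C2 * x * 8

lemma InCycle.cost_at (h : InCycle τ n i t) (hτ : 0 < τ) (hτ1 : τ ≤ 1 / 2)
    (hδ : τ ^ 4 + ka τ ≤ 1) {b : ℝ} (hb : 0 ≤ b) :
    ∫⁻ p : ℝ × ℝ, ENNReal.ofReal (aa τ n t p.1 p.2) ≤
      ENNReal.ofReal (2 * π * τ ^ 2) * (II (τ ^ 2) (kill τ n t) +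
        (ENNReal.ofReal (R1 τ ((i + 1) / τ ^ 4) b t) + ENNReal.ofReal (R2 τ) +
          ENNReal.ofReal (202 / τ ^ 2) * ENNReal.ofReal (R3 τ (xx τ i t) (sg (sj τ i t))))) := by
  have hτ1' : τ ≤ 1 := by linarith
  have hτ2 : 0 < τ ^ 2 := by positivity
  rw [plane_eq hτ]
  apply mul_le_mul_right
  have hlog : -log (AA τ i t) ≤ LL τ := by
    have h1 := h.AA_ge hτ
    have h2 := log_le_log ka_pos h1
    rw [ka_eq, log_exp] at h2
    linarith
  have hD : (0:ℝ) ≤ (i + 1) / τ ^ 4 := by positivity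
  have b1 := J_f1 (τ := τ) (b := b) (D := (i + 1) / τ ^ 4) hτ hb hD t
  have b2 := J_f2 hτ hτ1'
  have b3 := II_f3 (τ := τ) (x := xx τ i t) (σ := sg (sj τ i t)) (a := -log (AA τ i t)) hτ
    (by nlinarith) (xx_nonneg i t) (sg_pos _) hlog (by linarith)
  have mk : Measurable fun z => ENNReal.ofReal ((1 + τ ^ 2 * z) * kill τ n t z) :=
    ((by fun_prop : Measurable fun z : ℝ => 1 + τ ^ 2 * z).mul (kill_meas hτ n t)).ennreal_ofReal
  have m1 : Measurable fun z => ENNReal.ofReal (f1 τ b ((i + 1) / τ ^ 4) t z) :=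
    (f1_meas _ _ _).ennreal_ofReal
  have m2 : Measurable fun z => ENNReal.ofReal (f2 τ z) := f2_meas.ennreal_ofReal
  calc II (τ ^ 2) (ar τ n t)
      ≤ ∫⁻ z in Ioi (1 - 1 / τ ^ 2), (ENNReal.ofReal ((1 + τ ^ 2 * z) * kill τ n t z) +
          (ENNReal.ofReal (f1 τ b ((i + 1) / τ ^ 4) t z) + (ENNReal.ofReal (f2 τ z) +
          ENNReal.ofReal (202 / τ ^ 2) * ENNReal.ofReal ((1 + τ ^ 2 * z) *
            f3 τ (xx τ i t) (sg (sj τ i t)) (-log (AA τ i t)) z)))) := by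
        unfold II
        apply setLIntegral_mono' measurableSet_Ioi
        intro z hz
        have hζ := dom_pos hτ hz
        have c0 := ar_le (n := n) (t := t) hτ hz
        have c1 := h.r1_le hτ hτ1' b z
        have c2 := h.r2_le hτ hτ1' hz
        have c3 := h.r3_le hτ hτ1' hδ z
        have c4 : 202 / τ ^ 2 * ((1 + τ ^ 2 * z) * r3 τ n t z) ≤ 202 / τ ^ 2 * ((1 + τ ^ 2 * z) *
            f3 τ (xx τ i t) (sg (sj τ i t)) (-log (AA τ i t)) z) := by
          apply mul_le_mul_of_nonneg_left _ (by positivity)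
          exact mul_le_mul_of_nonneg_left c3 (by linarith)
        rw [← ENNReal.ofReal_mul (by positivity)]
        refine (ENNReal.ofReal_le_ofReal (c0.trans (add_le_add_right (add_le_add
          (add_le_add c1 c2) c4) _))).trans ?_
        refine ENNReal.ofReal_add_le.trans (add_le_add_right ?_ _)
        rw [add_assoc]
        refine ENNReal.ofReal_add_le.trans (add_le_add_right ?_ _)
        exact ENNReal.ofReal_add_le
    _ = II (τ ^ 2) (kill τ n t) +
        ((∫⁻ z in Ioi (1 - 1 / τ ^ 2), ENNReal.ofReal (f1 τ b ((i + 1) / τ ^ 4) t z)) +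
        ((∫⁻ z in Ioi (1 - 1 / τ ^ 2), ENNReal.ofReal (f2 τ z)) +
          ENNReal.ofReal (202 / τ ^ 2) * II (τ ^ 2)
            (f3 τ (xx τ i t) (sg (sj τ i t)) (-log (AA τ i t))))) := by
        rw [lintegral_add_left mk, lintegral_add_left m1, lintegral_add_left m2,
          lintegral_const_mul' _ _ ENNReal.ofReal_ne_top]
        rfl
    _ ≤ _ := by
        rw [add_assoc (ENNReal.ofReal (R1 τ ((i + 1) / τ ^ 4) b t))]
        unfold R1 R2 R3
        gcongr

end Pool.Agent.Helper50.Ctrl
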