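import Pool.Agent.Helper50.Ctrl.Sol

set_option autoImplicit false

namespace Pool.Agent.Helper50.Ctrl

open MeasureTheory Set Real

variable {τ : ℝ}

lemma pp_succ (hτ : 0 < τ) (j : ℕ) (t z : ℝ) :
    pp (sj τ (j + 1) t) z = ka τ * pp (sj τ j t) z := by
  unfold pp ka sj
  rw [← exp_add]
  congr 1
  push_cast
  field_simp
  ring

lemma pp_tele (hτ : 0 < τ) (i : ℕ) (t z : ℝ) :
    ∑ j ∈ Finset.range i, (1 - ka τ) * pp (sj τ j t) z = pp (sj τ 0 t) z - pp (sj τ i t) z := by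
  induction i with
  | zero => simp
  | succ i ih =>
    rw [Finset.sum_range_succ, ih, pp_succ hτ]
    ring

lemma WW_sub_EE (n : ℕ) (t z : ℝ) : WW τ n t z - EE τ n t z =
    eta τ t + ∑ j ∈ Finset.range n, th τ j t * ((1 - ka τ) * hF (sj τ j t) z) := by
  unfold WW EE
  have : ∑ j ∈ Finset.range n, th τ j t * ((1 - ka τ) * (hQ (sj τ j t) z - pp (sj τ j t) z)) =
      ∑ j ∈ Finset.range n, th τ j t * ((1 - ka τ) * (hE (sj τ j t) z - pp (sj τ j t) z)) +
      ∑ j ∈ Finset.range n, th τ j t * ((1 - ka τ) * hF (sj τ j t) z) := by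
    rw [← Finset.sum_add_distrib]
    apply Finset.sum_congr rfl
    intro j _
    rw [hQ_eq]
    ring
  rw [this]
  ring

lemma eta_pos (hτ : 0 < τ) (t : ℝ) : 0 < eta τ t := by unfold eta; positivity

lemma WW_ge (hτ : 0 < τ) (n : ℕ) (t z : ℝ) :
    eta τ t + pp (sj τ n t) z + ∑ j ∈ Finset.range n, th τ j t * ((1 - ka τ) * hQ (sj τ j t) z)
      ≤ WW τ n t z := by
  have h1 : ∑ j ∈ Finset.range n, th τ j t * ((1 - ka τ) * (hQ (sj τ j t) z - pp (sj τ j t) z)) =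
      ∑ j ∈ Finset.range n, th τ j t * ((1 - ka τ) * hQ (sj τ j t) z) -
      ∑ j ∈ Finset.range n, th τ j t * ((1 - ka τ) * pp (sj τ j t) z) := by
    rw [← Finset.sum_sub_distrib]
    apply Finset.sum_congr rfl
    intro j _
    ring
  have h2 : ∑ j ∈ Finset.range n, th τ j t * ((1 - ka τ) * pp (sj τ j t) z) ≤
      ∑ j ∈ Finset.range n, (1 - ka τ) * pp (sj τ j t) z := by
    apply Finset.sum_le_sum
    intro j _
    have h3 : 0 ≤ (1 - ka τ) * pp (sj τ j t) z :=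
      mul_nonneg (by linarith [ka_lt_one hτ]) (pp_pos _ _).le
    nlinarith [th_le_one (τ := τ) j t]
  rw [pp_tele hτ] at h2
  unfold WW
  rw [h1]
  linarith

lemma EE_pos (hτ : 0 < τ) (n : ℕ) (t z : ℝ) : 0 < EE τ n t z := by
  have h1 : ∑ j ∈ Finset.range n, th τ j t * ((1 - ka τ) * (hE (sj τ j t) z - pp (sj τ j t) z)) =
      ∑ j ∈ Finset.range n, th τ j t * ((1 - ka τ) * hE (sj τ j t) z) -
      ∑ j ∈ Finset.range n, th τ j t * ((1 - ka τ) * pp (sj τ j t) z) := by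
    rw [← Finset.sum_sub_distrib]
    apply Finset.sum_congr rfl
    intro j _
    ring
  have h2 : ∑ j ∈ Finset.range n, th τ j t * ((1 - ka τ) * pp (sj τ j t) z) ≤
      ∑ j ∈ Finset.range n, (1 - ka τ) * pp (sj τ j t) z := by
    apply Finset.sum_le_sum
    intro j _
    have h3 : 0 ≤ (1 - ka τ) * pp (sj τ j t) z :=
      mul_nonneg (by linarith [ka_lt_one hτ]) (pp_pos _ _).le
    nlinarith [th_le_one (τ := τ) j t]
  have h3 : 0 ≤ ∑ j ∈ Finset.range n, th τ j t * ((1 - ka τ) * hE (sj τ j t) z) :=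
    Finset.sum_nonneg fun j _ => mul_nonneg (th_nonneg _ _)
      (mul_nonneg (by linarith [ka_lt_one hτ]) (hE_pos _ _).le)
  rw [pp_tele hτ] at h2
  unfold EE
  rw [h1]
  linarith [pp_pos (sj τ n t) z]

lemma sumQ_nonneg (hτ : 0 < τ) (n : ℕ) (t z : ℝ) :
    0 ≤ ∑ j ∈ Finset.range n, th τ j t * ((1 - ka τ) * hQ (sj τ j t) z) :=
  Finset.sum_nonneg fun j _ => mul_nonneg (th_nonneg _ _)
    (mul_nonneg (by linarith [ka_lt_one hτ]) (hQ_pos _ _).le)

lemma WW_pos (hτ : 0 < τ) (n : ℕ) (t z : ℝ) : 0 < WW τ n t z := by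
  have h1 := WW_ge hτ n t z
  have h2 := sumQ_nonneg hτ n t z
  linarith [pp_pos (sj τ n t) z, eta_pos hτ t]

lemma eta_le_F (hτ : 0 < τ) (n : ℕ) (t z : ℝ) : eta τ t ≤ WW τ n t z - EE τ n t z := by
  rw [WW_sub_EE]
  have : 0 ≤ ∑ j ∈ Finset.range n, th τ j t * ((1 - ka τ) * hF (sj τ j t) z) :=
    Finset.sum_nonneg fun j _ => mul_nonneg (th_nonneg _ _)
      (mul_nonneg (by linarith [ka_lt_one hτ]) (hF_pos _ _).le)
  linarith

lemma EE_le_WW (hτ : 0 < τ) (n : ℕ) (t z : ℝ) : EE τ n t z ≤ WW τ n t z := by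
  linarith [eta_le_F hτ n t z, eta_pos hτ t]

lemma PI_nonneg (hτ : 0 < τ) (n : ℕ) (t z : ℝ) : 0 ≤ PI τ n t z :=
  Finset.sum_nonneg fun j _ => mul_nonneg (th_nonneg _ _)
    (mul_nonneg (by linarith [ka_lt_one hτ]) (hK_nonneg _ _))

lemma PI_le (hτ : 0 < τ) (n : ℕ) (t z : ℝ) : PI τ n t z ≤ 20 * WW τ n t z := by
  have h1 := WW_ge hτ n t z
  have h2 : PI τ n t z ≤
      20 * ∑ j ∈ Finset.range n, th τ j t * ((1 - ka τ) * hQ (sj τ j t) z) := by
    rw [Finset.mul_sum]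
    apply Finset.sum_le_sum
    intro j _
    have h3 := hK_le (sj τ j t) z
    have h4 : 0 ≤ th τ j t * (1 - ka τ) := mul_nonneg (th_nonneg _ _) (by linarith [ka_lt_one hτ])
    calc th τ j t * ((1 - ka τ) * hK (sj τ j t) z)
        = th τ j t * (1 - ka τ) * hK (sj τ j t) z := by ring
      _ ≤ th τ j t * (1 - ka τ) * (20 * hQ (sj τ j t) z) := mul_le_mul_of_nonneg_left h3 h4
      _ = _ := by ring
  linarith [pp_pos (sj τ n t) z, eta_pos hτ t]

lemma KK_nonneg (hτ : 0 < τ) (n : ℕ) (t z : ℝ) : 0 ≤ KK τ n t z := by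
  apply Finset.sum_nonneg
  intro j _
  rcases le_or_gt t ((j + 1) * τ) with h | h
  · rw [dth_zero hτ h]; simp
  · have h1 := hQ_le_pp (sj_pos hτ h).le z
    have h2 := dth_nonneg hτ j t
    have h3 := ka_lt_one hτ
    exact mul_nonneg h2 (mul_nonneg (by linarith) (by linarith))

/-- `t` lies in the `i`-th cycle. -/
structure InCycle (τ : ℝ) (n i : ℕ) (t : ℝ) : Prop where
  lt : i < n
  nonneg : 0 ≤ t
  left : (i + 1) * τ ≤ t ∨ i = 0
  right : t ≤ (i + 2) * τ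

section cycle
variable {n i : ℕ} {t : ℝ}

lemma InCycle.th_lt (h : InCycle τ n i t) (hτ : 0 < τ) (hτ1 : τ ≤ 1) {j : ℕ} (hj : j < i) :
    th τ j t = 1 := by
  apply th_one hτ
  rcases h.left with h1 | h1
  · have h2 : ((j:ℝ) + 1) ≤ i := by exact_mod_cast hj
    have h3 : τ ^ 4 ≤ τ := by
      have : τ ^ 4 ≤ τ ^ 1 := pow_le_pow_of_le_one hτ.le hτ1 (by norm_num)
      simpa using this
    nlinarith
  · omega

lemma InCycle.th_gt (h : InCycle τ n i t) (hτ : 0 < τ) {j : ℕ} (hj : i < j) :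
    th τ j t = 0 := by
  apply th_zero hτ
  have h2 : ((i:ℝ) + 1) ≤ j := by exact_mod_cast hj
  have := h.right
  nlinarith

lemma InCycle.sum_eq (h : InCycle τ n i t) (hτ : 0 < τ) (hτ1 : τ ≤ 1) (X : ℕ → ℝ) :
    ∑ j ∈ Finset.range n, th τ j t * X j = ∑ j ∈ Finset.range i, X j + th τ i t * X i := by
  have h1 : ∑ j ∈ Finset.range (i + 1), th τ j t * X j = ∑ j ∈ Finset.range n, th τ j t * X j := by
    apply Finset.sum_subset
    · intro j hj
      rw [Finset.mem_range] at hj ⊢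
      have := h.lt
      omega
    · intro j _ hj
      rw [Finset.mem_range] at hj
      rw [h.th_gt hτ (by omega)]
      ring
  rw [← h1, Finset.sum_range_succ]
  congr 1
  apply Finset.sum_congr rfl
  intro j hj
  rw [h.th_lt hτ hτ1 (Finset.mem_range.mp hj)]
  ring

/-- amplitude of the current front -/
noncomputable def AA (τ : ℝ) (i : ℕ) (t : ℝ) : ℝ :=
  (1 - th τ i t * (1 - ka τ)) * exp (sj τ i t / 2)

lemma InCycle.WW_eq (h : InCycle τ n i t) (hτ : 0 < τ) (hτ1 : τ ≤ 1) (z : ℝ) :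
    WW τ n t z = eta τ t + ∑ j ∈ Finset.range i, (1 - ka τ) * hQ (sj τ j t) z
      + th τ i t * ((1 - ka τ) * hQ (sj τ i t) z) + AA τ i t * exp z := by
  unfold WW
  rw [h.sum_eq hτ hτ1]
  have h1 : ∑ j ∈ Finset.range i, (1 - ka τ) * (hQ (sj τ j t) z - pp (sj τ j t) z) =
      ∑ j ∈ Finset.range i, (1 - ka τ) * hQ (sj τ j t) z -
      ∑ j ∈ Finset.range i, (1 - ka τ) * pp (sj τ j t) z := by
    rw [← Finset.sum_sub_distrib]
    apply Finset.sum_congr rfl
    intro j _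
    ring
  have h2 : AA τ i t * exp z = (1 - th τ i t * (1 - ka τ)) * pp (sj τ i t) z := by
    unfold AA pp
    rw [exp_add]; ring
  rw [h1, pp_tele hτ, h2]
  ring

lemma InCycle.EE_eq (h : InCycle τ n i t) (hτ : 0 < τ) (hτ1 : τ ≤ 1) (z : ℝ) :
    EE τ n t z = ∑ j ∈ Finset.range i, (1 - ka τ) * hE (sj τ j t) z
      + th τ i t * ((1 - ka τ) * hE (sj τ i t) z) + AA τ i t * exp z := by
  unfold EE
  rw [h.sum_eq hτ hτ1]
  have h1 : ∑ j ∈ Finset.range i, (1 - ka τ) * (hE (sj τ j t) z - pp (sj τ j t) z) =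
      ∑ j ∈ Finset.range i, (1 - ka τ) * hE (sj τ j t) z -
      ∑ j ∈ Finset.range i, (1 - ka τ) * pp (sj τ j t) z := by
    rw [← Finset.sum_sub_distrib]
    apply Finset.sum_congr rfl
    intro j _
    ring
  have h2 : AA τ i t * exp z = (1 - th τ i t * (1 - ka τ)) * pp (sj τ i t) z := by
    unfold AA pp
    rw [exp_add]; ring
  rw [h1, pp_tele hτ, h2]
  ring

lemma InCycle.AA_ge (h : InCycle τ n i t) (hτ : 0 < τ) : ka τ ≤ AA τ i t := by
  unfold AA
  have h1 := th_nonneg (τ := τ) i t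
  have h2 := th_le_one (τ := τ) i t
  have h3 := ka_lt_one hτ
  have h4 := ka_pos (τ := τ)
  rcases le_or_gt ((i + 1) * τ) t with h5 | h5
  · have h6 := sj_nonneg hτ h5
    have h7 : 1 ≤ exp (sj τ i t / 2) := one_le_exp (by linarith)
    have h8 : ka τ ≤ 1 - th τ i t * (1 - ka τ) := by nlinarith
    nlinarith
  · have h6 : i = 0 := by
      rcases h.left with h7 | h7
      · linarith
      · exact h7
    subst h6
    rw [th_zero hτ h5.le]
    unfold ka sj
    have h7 := h.nonneg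
    simp only [zero_mul, sub_zero, one_mul]
    apply exp_le_exp.mpr
    have : -(1 / (2 * τ)) = (0 - (((0:ℕ):ℝ) + 1) * τ) / τ ^ 2 / 2 := by
      field_simp; norm_num
    rw [this]
    gcongr

lemma InCycle.AA_le (h : InCycle τ n i t) (hτ : 0 < τ) (hτ1 : τ ≤ 1) : AA τ i t ≤ exp 1 := by
  unfold AA
  have h1 := th_nonneg (τ := τ) i t
  have h2 := th_le_one (τ := τ) i t
  have h3 := ka_lt_one hτ
  have h4 := ka_pos (τ := τ)
  rcases le_or_gt t ((i + 1) * τ + τ ^ 4) with h5 | h5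
  · have h6 : sj τ i t / 2 ≤ 1 := by
      unfold sj
      rw [div_div, div_le_one (by positivity)]
      have : τ ^ 4 ≤ τ ^ 2 := pow_le_pow_of_le_one hτ.le hτ1 (by norm_num)
      nlinarith [sq_nonneg τ]
    have h7 := exp_le_exp.mpr h6
    have h8 : 1 - th τ i t * (1 - ka τ) ≤ 1 := by nlinarith
    have h9 : 0 ≤ 1 - th τ i t * (1 - ka τ) := by nlinarith
    nlinarith [exp_pos (sj τ i t / 2)]
  · rw [th_one hτ h5.le]
    have h6 : (1 - 1 * (1 - ka τ)) * exp (sj τ i t / 2) = exp (-(1 / (2 * τ)) + sj τ i t / 2) := by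
      unfold ka
      rw [exp_add]; ring
    rw [h6]
    apply exp_le_exp.mpr
    have h7 : sj τ i t / 2 ≤ 1 / (2 * τ) := by
      unfold sj
      rw [div_div, div_le_div_iff₀ (by positivity) (by positivity)]
      have := h.right
      nlinarith [hτ.le, mul_pos hτ hτ]
    linarith

lemma InCycle.AA_pos (h : InCycle τ n i t) (hτ : 0 < τ) : 0 < AA τ i t :=
  lt_of_lt_of_le ka_pos (h.AA_ge hτ)

lemma sum_ka_le (hτ : 0 < τ) (i : ℕ) :
    ∑ j ∈ Finset.range i, (1 - ka τ) * ka τ ^ (i - j) ≤ ka τ := by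
  have h3 := ka_lt_one hτ
  have h4 := ka_pos (τ := τ)
  have : ∑ j ∈ Finset.range i, (1 - ka τ) * ka τ ^ (i - j) = ka τ * (1 - ka τ ^ i) := by
    induction i with
    | zero => simp
    | succ i ih =>
      rw [Finset.sum_range_succ]
      have h5 : ∑ j ∈ Finset.range i, (1 - ka τ) * ka τ ^ (i + 1 - j) =
          ka τ * ∑ j ∈ Finset.range i, (1 - ka τ) * ka τ ^ (i - j) := by
        rw [Finset.mul_sum]
        apply Finset.sum_congr rfl
        intro j hj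
        rw [Finset.mem_range] at hj
        rw [show i + 1 - j = (i - j) + 1 by omega, pow_succ]
        ring
      rw [h5, ih, show i + 1 - i = 1 by omega]
      ring
  rw [this]
  have : 0 ≤ ka τ ^ i := by positivity
  nlinarith

lemma InCycle.am_le (h : InCycle τ n i t) (hτ : 0 < τ) {j : ℕ} (hj : j < i) :
    am (sj τ j t) ≤ ka τ ^ (i - j) := by
  unfold am ka
  rw [← Real.exp_nat_mul]
  apply exp_le_exp.mpr
  rcases h.left with h1 | h1
  · have h2 : ((i:ℝ) - j) / τ ≤ sj τ j t := by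
      unfold sj
      rw [div_le_div_iff₀ hτ (by positivity)]
      nlinarith [mul_pos hτ hτ]
    have h3 : (((i - j : ℕ)) : ℝ) = (i:ℝ) - j := by
      push_cast [Nat.cast_sub hj.le]; ring
    rw [h3]
    have h4 : ((i:ℝ) - j) * -(1 / (2 * τ)) = -(((i:ℝ) - j) / τ / 2) := by
      field_simp
    rw [h4]
    linarith
  · omega

lemma InCycle.old_le (h : InCycle τ n i t) (hτ : 0 < τ) {X : ℕ → ℝ}
    (hX : ∀ j, X j ≤ am (sj τ j t)) :
    ∑ j ∈ Finset.range i, (1 - ka τ) * X j ≤ ka τ := by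
  refine le_trans (Finset.sum_le_sum fun j hj => ?_) (sum_ka_le hτ i)
  have h3 := ka_lt_one hτ
  exact mul_le_mul_of_nonneg_left ((hX j).trans (h.am_le hτ (Finset.mem_range.mp hj))) (by linarith)

/-- amplitude of the current plateau -/
noncomputable def xx (τ : ℝ) (i : ℕ) (t : ℝ) : ℝ := th τ i t * am (sj τ i t)

lemma xx_nonneg (i : ℕ) (t : ℝ) : 0 ≤ xx τ i t := mul_nonneg (th_nonneg _ _) (am_pos _).le

lemma eta_le (hτ : 0 < τ) {t : ℝ} (ht : 0 ≤ t) : eta τ t ≤ τ ^ 4 := by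
  unfold eta
  have : exp (-(t / (2 * τ ^ 2))) ≤ 1 := by
    rw [exp_le_one_iff]
    have : 0 ≤ t / (2 * τ ^ 2) := by positivity
    linarith
  nlinarith [pow_pos hτ 4]

lemma InCycle.F_le (h : InCycle τ n i t) (hτ : 0 < τ) (hτ1 : τ ≤ 1) (z : ℝ) :
    WW τ n t z - EE τ n t z ≤ (τ ^ 4 + ka τ) + xx τ i t * E1 (sg (sj τ i t)) z := by
  rw [WW_sub_EE, h.sum_eq hτ hτ1]
  have h1 := eta_le hτ h.nonneg
  have h2 := h.old_le hτ (X := fun j => hF (sj τ j t) z) (fun j => by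
    unfold hF
    have := E1_le_one (sg (sj τ j t)) z
    nlinarith [am_pos (sj τ j t)])
  have h3 : th τ i t * ((1 - ka τ) * hF (sj τ i t) z) ≤ xx τ i t * E1 (sg (sj τ i t)) z := by
    unfold xx hF
    have h4 : 0 ≤ th τ i t * (am (sj τ i t) * E1 (sg (sj τ i t)) z) :=
      mul_nonneg (th_nonneg _ _) (mul_pos (am_pos _) (E1_pos _ _)).le
    nlinarith [ka_pos (τ := τ)]
  linarith

lemma InCycle.WW_le (h : InCycle τ n i t) (hτ : 0 < τ) (hτ1 : τ ≤ 1) (z : ℝ) :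
    WW τ n t z ≤ (τ ^ 4 + ka τ) + xx τ i t + AA τ i t * exp z := by
  rw [h.WW_eq hτ hτ1]
  have h1 := eta_le hτ h.nonneg
  have h2 := h.old_le hτ (X := fun j => hQ (sj τ j t) z) (fun j => hQ_le_one _ _)
  have h3 : th τ i t * ((1 - ka τ) * hQ (sj τ i t) z) ≤ xx τ i t := by
    unfold xx
    have h4 := hQ_le_one (sj τ i t) z
    have h5 := hQ_pos (sj τ i t) z
    have h6 := ka_pos (τ := τ)
    apply mul_le_mul_of_nonneg_left _ (th_nonneg _ _)
    nlinarith
  linarith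

lemma InCycle.WW_ge' (h : InCycle τ n i t) (hτ : 0 < τ) (hτ1 : τ ≤ 1) (z : ℝ) :
    AA τ i t * exp z ≤ WW τ n t z := by
  rw [h.WW_eq hτ hτ1]
  have h1 := eta_pos hτ t
  have h3 := ka_lt_one hτ
  have h2 : 0 ≤ ∑ j ∈ Finset.range i, (1 - ka τ) * hQ (sj τ j t) z :=
    Finset.sum_nonneg fun j _ => mul_nonneg (by linarith) (hQ_pos _ _).le
  have h4 : 0 ≤ th τ i t * ((1 - ka τ) * hQ (sj τ i t) z) :=
    mul_nonneg (th_nonneg _ _) (mul_nonneg (by linarith) (hQ_pos _ _).le)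
  linarith

lemma sj_le (hτ : 0 < τ) (j : ℕ) (t : ℝ) : sj τ j t ≤ t / τ ^ 2 := by
  unfold sj
  apply div_le_div_of_nonneg_right _ (by positivity)
  have : 0 ≤ ((j:ℝ) + 1) * τ := by positivity
  linarith

lemma pp_le (hτ : 0 < τ) (j : ℕ) (t z : ℝ) :
    pp (sj τ j t) z ≤ exp (z + t / (2 * τ ^ 2)) := by
  unfold pp
  apply exp_le_exp.mpr
  have := sj_le hτ j t
  have h2 : t / (2 * τ ^ 2) = t / τ ^ 2 / 2 := by field_simp
  rw [h2]
  linarith

lemma InCycle.EE_le (h : InCycle τ n i t) (hτ : 0 < τ) (hτ1 : τ ≤ 1) (z : ℝ) :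
    EE τ n t z ≤ (i + 1) * exp (z + t / (2 * τ ^ 2)) := by
  rw [h.EE_eq hτ hτ1]
  have h3 := ka_lt_one hτ
  have h4 := ka_pos (τ := τ)
  have h1 : ∑ j ∈ Finset.range i, (1 - ka τ) * hE (sj τ j t) z ≤
      ∑ j ∈ Finset.range i, exp (z + t / (2 * τ ^ 2)) := by
    apply Finset.sum_le_sum
    intro j hj
    rw [Finset.mem_range] at hj
    have h5 : 0 ≤ sj τ j t := by
      apply sj_nonneg hτ
      rcases h.left with h6 | h6
      · have h2 : ((j:ℝ) + 1) ≤ i := by exact_mod_cast hj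
        nlinarith
      · omega
    have h6 := hE_le_pp h5 z
    have h7 := pp_le hτ j t z
    have h8 := hE_pos (sj τ j t) z
    nlinarith
  rw [Finset.sum_const, Finset.card_range, nsmul_eq_mul] at h1
  have h2 : th τ i t * ((1 - ka τ) * hE (sj τ i t) z) + AA τ i t * exp z ≤ pp (sj τ i t) z := by
    have h5 : AA τ i t * exp z = (1 - th τ i t * (1 - ka τ)) * pp (sj τ i t) z := by
      unfold AA pp
      rw [exp_add]; ring
    rw [h5]
    rcases le_or_gt t ((i + 1) * τ) with h6 | h6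
    · rw [th_zero hτ h6]; simp
    · have h7 := hE_le_pp (sj_pos hτ h6).le z
      have h8 : 0 ≤ th τ i t * (1 - ka τ) := mul_nonneg (th_nonneg _ _) (by linarith)
      nlinarith
  have h5 := pp_le hτ i t z
  linarith

end cycle

end Pool.Agent.Helper50.Ctrl
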