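import Mathlib

set_option autoImplicit false

namespace Pool.Agent.Helper50.Ctrl

open MeasureTheory Set Filter Topology
open scoped ENNReal

/-- The bistability hypotheses on the reaction term. -/
structure IsBistable (f : ℝ → ℝ) : Prop where
  smooth : ContDiff ℝ 2 f
  zero0 : f 0 = 0
  zero1 : f 1 = 0
  deriv0 : deriv f 0 < 0
  deriv1 : deriv f 1 < 0
  interior : ∃ s ∈ Ioo (0:ℝ) 1, f s = 0 ∧ 0 < deriv f s ∧ ∀ r ∈ Ioo (0:ℝ) 1, f r = 0 → r = s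

/-- `U` is a travelling wave of speed `β` for the control `α`:
`U'' + β U' + f(U) - α U = 0`, with `U` in the Sobolev class `W^{2,1}_loc`. -/
def IsWave (f : ℝ → ℝ) (β : ℝ) (α U : ℝ → ℝ) : Prop :=
  (∀ x, U x ∈ Icc (0:ℝ) 1) ∧ Tendsto U atBot (𝓝 0) ∧ Tendsto U atTop (𝓝 1) ∧
  ∃ V : ℝ → ℝ, (∀ x, HasDerivAt U (V x) x) ∧
    (∀ a b, AbsolutelyContinuousOnInterval V a b) ∧
    ∀ᵐ x, HasDerivAt V (α x * U x - β * V x - f (U x)) x

/-- The effort function. -/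
noncomputable def effort (f : ℝ → ℝ) (β : ℝ) : ℝ≥0∞ :=
  ⨅ (α : ℝ → ℝ) (_ : Measurable α) (_ : ∀ x, 0 ≤ α x) (_ : ∃ U, IsWave f β α U),
    ∫⁻ x, ENNReal.ofReal (α x)

/-- The reaction term used in the counterexample. -/
noncomputable def fm (u : ℝ) : ℝ := u * (1 - u ^ 100) * (101 * u ^ 100 - 1 / 2)

end Pool.Agent.Helper50.Ctrl
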