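import Mathlib

set_option autoImplicit false

namespace Pool.Agent.Helper50.Ctrl

open MeasureTheory Set Filter Topology
open scoped ENNReal

/-- radial substitution in the plane (written by helper92) -/
theorem lintegral_plane (ε : ℝ) (hε : 0 < ε) (G : ℝ → ℝ≥0∞) (hG : Measurable G) :
    ∫⁻ p : ℝ × ℝ, G ((√(p.1 ^ 2 + p.2 ^ 2 + ε ^ 2) - 1) / ε) =
      ∫⁻ z in Ioi (1 - 1 / ε), ENNReal.ofReal (2 * Real.pi * ε * (1 + ε * z)) * G z := by
  set h : ℝ → ℝ := fun r => (√(r ^ 2 + ε ^ 2) - 1) / ε with hh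
  have hpos : ∀ r : ℝ, 0 < r ^ 2 + ε ^ 2 := fun r => by positivity
  have hmeas : Measurable h := by
    have : Continuous h := by
      simp only [hh]
      fun_prop
    exact this.measurable
  -- polar coordinates
  have h1 : ∫⁻ p : ℝ × ℝ, G ((√(p.1 ^ 2 + p.2 ^ 2 + ε ^ 2) - 1) / ε) =
      ∫⁻ p : ℝ × ℝ in Ioi (0 : ℝ) ×ˢ Ioo (-Real.pi) Real.pi, ENNReal.ofReal p.1 * G (h p.1) := by
    rw [← lintegral_comp_polarCoord_symm]
    apply lintegral_congr
    intro p
    rw [smul_eq_mul]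
    congr 2
    simp only [polarCoord_symm_apply, hh]
    congr 3
    have := Real.sin_sq_add_cos_sq p.2
    linear_combination p.1 ^ 2 * this
  have h2 : ∫⁻ p : ℝ × ℝ in Ioi (0 : ℝ) ×ˢ Ioo (-Real.pi) Real.pi,
      ENNReal.ofReal p.1 * G (h p.1) =
      ∫⁻ r in Ioi (0 : ℝ), ENNReal.ofReal r * G (h r) * ENNReal.ofReal (2 * Real.pi) := by
    rw [Measure.volume_eq_prod, ← Measure.prod_restrict, lintegral_prod]
    · apply lintegral_congr
      intro r
      simp only [lintegral_const, Measure.restrict_apply MeasurableSet.univ, univ_inter,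
        Real.volume_Ioo]
      congr 2
      ring
    · apply Measurable.aemeasurable
      exact (ENNReal.measurable_ofReal.comp measurable_fst).mul (hG.comp (hmeas.comp measurable_fst))
  -- the substitution
  have hderiv : ∀ r ∈ Ioi (0 : ℝ), HasDerivWithinAt h (r / (ε * √(r ^ 2 + ε ^ 2))) (Ioi 0) r := by
    intro r _
    have e1 : HasDerivAt (fun r : ℝ => r ^ 2 + ε ^ 2) (2 * r) r := by
      simpa using (hasDerivAt_pow 2 r).add_const (ε ^ 2)
    have e2 := e1.sqrt (hpos r).ne'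
    have e3 := (e2.sub_const 1).div_const ε
    have e4 : 2 * r / (2 * √(r ^ 2 + ε ^ 2)) / ε = r / (ε * √(r ^ 2 + ε ^ 2)) := by
      have : √(r ^ 2 + ε ^ 2) ≠ 0 := (Real.sqrt_pos.2 (hpos r)).ne'
      field_simp
    rw [e4] at e3
    exact e3.hasDerivWithinAt
  have hinj : InjOn h (Ioi 0) := by
    intro r hr r' hr' heq
    simp only [hh] at heq
    have e1 : √(r ^ 2 + ε ^ 2) = √(r' ^ 2 + ε ^ 2) := by
      have h5 : (√(r ^ 2 + ε ^ 2) - 1) / ε * ε = (√(r' ^ 2 + ε ^ 2) - 1) / ε * ε := by rw [heq]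
      rw [div_mul_cancel₀ _ hε.ne', div_mul_cancel₀ _ hε.ne'] at h5
      linarith
    have e2 := (Real.sqrt_inj (hpos r).le (hpos r').le).1 e1
    have e3 : r ^ 2 = r' ^ 2 := by linarith
    exact (pow_left_inj₀ (le_of_lt hr) (le_of_lt hr') two_ne_zero).1 e3
  have himage : h '' Ioi 0 = Ioi (1 - 1 / ε) := by
    ext z
    simp only [mem_image, mem_Ioi, hh]
    constructor
    · rintro ⟨r, hr, rfl⟩
      have e1 : ε < √(r ^ 2 + ε ^ 2) := by
        apply Real.lt_sqrt_of_sq_lt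
        have : 0 < r ^ 2 := by positivity
        linarith
      rw [lt_div_iff₀ hε, sub_mul, div_mul_cancel₀ _ hε.ne']
      linarith
    · intro hz
      have e1 : ε < 1 + ε * z := by
        have : (1 - 1 / ε) * ε < z * ε := mul_lt_mul_of_pos_right hz hε
        rw [sub_mul, div_mul_cancel₀ _ hε.ne'] at this
        linarith
      have e2 : 0 < (1 + ε * z) ^ 2 - ε ^ 2 := by nlinarith
      refine ⟨√((1 + ε * z) ^ 2 - ε ^ 2), Real.sqrt_pos.2 e2, ?_⟩
      rw [Real.sq_sqrt e2.le, sub_add_cancel, Real.sqrt_sq (by linarith)]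
      field_simp
      ring
  rw [h1, h2, ← himage, lintegral_image_eq_lintegral_abs_deriv_mul measurableSet_Ioi hderiv hinj]
  apply setLIntegral_congr_fun measurableSet_Ioi
  intro r hr
  simp only
  have hr' : (0 : ℝ) < r := hr
  have hs : 0 < √(r ^ 2 + ε ^ 2) := Real.sqrt_pos.2 (hpos r)
  have e1 : 1 + ε * h r = √(r ^ 2 + ε ^ 2) := by
    simp only [hh]
    field_simp
    ring
  rw [e1, ← mul_assoc, ← ENNReal.ofReal_mul (abs_nonneg _), mul_right_comm,
    ← ENNReal.ofReal_mul hr'.le]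
  congr 2
  rw [abs_of_pos (by positivity)]
  field_simp

end Pool.Agent.Helper50.Ctrl
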