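import Pool.Agent.Helper50.Ctrl.Bound
import Pool.Agent.Helper50.Ctrl.Radial

set_option autoImplicit false

namespace Pool.Agent.Helper50.Ctrl

open MeasureTheory Set Filter Topology
open scoped ENNReal

/-! L1 convergence (written by helper60) -/

section
variable {τ : ℝ} {n i : ℕ} {t : ℝ}

lemma LL_ge_one (hτ : 0 < τ) (hτ1 : τ ≤ 1 / 2) : 1 ≤ LL τ := by
  unfold LL
  rw [le_div_iff₀ (by positivity)]
  linarith

lemma InCycle.WW_small (h : InCycle τ n i t) (hτ : 0 < τ) (hτ1 : τ ≤ 1 / 2) (z : ℝ) :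
    WW τ n t z ≤ (τ ^ 4 + ka τ) + 2 * Real.exp (z + LL τ) := by
  have hτ1' : τ ≤ 1 := by linarith
  rw [h.WW_eq hτ hτ1']
  have h1 := eta_le hτ h.nonneg
  have h2 := h.old_le hτ (X := fun j => hQ (sj τ j t) z) (fun j => hQ_le_one _ _)
  have h3 : th τ i t * ((1 - ka τ) * hQ (sj τ i t) z) ≤ Real.exp (z + LL τ) := by
    have h6 := ka_pos (τ := τ)
    have h7 := ka_lt_one hτ
    rcases le_or_gt t ((i + 1) * τ) with h4 | h4
    · rw [th_zero hτ h4]
      have := Real.exp_pos (z + LL τ)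
      linarith
    · have h5 := sj_pos hτ h4
      have h8 := hQ_le_pp h5.le z
      have h9 : pp (sj τ i t) z ≤ Real.exp (z + LL τ) := by
        unfold pp
        apply Real.exp_le_exp.mpr
        have : sj τ i t / 2 ≤ LL τ := by
          unfold sj LL
          rw [div_div, div_le_div_iff₀ (by positivity) (by positivity)]
          have := h.right
          nlinarith [hτ.le, mul_pos hτ hτ]
        linarith
      have h10 := hQ_pos (sj τ i t) z
      have h11 := th_nonneg (τ := τ) i t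
      have h12 := th_le_one (τ := τ) i t
      have h13 : (1 - ka τ) * hQ (sj τ i t) z ≤ hQ (sj τ i t) z := by nlinarith
      have h14 : 0 ≤ (1 - ka τ) * hQ (sj τ i t) z := mul_nonneg (by linarith) h10.le
      have h15 : th τ i t * ((1 - ka τ) * hQ (sj τ i t) z) ≤ (1 - ka τ) * hQ (sj τ i t) z := by
        nlinarith
      linarith
  have h4 : AA τ i t * Real.exp z ≤ Real.exp (z + LL τ) := by
    have h5 := h.AA_le hτ hτ1'
    calc AA τ i t * Real.exp z ≤ Real.exp 1 * Real.exp z :=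
          mul_le_mul_of_nonneg_right h5 (Real.exp_pos _).le
      _ = Real.exp (z + 1) := by rw [← Real.exp_add]; congr 1; ring
      _ ≤ _ := Real.exp_le_exp.mpr (by linarith [LL_ge_one hτ hτ1])
  linarith

lemma NN_facts {w : ℝ} (hw : 0 < w) : 0 < NN w ∧ NN w ≤ w ∧ NN w ≤ 1 ∧
    1 - NN w ≤ 1 / (1 + w ^ 100) := by
  have hD : 0 < w ^ 100 := by positivity
  have hq : 0 < 1 + w ^ 100 := by positivity
  have hc0 : 0 < (1 + w ^ 100) ^ (-(1 / 100) : ℝ) := Real.rpow_pos_of_pos hq _
  have hc1 : (1 + w ^ 100) ^ (-(1 / 100) : ℝ) ≤ 1 := by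
    apply Real.rpow_le_one_of_one_le_of_nonpos (by linarith)
    norm_num
  have hN0 : 0 < NN w := mul_pos hw hc0
  have hpow : NN w ^ 100 = w ^ 100 / (1 + w ^ 100) := by
    unfold NN
    rw [mul_pow, ← Real.rpow_natCast ((1 + w ^ 100) ^ (-(1 / 100) : ℝ)) 100,
      ← Real.rpow_mul hq.le]
    have : (-(1 / 100) : ℝ) * ((100 : ℕ) : ℝ) = -1 := by norm_num
    rw [this, Real.rpow_neg_one, div_eq_mul_inv]
  have hle1 : NN w ≤ 1 := by
    by_contra hcon
    push Not at hcon
    have h1 : 1 < NN w ^ 100 := one_lt_pow₀ hcon (by norm_num)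
    rw [hpow, lt_div_iff₀ hq] at h1
    linarith
  refine ⟨hN0, ?_, hle1, ?_⟩
  · unfold NN
    nlinarith
  · have h1 : NN w ^ 100 ≤ NN w := by
      have := pow_le_pow_of_le_one hN0.le hle1 (show 1 ≤ 100 by norm_num)
      rwa [pow_one] at this
    have h2 : 1 - NN w ^ 100 = 1 / (1 + w ^ 100) := by
      rw [hpow]; field_simp; ring
    linarith

/-- radial majorant of `|u - 1_Ω|` -/
noncomputable def BB (c L z : ℝ) : ℝ :=
  (Iio (-L)).indicator (fun z => c + 2 * Real.exp (z + L)) z +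
    (Icc (-L) L).indicator (fun _ => (1:ℝ)) z +
    (Ioi L).indicator (fun z => Real.exp (-(z - L))) z

lemma BB_meas (c L : ℝ) : Measurable (BB c L) := by
  unfold BB
  refine ((Measurable.indicator (by fun_prop) measurableSet_Iio).add
    (measurable_const.indicator measurableSet_Icc)).add
    (Measurable.indicator (by fun_prop) measurableSet_Ioi)

lemma BB_low {c L z : ℝ} (hL : 0 ≤ L) (h : z < -L) : BB c L z = c + 2 * Real.exp (z + L) := by
  unfold BB
  rw [indicator_of_mem (show z ∈ Iio (-L) from h),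
    indicator_of_notMem (show z ∉ Icc (-L) L from fun h1 => by linarith [h1.1]),
    indicator_of_notMem (show z ∉ Ioi L from fun h1 => by
      have : L < z := h1
      linarith)]
  ring

lemma BB_mid {c L z : ℝ} (h1 : -L ≤ z) (h2 : z ≤ L) : BB c L z = 1 := by
  unfold BB
  rw [indicator_of_notMem (show z ∉ Iio (-L) from not_lt.mpr h1),
    indicator_of_mem (show z ∈ Icc (-L) L from ⟨h1, h2⟩),
    indicator_of_notMem (show z ∉ Ioi L from not_lt.mpr h2)]
  ring

lemma BB_high {c L z : ℝ} (hL : 0 ≤ L) (h : L < z) : BB c L z = Real.exp (-(z - L)) := by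
  unfold BB
  rw [indicator_of_notMem (show z ∉ Iio (-L) from fun h1 => by
      have : z < -L := h1
      linarith),
    indicator_of_notMem (show z ∉ Icc (-L) L from fun h1 => by linarith [h1.2]),
    indicator_of_mem (show z ∈ Ioi L from h) (fun z => Real.exp (-(z - L)))]
  ring

lemma Mb_high {L z : ℝ} (hL : 0 ≤ L) (h : L < z) : Mb L z = Real.exp (-(z - L)) := by
  unfold Mb
  rw [indicator_of_notMem (show z ∉ Iio 0 from fun h1 => by
      have : z < 0 := h1
      linarith),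
    indicator_of_notMem (show z ∉ Icc 0 L from fun h1 => by linarith [h1.2]),
    indicator_of_mem (show z ∈ Ioi L from h) (fun z => Real.exp (-(z - L)))]
  ring

/-- the pointwise bound -/
lemma InCycle.point (h : InCycle τ n i t) (hτ : 0 < τ) (hτ1 : τ ≤ 1 / 2) (p : ℝ × ℝ) :
    |uu τ n t p.1 p.2 - {p : ℝ × ℝ | 1 < p.1 ^ 2 + p.2 ^ 2}.indicator (fun _ => (1:ℝ)) p| ≤
      BB (τ ^ 4 + ka τ) (LL τ) ((√(p.1 ^ 2 + p.2 ^ 2 + (τ ^ 2) ^ 2) - 1) / τ ^ 2) := by
  have hτ1' : τ ≤ 1 := by linarith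
  have hε : 0 < τ ^ 2 := by positivity
  have hL := LL_ge_one hτ hτ1
  have huu : uu τ n t p.1 p.2 =
      NN (WW τ n t ((√(p.1 ^ 2 + p.2 ^ 2 + (τ ^ 2) ^ 2) - 1) / τ ^ 2)) := rfl
  rw [huu]
  set z := (√(p.1 ^ 2 + p.2 ^ 2 + (τ ^ 2) ^ 2) - 1) / τ ^ 2 with hz
  have hW := WW_pos hτ n t z
  obtain ⟨n0, n1, n2, n3⟩ := NN_facts hW
  rcases le_or_gt (p.1 ^ 2 + p.2 ^ 2) 1 with h1 | h1
  · rw [indicator_of_notMem (show p ∉ {p : ℝ × ℝ | 1 < p.1 ^ 2 + p.2 ^ 2} from not_lt.mpr h1),
      sub_zero, abs_of_pos n0]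
    have hz1 : z ≤ 1 := by
      rw [hz, div_le_one hε]
      have : √(p.1 ^ 2 + p.2 ^ 2 + (τ ^ 2) ^ 2) ≤ 1 + τ ^ 2 := by
        rw [Real.sqrt_le_left (by positivity)]
        nlinarith
      linarith
    rcases lt_or_ge z (-(LL τ)) with h2 | h2
    · rw [BB_low (by linarith) h2]
      exact n1.trans (h.WW_small hτ hτ1 z)
    · rw [BB_mid h2 (by linarith)]
      exact n2
  · rw [indicator_of_mem (show p ∈ {p : ℝ × ℝ | 1 < p.1 ^ 2 + p.2 ^ 2} from h1)]
    rw [abs_sub_comm, abs_of_nonneg (by linarith)]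
    have hz0 : 0 ≤ z := by
      rw [hz]
      apply div_nonneg _ hε.le
      have : 1 ≤ √(p.1 ^ 2 + p.2 ^ 2 + (τ ^ 2) ^ 2) := by
        rw [Real.one_le_sqrt]
        nlinarith [sq_nonneg (τ ^ 2)]
      linarith
    rcases le_or_gt z (LL τ) with h2 | h2
    · rw [BB_mid (by linarith) h2]
      linarith
    · rw [BB_high (by linarith) h2, ← Mb_high (by linarith) h2]
      exact n3.trans (h.q_le hτ hτ1' z)

end


/-! ### the radial integral -/

lemma int_low (a L : ℝ) :
    ∫⁻ z in Ioo a (-L), ENNReal.ofReal (Real.exp (z + L)) ≤ 1 := by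
  have h1 : ∫⁻ z in Ioo a (-L), ENNReal.ofReal (Real.exp (z + L)) ≤
      ∫⁻ z in Iic (-L), ENNReal.ofReal (Real.exp (z + L)) :=
    lintegral_mono_set (fun z hz => hz.2.le)
  refine h1.trans ?_
  have e1 : (fun z : ℝ => Real.exp (z + L)) = fun z => Real.exp L * Real.exp z := by
    funext z; rw [Real.exp_add, mul_comm]
  have hint : IntegrableOn (fun z : ℝ => Real.exp (z + L)) (Iic (-L)) := by
    rw [e1]
    exact (integrableOn_exp_Iic (-L)).const_mul _
  rw [← ofReal_integral_eq_lintegral_ofReal hint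
    (Eventually.of_forall fun z => (Real.exp_pos _).le)]
  have e2 : ∫ z in Iic (-L), Real.exp (z + L) = 1 := by
    rw [e1, integral_const_mul, integral_exp_Iic, ← Real.exp_add]
    simp
  rw [e2]
  simp

lemma int_high (L : ℝ) :
    ∫⁻ z in Ioi L, ENNReal.ofReal (Real.exp (-(z - L) / 2)) ≤ 2 := by
  have e1 : (fun z : ℝ => Real.exp (-(z - L) / 2)) =
      fun z => Real.exp (L / 2) * Real.exp (-(1 / 2) * z) := by
    funext z; rw [← Real.exp_add]; congr 1; ring
  have hint : IntegrableOn (fun z : ℝ => Real.exp (-(z - L) / 2)) (Ioi L) := by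
    rw [e1]
    exact (integrableOn_exp_mul_Ioi (by norm_num) L).const_mul _
  rw [← ofReal_integral_eq_lintegral_ofReal hint
    (Eventually.of_forall fun z => (Real.exp_pos _).le)]
  have e2 : ∫ z in Ioi L, Real.exp (-(z - L) / 2) = 2 := by
    rw [e1, integral_const_mul, integral_exp_mul_Ioi (by norm_num)]
    have : Real.exp (L / 2) * Real.exp (-(1 / 2) * L) = 1 := by
      rw [← Real.exp_add]
      have : L / 2 + -(1 / 2) * L = 0 := by ring
      rw [this, Real.exp_zero]
    calc Real.exp (L / 2) * (-Real.exp (-(1 / 2) * L) / -(1 / 2)) =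
        2 * (Real.exp (L / 2) * Real.exp (-(1 / 2) * L)) := by ring
      _ = 2 := by rw [this]; ring
  rw [e2]
  simp

lemma int_BB {ε c L : ℝ} (hε : 0 < ε) (hc : 0 ≤ c) (hL : 0 ≤ L) (hεL : ε * L ≤ 1 - ε) :
    ∫⁻ z in Ioi (1 - 1 / ε), ENNReal.ofReal (2 * Real.pi * ε * (1 + ε * z)) *
      ENNReal.ofReal (BB c L z) ≤
      ENNReal.ofReal (2 * Real.pi * (c + 2 * ε) + 2 * Real.pi * ε * (1 + ε * L) * (2 * L) +
        2 * Real.pi * ε * (1 + ε * L + 2 * ε) * 2) := by
  have hpi := Real.pi_pos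
  have haL : 1 - 1 / ε ≤ -L := by
    rw [sub_le_iff_le_add, ← sub_le_iff_le_add', sub_neg_eq_add, le_div_iff₀ hε]
    nlinarith
  set a := 1 - 1 / ε with ha
  have key : ∀ z : ℝ, a < z → ENNReal.ofReal (2 * Real.pi * ε * (1 + ε * z)) *
      ENNReal.ofReal (BB c L z) ≤
      (Ioo a (-L)).indicator (fun z => ENNReal.ofReal (2 * Real.pi * ε) *
        (ENNReal.ofReal c + 2 * ENNReal.ofReal (Real.exp (z + L)))) z +
      (Icc (-L) L).indicator (fun _ => ENNReal.ofReal (2 * Real.pi * ε * (1 + ε * L))) z +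
      (Ioi L).indicator (fun z => ENNReal.ofReal (2 * Real.pi * ε * (1 + ε * L + 2 * ε)) *
        ENNReal.ofReal (Real.exp (-(z - L) / 2))) z := by
    intro z hz
    have hz0 : 0 < 1 + ε * z := by
      have h1 : (1 - 1 / ε) * ε < z * ε := mul_lt_mul_of_pos_right hz hε
      rw [sub_mul, div_mul_cancel₀ _ hε.ne'] at h1
      linarith
    rcases lt_or_ge z (-L) with h1 | h1
    · rw [indicator_of_mem (show z ∈ Ioo a (-L) from ⟨hz, h1⟩), BB_low hL h1]
      have h2 : ENNReal.ofReal (c + 2 * Real.exp (z + L)) =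
          ENNReal.ofReal c + 2 * ENNReal.ofReal (Real.exp (z + L)) := by
        rw [ENNReal.ofReal_add hc (by positivity), ENNReal.ofReal_mul (by norm_num)]
        norm_num
      rw [h2, add_assoc]
      refine le_trans ?_ (le_add_of_nonneg_right zero_le)
      have : 0 < 2 * Real.pi * ε := by positivity
      have h3 : 1 + ε * z ≤ 1 := by nlinarith
      have h4 : 2 * Real.pi * ε * (1 + ε * z) ≤ 2 * Real.pi * ε := by nlinarith
      exact mul_le_mul_left (ENNReal.ofReal_le_ofReal h4) _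
    · rcases le_or_gt z L with h2 | h2
      · rw [indicator_of_mem (show z ∈ Icc (-L) L from ⟨h1, h2⟩), BB_mid h1 h2]
        rw [ENNReal.ofReal_one, mul_one]
        refine le_trans ?_ (le_add_of_nonneg_right zero_le)
        refine le_trans ?_ (le_add_of_nonneg_left zero_le)
        apply ENNReal.ofReal_le_ofReal
        have : 0 < 2 * Real.pi * ε := by positivity
        have h3 : 1 + ε * z ≤ 1 + ε * L := by nlinarith
        exact mul_le_mul_of_nonneg_left h3 this.le
      · rw [indicator_of_mem (show z ∈ Ioi L from h2) (fun z =>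
          ENNReal.ofReal (2 * Real.pi * ε * (1 + ε * L + 2 * ε)) *
          ENNReal.ofReal (Real.exp (-(z - L) / 2))), BB_high hL h2]
        refine le_trans ?_ (le_add_of_nonneg_left zero_le)
        rw [← ENNReal.ofReal_mul (by positivity), ← ENNReal.ofReal_mul (by positivity)]
        apply ENNReal.ofReal_le_ofReal
        have h3 : 0 < 2 * Real.pi * ε := by positivity
        set y := (z - L) / 2 with hy
        have hy0 : 0 < y := by rw [hy]; linarith
        have e1 : Real.exp (-(z - L)) = Real.exp (-y) * Real.exp (-y) := by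
          rw [← Real.exp_add]; congr 1; rw [hy]; ring
        have e2 : Real.exp (-(z - L) / 2) = Real.exp (-y) := by
          congr 1; rw [hy]; ring
        have e3 : 1 + ε * z = (1 + ε * L) + 2 * ε * y := by rw [hy]; ring
        rw [e1, e2, e3]
        have h4 : Real.exp (-y) ≤ 1 := Real.exp_le_one_iff.mpr (by linarith)
        have h5 : 0 < Real.exp (-y) := Real.exp_pos _
        have h6 : y * Real.exp (-y) ≤ 1 := by
          have h7 : y ≤ Real.exp y := by linarith [Real.add_one_le_exp y]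
          calc y * Real.exp (-y) ≤ Real.exp y * Real.exp (-y) :=
                mul_le_mul_of_nonneg_right h7 h5.le
            _ = 1 := by rw [← Real.exp_add]; simp
        have h8 : ((1 + ε * L) + 2 * ε * y) * Real.exp (-y) ≤ 1 + ε * L + 2 * ε := by
          have h9 : (1 + ε * L) * Real.exp (-y) ≤ 1 + ε * L := by
            have : 0 ≤ 1 + ε * L := by positivity
            nlinarith
          nlinarith
        calc 2 * Real.pi * ε * ((1 + ε * L) + 2 * ε * y) * (Real.exp (-y) * Real.exp (-y))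
            = 2 * Real.pi * ε * ((((1 + ε * L) + 2 * ε * y) * Real.exp (-y)) * Real.exp (-y)) := by
              ring
          _ ≤ 2 * Real.pi * ε * ((1 + ε * L + 2 * ε) * Real.exp (-y)) := by
              apply mul_le_mul_of_nonneg_left _ h3.le
              exact mul_le_mul_of_nonneg_right h8 h5.le
          _ = _ := by ring
  have step : ∫⁻ z in Ioi a, ENNReal.ofReal (2 * Real.pi * ε * (1 + ε * z)) *
      ENNReal.ofReal (BB c L z) ≤
      ∫⁻ z, ((Ioo a (-L)).indicator (fun z => ENNReal.ofReal (2 * Real.pi * ε) *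
        (ENNReal.ofReal c + 2 * ENNReal.ofReal (Real.exp (z + L)))) z +
      (Icc (-L) L).indicator (fun _ => ENNReal.ofReal (2 * Real.pi * ε * (1 + ε * L))) z +
      (Ioi L).indicator (fun z => ENNReal.ofReal (2 * Real.pi * ε * (1 + ε * L + 2 * ε)) *
        ENNReal.ofReal (Real.exp (-(z - L) / 2))) z) :=
    (setLIntegral_mono_ae' measurableSet_Ioi (Eventually.of_forall fun z hz => key z hz)).trans
      (setLIntegral_le_lintegral _ _)
  refine step.trans ?_
  rw [lintegral_add_left, lintegral_add_left, lintegral_indicator measurableSet_Ioo,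
    lintegral_indicator measurableSet_Icc, lintegral_indicator measurableSet_Ioi]
  · rw [lintegral_const_mul _ (by fun_prop), lintegral_const_mul _ (by fun_prop),
      lintegral_const, lintegral_add_left (by fun_prop), lintegral_const,
      lintegral_const_mul _ (by fun_prop), Measure.restrict_apply_univ,
      Measure.restrict_apply_univ, Real.volume_Ioo, Real.volume_Icc]
    have b1 := int_low a L
    have b2 := int_high L
    have hA : ENNReal.ofReal (2 * Real.pi * ε) *
        (ENNReal.ofReal c * ENNReal.ofReal (-L - a) +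
          2 * ∫⁻ z in Ioo a (-L), ENNReal.ofReal (Real.exp (z + L))) ≤
        ENNReal.ofReal (2 * Real.pi * (c + 2 * ε)) := by
      have h1 : ENNReal.ofReal c * ENNReal.ofReal (-L - a) +
          2 * ∫⁻ z in Ioo a (-L), ENNReal.ofReal (Real.exp (z + L)) ≤
          ENNReal.ofReal (c / ε + 2) := by
        rw [ENNReal.ofReal_add (by positivity) (by norm_num), div_eq_mul_one_div,
          ENNReal.ofReal_mul hc]
        gcongr
        · rw [ha]; linarith
        · calc 2 * ∫⁻ z in Ioo a (-L), ENNReal.ofReal (Real.exp (z + L)) ≤ 2 * 1 := by gcongr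
            _ = ENNReal.ofReal 2 := by norm_num
      calc _ ≤ ENNReal.ofReal (2 * Real.pi * ε) * ENNReal.ofReal (c / ε + 2) := by gcongr
        _ = ENNReal.ofReal (2 * Real.pi * (c + 2 * ε)) := by
          rw [← ENNReal.ofReal_mul (by positivity)]
          congr 1
          field_simp
    have hB : ENNReal.ofReal (2 * Real.pi * ε * (1 + ε * L)) * ENNReal.ofReal (L - -L) ≤
        ENNReal.ofReal (2 * Real.pi * ε * (1 + ε * L) * (2 * L)) := by
      rw [← ENNReal.ofReal_mul (by positivity)]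
      apply ENNReal.ofReal_le_ofReal
      apply le_of_eq
      ring
    have hC : ENNReal.ofReal (2 * Real.pi * ε * (1 + ε * L + 2 * ε)) *
        ∫⁻ z in Ioi L, ENNReal.ofReal (Real.exp (-(z - L) / 2)) ≤
        ENNReal.ofReal (2 * Real.pi * ε * (1 + ε * L + 2 * ε) * 2) := by
      rw [ENNReal.ofReal_mul (p := 2 * Real.pi * ε * (1 + ε * L + 2 * ε)) (by positivity)]
      refine mul_le_mul_right (b2.trans (le_of_eq ?_)) _
      norm_num
    rw [ENNReal.ofReal_add (by positivity) (by positivity),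
      ENNReal.ofReal_add (by positivity) (by positivity)]
    exact add_le_add (add_le_add hA hB) hC
  · exact Measurable.indicator (by fun_prop) measurableSet_Ioo
  · exact (Measurable.indicator (by fun_prop) measurableSet_Ioo).add
      (measurable_const.indicator measurableSet_Icc)

lemma ka_le {τ : ℝ} (hτ : 0 < τ) : ka τ ≤ 2 * τ := by
  unfold ka
  have h1 : 1 / (2 * τ) ≤ Real.exp (1 / (2 * τ)) := by
    linarith [Real.add_one_le_exp (1 / (2 * τ))]
  rw [Real.exp_neg, inv_le_comm₀ (Real.exp_pos _) (by positivity)]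
  rwa [← one_div]

theorem l1_bound {τ : ℝ} (hτ : 0 < τ) (hτ1 : τ ≤ 1 / 2) {n i : ℕ} {t : ℝ}
    (h : InCycle τ n i t) :
    ∫⁻ p : ℝ × ℝ, ENNReal.ofReal |uu τ n t p.1 p.2 -
      {p : ℝ × ℝ | 1 < p.1 ^ 2 + p.2 ^ 2}.indicator (fun _ => (1:ℝ)) p| ≤
      ENNReal.ofReal (1000 * τ) := by
  have hε : 0 < τ ^ 2 := by positivity
  have hL := LL_ge_one hτ hτ1
  have hk := ka_pos (τ := τ)
  have h1 : ∫⁻ p : ℝ × ℝ, ENNReal.ofReal |uu τ n t p.1 p.2 -
      {p : ℝ × ℝ | 1 < p.1 ^ 2 + p.2 ^ 2}.indicator (fun _ => (1:ℝ)) p| ≤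
      ∫⁻ p : ℝ × ℝ, ENNReal.ofReal (BB (τ ^ 4 + ka τ) (LL τ)
        ((√(p.1 ^ 2 + p.2 ^ 2 + (τ ^ 2) ^ 2) - 1) / τ ^ 2)) :=
    lintegral_mono fun p => ENNReal.ofReal_le_ofReal (h.point hτ hτ1 p)
  refine h1.trans ?_
  rw [lintegral_plane (τ ^ 2) hε (fun z => ENNReal.ofReal (BB (τ ^ 4 + ka τ) (LL τ) z))
    (BB_meas _ _).ennreal_ofReal]
  have hεL : τ ^ 2 * LL τ = τ / 2 := by
    unfold LL; field_simp
  have hc : 0 ≤ τ ^ 4 + ka τ := by positivity
  refine (int_BB hε hc (by linarith) (by rw [hεL]; nlinarith)).trans ?_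
  apply ENNReal.ofReal_le_ofReal
  rw [hεL]
  have h2 : τ ^ 2 * (1 + τ / 2) * (2 * LL τ) = τ * (1 + τ / 2) := by
    unfold LL; field_simp
  have h3 : 2 * Real.pi * τ ^ 2 * (1 + τ / 2) * (2 * LL τ) = 2 * Real.pi * (τ * (1 + τ / 2)) := by
    rw [← h2]; ring
  rw [h3]
  have hka := ka_le hτ
  have hpi := Real.pi_pos
  have hpi4 := Real.pi_le_four
  have t2 : τ ^ 2 ≤ τ / 2 := by nlinarith
  have t4 : τ ^ 4 ≤ τ / 8 := by
    have : τ ^ 4 = τ ^ 2 * τ ^ 2 := by ring
    nlinarith
  have s1 : τ ^ 4 + ka τ + 2 * τ ^ 2 ≤ 4 * τ := by linarith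
  have s2 : τ * (1 + τ / 2) ≤ 2 * τ := by nlinarith
  have s3 : τ ^ 2 * (1 + τ / 2 + 2 * τ ^ 2) * 2 ≤ 4 * τ := by
    have : 1 + τ / 2 + 2 * τ ^ 2 ≤ 2 := by nlinarith
    have h0 : 0 ≤ 1 + τ / 2 + 2 * τ ^ 2 := by positivity
    nlinarith
  calc 2 * Real.pi * (τ ^ 4 + ka τ + 2 * τ ^ 2) + 2 * Real.pi * (τ * (1 + τ / 2)) +
        2 * Real.pi * τ ^ 2 * (1 + τ / 2 + 2 * τ ^ 2) * 2
      = 2 * Real.pi * ((τ ^ 4 + ka τ + 2 * τ ^ 2) + τ * (1 + τ / 2) +
        τ ^ 2 * (1 + τ / 2 + 2 * τ ^ 2) * 2) := by ring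
    _ ≤ 2 * Real.pi * (4 * τ + 2 * τ + 4 * τ) := by
        apply mul_le_mul_of_nonneg_left _ (by positivity)
        linarith
    _ ≤ 1000 * τ := by nlinarith

end Pool.Agent.Helper50.Ctrl
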