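import Pool.Agent.Helper50.Ctrl.PdeDefs

set_option autoImplicit false

namespace Pool.Agent.Helper50.Ctrl

open MeasureTheory Set Filter Topology

noncomputable def cN (w : ℝ) : ℝ := (1 + w ^ 100) ^ (-(1 / 100) : ℝ)

lemma q_pos (w : ℝ) : 0 < 1 + w ^ 100 := by
  have : 0 ≤ w ^ 100 := Even.pow_nonneg (by decide) w
  linarith

lemma cN_pos (w : ℝ) : 0 < cN w := Real.rpow_pos_of_pos (q_pos w) _

lemma cN_pow (w : ℝ) : cN w ^ 100 = 1 / (1 + w ^ 100) := by
  unfold cN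
  rw [← Real.rpow_natCast, ← Real.rpow_mul (q_pos w).le]
  norm_num [Real.rpow_neg_one]

lemma cN_deriv (w : ℝ) : HasDerivAt cN (-(w ^ 99 * cN w / (1 + w ^ 100))) w := by
  have h1 : HasDerivAt (fun w : ℝ => 1 + w ^ 100) (100 * w ^ 99) w := by
    simpa using (hasDerivAt_pow 100 w).const_add 1
  have h2 := h1.rpow_const (p := (-(1 / 100) : ℝ)) (Or.inl (q_pos w).ne')
  have h3 : HasDerivAt cN (100 * w ^ 99 * (-(1 / 100) : ℝ)
      * (1 + w ^ 100) ^ ((-(1 / 100) : ℝ) - 1)) w := h2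
  refine h3.congr_deriv ?_
  unfold cN
  rw [Real.rpow_sub (q_pos w), Real.rpow_one]
  ring

lemma cN_cont : Continuous cN := continuous_iff_continuousAt.mpr fun w => (cN_deriv w).continuousAt

noncomputable def N1 (w : ℝ) : ℝ := cN w / (1 + w ^ 100)
noncomputable def N2 (w : ℝ) : ℝ := -(101 * w ^ 99 * cN w / (1 + w ^ 100) ^ 2)

lemma NN_deriv (w : ℝ) : HasDerivAt NN (N1 w) w := by
  have h1 : HasDerivAt (fun w => w * cN w) (1 * cN w + w * (-(w ^ 99 * cN w / (1 + w ^ 100)))) w :=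
    (hasDerivAt_id w).mul (cN_deriv w)
  have h2 : HasDerivAt NN (1 * cN w + w * (-(w ^ 99 * cN w / (1 + w ^ 100)))) w := h1
  refine h2.congr_deriv ?_
  unfold N1
  have hq := q_pos w
  have e : w ^ 100 = w ^ 99 * w := pow_succ _ _
  rw [e] at hq ⊢
  generalize w ^ 99 = B at hq ⊢
  have hq' : 1 + B * w ≠ 0 := hq.ne'
  rw [eq_div_iff hq']
  have e2 : B * cN w / (1 + B * w) * (1 + B * w) = B * cN w := div_mul_cancel₀ _ hq'
  linear_combination (-w) * e2

lemma N1_deriv (w : ℝ) : HasDerivAt N1 (N2 w) w := by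
  have h1 : HasDerivAt (fun w : ℝ => 1 + w ^ 100) (100 * w ^ 99) w := by
    simpa using (hasDerivAt_pow 100 w).const_add 1
  have h2 := (cN_deriv w).div h1 (q_pos w).ne'
  have h3 : HasDerivAt N1 ((-(w ^ 99 * cN w / (1 + w ^ 100)) * (1 + w ^ 100) -
      cN w * (100 * w ^ 99)) / (1 + w ^ 100) ^ 2) w := h2
  refine h3.congr_deriv ?_
  unfold N2
  have hq := q_pos w
  generalize 1 + w ^ 100 = q at hq ⊢
  field_simp
  ring

lemma q_cont : Continuous fun w : ℝ => 1 + w ^ 100 := by fun_prop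

lemma NN_cont : Continuous NN := continuous_iff_continuousAt.mpr fun w => (NN_deriv w).continuousAt
lemma N1_cont : Continuous N1 := continuous_iff_continuousAt.mpr fun w => (N1_deriv w).continuousAt
lemma N2_cont : Continuous N2 := by
  unfold N2
  have h1 : Continuous fun w : ℝ => 101 * w ^ 99 * cN w := by
    have := cN_cont
    fun_prop
  exact (h1.div (q_cont.pow 2) fun w => (pow_pos (q_pos w) 2).ne').neg

/-! ### one spatial variable -/

section one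
variable {τ : ℝ} (n : ℕ) (t c : ℝ)

noncomputable def zc (c s : ℝ) : ℝ := √(s ^ 2 + c)
noncomputable def zz (τ c s : ℝ) : ℝ := (zc c s - 1) / τ ^ 2

lemma zc_pos {c : ℝ} (hc : 0 < c) (s : ℝ) : 0 < zc c s :=
  Real.sqrt_pos.mpr (by positivity)

lemma zc_sq {c : ℝ} (hc : 0 < c) (s : ℝ) : zc c s ^ 2 = s ^ 2 + c :=
  Real.sq_sqrt (by positivity)

lemma zc_deriv {c : ℝ} (hc : 0 < c) (s : ℝ) : HasDerivAt (zc c) (s / zc c s) s := by
  have h1 : HasDerivAt (fun s : ℝ => s ^ 2 + c) (2 * s) s := by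
    simpa using (hasDerivAt_pow 2 s).add_const c
  have h2 := h1.sqrt (by positivity)
  have h3 : HasDerivAt (zc c) (2 * s / (2 * √(s ^ 2 + c))) s := h2
  refine h3.congr_deriv ?_
  unfold zc
  have := zc_pos hc s
  unfold zc at this
  field_simp

lemma zz_deriv {c : ℝ} (hc : 0 < c) (s : ℝ) :
    HasDerivAt (zz τ c) (s / zc c s / τ ^ 2) s :=
  ((zc_deriv hc s).sub_const 1).div_const _

noncomputable def D1 (τ : ℝ) (n : ℕ) (t c s : ℝ) : ℝ :=
  N1 (WW τ n t (zz τ c s)) * (EE τ n t (zz τ c s) * (s / zc c s / τ ^ 2))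

noncomputable def D2 (τ : ℝ) (n : ℕ) (t c s : ℝ) : ℝ :=
  N2 (WW τ n t (zz τ c s)) * (EE τ n t (zz τ c s) * (s / zc c s / τ ^ 2)) ^ 2 +
  N1 (WW τ n t (zz τ c s)) *
    ((EE τ n t (zz τ c s) - PI τ n t (zz τ c s)) * (s / zc c s / τ ^ 2) ^ 2 +
      EE τ n t (zz τ c s) * ((zc c s ^ 2 - s ^ 2) / zc c s ^ 3 / τ ^ 2))

lemma D1_ok {c : ℝ} (hc : 0 < c) (s : ℝ) :
    HasDerivAt (fun s => NN (WW τ n t (zz τ c s))) (D1 τ n t c s) s := by
  have h1 := HasDerivAt.comp s (WW_z (τ := τ) n t (zz τ c s)) (zz_deriv (τ := τ) hc s)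
  have h2 := HasDerivAt.comp s (NN_deriv (WW τ n t (zz τ c s))) h1
  exact h2

lemma D2_ok {c : ℝ} (hc : 0 < c) (s : ℝ) :
    HasDerivAt (fun s => D1 τ n t c s) (D2 τ n t c s) s := by
  have h1 := HasDerivAt.comp s (WW_z (τ := τ) n t (zz τ c s)) (zz_deriv (τ := τ) hc s)
  have h2 := HasDerivAt.comp s (N1_deriv (WW τ n t (zz τ c s))) h1
  have h3 := HasDerivAt.comp s (EE_z (τ := τ) n t (zz τ c s)) (zz_deriv (τ := τ) hc s)
  have h4 : HasDerivAt (fun s => s / zc c s / τ ^ 2)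
      ((zc c s ^ 2 - s ^ 2) / zc c s ^ 3 / τ ^ 2) s := by
    have h5 := ((hasDerivAt_id s).div (zc_deriv hc s) (zc_pos hc s).ne').div_const (τ ^ 2)
    refine h5.congr_deriv ?_
    have := zc_pos hc s
    simp only [id]
    field_simp
  have h6 := h2.mul (h3.mul h4)
  have h7 : HasDerivAt (fun s => D1 τ n t c s) _ s := h6
  refine h7.congr_deriv ?_
  unfold D2
  simp only [Function.comp, Pi.mul_apply]
  ring

end one

variable {τ : ℝ}

lemma pde_algebra {ε ζ W E P K D B c q r : ℝ} (hε : 0 < ε) (hζ : 0 < ζ) (hW : 0 < W)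
    (hq : 0 < q) (hqD : q = 1 + D) (hB : B * W = D) (hr : r = ζ ^ 2 - ε ^ 2) :
    c / q * ((1 / ε) * (E - P - W / 2) - K) =
      W * c * (1 - D / q) * (101 * (D / q) - 1 / 2) / ε +
      ε * (-(101 * B * c / q ^ 2) * (E ^ 2 * (r / (ζ ^ 2 * ε ^ 2))) +
        c / q * ((E - P) * (r / (ζ ^ 2 * ε ^ 2)) + E * ((2 * ζ ^ 2 - r) / ζ ^ 3 / ε))) -
      (1 / (W * q) * (E * (1 / ζ - ε / ζ ^ 2 + ε ^ 2 / ζ ^ 3) + ε / ζ ^ 2 * P + K) +
        101 / ε * (D / q ^ 2) * (1 - (1 - ε ^ 2 / ζ ^ 2) * (E / W) ^ 2)) * (W * c) := by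
  subst hr
  have hB' : B = D / W := by field_simp; linarith
  rw [hB']
  have hD : D = q - 1 := by linarith
  rw [hD]
  field_simp
  ring

theorem isSolution_uu {τ : ℝ} (hτ : 0 < τ) (n : ℕ) (T : ℝ) :
    IsSolution fm (τ ^ 2) T (uu τ n) (aa τ n) := by
  have hε : 0 < τ ^ 2 := by positivity
  have hcx : ∀ y : ℝ, 0 < y ^ 2 + (τ ^ 2) ^ 2 := fun y => by positivity
  have ex : ∀ x y : ℝ, zt (τ ^ 2) x y = zc (y ^ 2 + (τ ^ 2) ^ 2) x := by
    intro x y
    unfold zt zc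
    rw [add_assoc]
  have ey : ∀ x y : ℝ, zt (τ ^ 2) x y = zc (x ^ 2 + (τ ^ 2) ^ 2) y := by
    intro x y
    unfold zt zc
    congr 1
    ring
  have hzt : ∀ x y : ℝ, 0 < zt (τ ^ 2) x y := by
    intro x y
    rw [ex]
    exact zc_pos (hcx y) x
  have hztε : ∀ x y : ℝ, τ ^ 2 ≤ zt (τ ^ 2) x y := by
    intro x y
    unfold zt
    apply Real.le_sqrt_of_sq_le
    nlinarith [sq_nonneg x, sq_nonneg y]
  have cz : Continuous fun p : ℝ × ℝ × ℝ => zt (τ ^ 2) p.2.1 p.2.2 := by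
    unfold zt
    fun_prop
  have czz : Continuous fun p : ℝ × ℝ × ℝ => (zt (τ ^ 2) p.2.1 p.2.2 - 1) / τ ^ 2 := by
    fun_prop
  have ct : Continuous fun p : ℝ × ℝ × ℝ => p.1 := continuous_fst
  have cx : Continuous fun p : ℝ × ℝ × ℝ => p.2.1 := by fun_prop
  have cy : Continuous fun p : ℝ × ℝ × ℝ => p.2.2 := by fun_prop
  have cW := cont_WW hτ n ct czz
  have cE := cont_EE hτ n ct czz
  have cP := cont_PI hτ n ct czz
  have cK := cont_KK hτ n ct czz
  have hN0 : ∀ w : ℝ, 0 < w → 0 < NN w := fun w hw => mul_pos hw (cN_pos w)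
  have hN1 : ∀ w : ℝ, 0 < w → NN w ≤ 1 := by
    intro w hw
    have h1 : NN w ^ 100 ≤ 1 := by
      have e : NN w = w * cN w := rfl
      rw [e, mul_pow, cN_pow, mul_one_div, div_le_one (q_pos w)]
      linarith
    by_contra h
    push Not at h
    have := one_lt_pow₀ h (show (100:ℕ) ≠ 0 by norm_num)
    linarith
  refine ⟨?_, ?_, ?_, ?_⟩
  · intro t x y
    have hW := WW_pos hτ n t ((zt (τ ^ 2) x y - 1) / τ ^ 2)
    exact ⟨(hN0 _ hW).le, hN1 _ hW⟩
  · intro t x y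
    unfold aa al
    set z := (zt (τ ^ 2) x y - 1) / τ ^ 2
    have hW := WW_pos hτ n t z
    have hE := EE_pos hτ n t z
    have hEW := EE_le_WW hτ n t z
    have hP := PI_nonneg hτ n t z
    have hK := KK_nonneg hτ n t z
    have hζ := hzt x y
    have hζε := hztε x y
    have hD : 0 < WW τ n t z ^ 100 := pow_pos hW 100
    generalize WW τ n t z ^ 100 = D at hD ⊢
    generalize WW τ n t z = W at hW hEW ⊢
    generalize EE τ n t z = E at hE hEW ⊢
    generalize PI τ n t z = P at hP ⊢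
    generalize KK τ n t z = K at hK ⊢
    generalize zt (τ ^ 2) x y = ζ at hζ hζε ⊢
    generalize τ ^ 2 = ε at hε hζε ⊢
    have h1 : 0 ≤ 1 / ζ - ε / ζ ^ 2 := by
      have e : 1 / ζ - ε / ζ ^ 2 = (ζ - ε) / ζ ^ 2 := by field_simp
      rw [e]
      exact div_nonneg (by linarith) (by positivity)
    have h2 : 0 ≤ ε ^ 2 / ζ ^ 3 := by positivity
    have h3 : 0 ≤ E * (1 / ζ - ε / ζ ^ 2 + ε ^ 2 / ζ ^ 3) + ε / ζ ^ 2 * P + K := by
      have : 0 ≤ ε / ζ ^ 2 * P := by positivity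
      have : 0 ≤ E * (1 / ζ - ε / ζ ^ 2 + ε ^ 2 / ζ ^ 3) := mul_nonneg hE.le (by linarith)
      linarith
    have h4 : 0 ≤ 1 - (1 - ε ^ 2 / ζ ^ 2) * (E / W) ^ 2 := by
      have h5 : (E / W) ^ 2 ≤ 1 := by
        have h6 : E / W ≤ 1 := (div_le_one hW).mpr hEW
        have h7 : 0 ≤ E / W := by positivity
        nlinarith
      have h8 : 0 ≤ (E / W) ^ 2 := sq_nonneg _
      have h9 : 0 ≤ ε ^ 2 / ζ ^ 2 := by positivity
      nlinarith
    have h5 : 0 ≤ 1 / (W * (1 + D)) := by positivity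
    have h6 : 0 ≤ 101 / ε * (D / (1 + D) ^ 2) := by positivity
    exact add_nonneg (mul_nonneg h5 h3) (mul_nonneg h6 h4)
  · unfold aa al
    have hWne : ∀ p : ℝ × ℝ × ℝ, WW τ n p.1 ((zt (τ ^ 2) p.2.1 p.2.2 - 1) / τ ^ 2) ≠ 0 :=
      fun p => (WW_pos hτ n _ _).ne'
    have hqne : ∀ p : ℝ × ℝ × ℝ, 1 + WW τ n p.1 ((zt (τ ^ 2) p.2.1 p.2.2 - 1) / τ ^ 2) ^ 100 ≠ 0 :=
      fun p => (q_pos _).ne'
    have hzne : ∀ p : ℝ × ℝ × ℝ, zt (τ ^ 2) p.2.1 p.2.2 ≠ 0 := fun p => (hzt _ _).ne'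
    refine Continuous.add (Continuous.mul (continuous_const.div
      (cW.mul (continuous_const.add (cW.pow 100))) fun p => mul_ne_zero (hWne p) (hqne p))
      (((cE.mul (((continuous_const.div cz hzne).sub (continuous_const.div (cz.pow 2)
        fun p => pow_ne_zero 2 (hzne p))).add (continuous_const.div (cz.pow 3)
        fun p => pow_ne_zero 3 (hzne p)))).add ((continuous_const.div (cz.pow 2)
        fun p => pow_ne_zero 2 (hzne p)).mul cP)).add cK))
      ((continuous_const.mul ((cW.pow 100).div ((continuous_const.add (cW.pow 100)).pow 2)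
        fun p => pow_ne_zero 2 (hqne p))).mul (continuous_const.sub
        ((continuous_const.sub (continuous_const.div (cz.pow 2)
        fun p => pow_ne_zero 2 (hzne p))).mul ((cE.div cW hWne).pow 2))))
  · refine ⟨fun t x y => N1 (WW τ n t ((zt (τ ^ 2) x y - 1) / τ ^ 2)) *
        ((1 / τ ^ 2) * (EE τ n t ((zt (τ ^ 2) x y - 1) / τ ^ 2) -
          PI τ n t ((zt (τ ^ 2) x y - 1) / τ ^ 2) -
          WW τ n t ((zt (τ ^ 2) x y - 1) / τ ^ 2) / 2) - KK τ n t ((zt (τ ^ 2) x y - 1) / τ ^ 2)),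
      fun t x y => D1 τ n t (y ^ 2 + (τ ^ 2) ^ 2) x,
      fun t x y => D1 τ n t (x ^ 2 + (τ ^ 2) ^ 2) y,
      fun t x y => D2 τ n t (y ^ 2 + (τ ^ 2) ^ 2) x,
      fun t x y => D2 τ n t (x ^ 2 + (τ ^ 2) ^ 2) y, ?_, ?_, ?_, ?_, ?_, ?_, ?_, ?_, ?_, ?_, ?_⟩
    · intro t x y
      have h := HasDerivAt.comp t (NN_deriv (WW τ n t ((zt (τ ^ 2) x y - 1) / τ ^ 2)))
        (WW_t hτ n t ((zt (τ ^ 2) x y - 1) / τ ^ 2))
      exact h
    · intro t x y
      have h := D1_ok (τ := τ) n t (hcx y) x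
      refine h.congr_of_eventuallyEq (Eventually.of_forall fun s => ?_)
      simp only [uu, zz]
      rw [ex]
    · intro t x y
      have h := D1_ok (τ := τ) n t (hcx x) y
      refine h.congr_of_eventuallyEq (Eventually.of_forall fun s => ?_)
      simp only [uu, zz]
      rw [ey]
    · intro t x y
      exact D2_ok (τ := τ) n t (hcx y) x
    · intro t x y
      exact D2_ok (τ := τ) n t (hcx x) y
    · exact (N1_cont.comp cW).mul ((continuous_const.mul ((cE.sub cP).sub (cW.div_const 2))).sub cK)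
    · have hz : Continuous fun p : ℝ × ℝ × ℝ => zc (p.2.2 ^ 2 + (τ ^ 2) ^ 2) p.2.1 := by
        unfold zc; fun_prop
      have hzne : ∀ p : ℝ × ℝ × ℝ, zc (p.2.2 ^ 2 + (τ ^ 2) ^ 2) p.2.1 ≠ 0 :=
        fun p => (zc_pos (hcx _) _).ne'
      have hzz : Continuous fun p : ℝ × ℝ × ℝ => zz τ (p.2.2 ^ 2 + (τ ^ 2) ^ 2) p.2.1 := by
        unfold zz; fun_prop
      exact (N1_cont.comp (cont_WW hτ n ct hzz)).mul
        ((cont_EE hτ n ct hzz).mul ((cx.div hz hzne).div_const _))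
    · have hz : Continuous fun p : ℝ × ℝ × ℝ => zc (p.2.1 ^ 2 + (τ ^ 2) ^ 2) p.2.2 := by
        unfold zc; fun_prop
      have hzne : ∀ p : ℝ × ℝ × ℝ, zc (p.2.1 ^ 2 + (τ ^ 2) ^ 2) p.2.2 ≠ 0 :=
        fun p => (zc_pos (hcx _) _).ne'
      have hzz : Continuous fun p : ℝ × ℝ × ℝ => zz τ (p.2.1 ^ 2 + (τ ^ 2) ^ 2) p.2.2 := by
        unfold zz; fun_prop
      exact (N1_cont.comp (cont_WW hτ n ct hzz)).mul
        ((cont_EE hτ n ct hzz).mul ((cy.div hz hzne).div_const _))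
    · have hz : Continuous fun p : ℝ × ℝ × ℝ => zc (p.2.2 ^ 2 + (τ ^ 2) ^ 2) p.2.1 := by
        unfold zc; fun_prop
      have hzne : ∀ p : ℝ × ℝ × ℝ, zc (p.2.2 ^ 2 + (τ ^ 2) ^ 2) p.2.1 ≠ 0 :=
        fun p => (zc_pos (hcx _) _).ne'
      have hzz : Continuous fun p : ℝ × ℝ × ℝ => zz τ (p.2.2 ^ 2 + (τ ^ 2) ^ 2) p.2.1 := by
        unfold zz; fun_prop
      have hr := (cx.div hz hzne).div_const (τ ^ 2)
      have hE := cont_EE hτ n ct hzz
      exact ((N2_cont.comp (cont_WW hτ n ct hzz)).mul ((hE.mul hr).pow 2)).add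
        ((N1_cont.comp (cont_WW hτ n ct hzz)).mul
          (((hE.sub (cont_PI hτ n ct hzz)).mul (hr.pow 2)).add
            (hE.mul ((((hz.pow 2).sub (cx.pow 2)).div (hz.pow 3)
              fun p => pow_ne_zero 3 (hzne p)).div_const _))))
    · have hz : Continuous fun p : ℝ × ℝ × ℝ => zc (p.2.1 ^ 2 + (τ ^ 2) ^ 2) p.2.2 := by
        unfold zc; fun_prop
      have hzne : ∀ p : ℝ × ℝ × ℝ, zc (p.2.1 ^ 2 + (τ ^ 2) ^ 2) p.2.2 ≠ 0 :=
        fun p => (zc_pos (hcx _) _).ne'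
      have hzz : Continuous fun p : ℝ × ℝ × ℝ => zz τ (p.2.1 ^ 2 + (τ ^ 2) ^ 2) p.2.2 := by
        unfold zz; fun_prop
      have hr := (cy.div hz hzne).div_const (τ ^ 2)
      have hE := cont_EE hτ n ct hzz
      exact ((N2_cont.comp (cont_WW hτ n ct hzz)).mul ((hE.mul hr).pow 2)).add
        ((N1_cont.comp (cont_WW hτ n ct hzz)).mul
          (((hE.sub (cont_PI hτ n ct hzz)).mul (hr.pow 2)).add
            (hE.mul ((((hz.pow 2).sub (cy.pow 2)).div (hz.pow 3)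
              fun p => pow_ne_zero 3 (hzne p)).div_const _))))
    · intro t _ x y
      simp only [D2, zz]
      rw [← ex x y, ← ey x y]
      set z := (zt (τ ^ 2) x y - 1) / τ ^ 2 with hz
      have hW := WW_pos hτ n t z
      have hζ := hzt x y
      have hr : x ^ 2 + y ^ 2 = zt (τ ^ 2) x y ^ 2 - (τ ^ 2) ^ 2 := by
        unfold zt
        rw [Real.sq_sqrt (by positivity)]
        ring
      have hu : uu τ n t x y = WW τ n t z * cN (WW τ n t z) := rfl
      have ha : aa τ n t x y = al (τ ^ 2) (zt (τ ^ 2) x y) (WW τ n t z) (EE τ n t z)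
        (PI τ n t z) (KK τ n t z) := rfl
      rw [hu, ha]
      unfold fm al N1 N2
      rw [mul_pow, cN_pow, mul_one_div]
      have key := pde_algebra (ε := τ ^ 2) (ζ := zt (τ ^ 2) x y) (W := WW τ n t z)
        (E := EE τ n t z) (P := PI τ n t z) (K := KK τ n t z) (D := WW τ n t z ^ 100)
        (B := WW τ n t z ^ 99) (c := cN (WW τ n t z)) (q := 1 + WW τ n t z ^ 100)
        (r := x ^ 2 + y ^ 2) hε hζ hW (q_pos _) rfl (pow_succ _ _).symm hr
      rw [key]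
      generalize WW τ n t z ^ 100 = D
      generalize WW τ n t z ^ 99 = B
      generalize cN (WW τ n t z) = c
      generalize WW τ n t z = W
      generalize EE τ n t z = E
      generalize PI τ n t z = P
      generalize KK τ n t z = K
      generalize zt (τ ^ 2) x y = ζ at hζ
      generalize τ ^ 2 = ε at hε
      congr 2
      field_simp
      ring

end Pool.Agent.Helper50.Ctrl
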