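import Pool.Agent.Helper50.Ctrl.Defs

set_option autoImplicit false

namespace Pool.Agent.Helper50.Ctrl

open MeasureTheory Set Filter Topology
open scoped ENNReal

/-! ### The reaction term `fm` -/

lemma fm_eq (u : ℝ) : fm u = 203 / 2 * u ^ 101 - u / 2 - 101 * u ^ 201 := by
  unfold fm; ring

lemma fm_hasDerivAt (u : ℝ) :
    HasDerivAt fm (20503 / 2 * u ^ 100 - 1 / 2 - 20301 * u ^ 200) u := by
  have h1 : HasDerivAt (fun u : ℝ => 203 / 2 * u ^ 101 - u / 2 - 101 * u ^ 201)
      (203 / 2 * (((101 : ℕ) : ℝ) * u ^ (101 - 1)) - 1 / 2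
        - 101 * (((201 : ℕ) : ℝ) * u ^ (201 - 1))) u :=
    (((hasDerivAt_pow 101 u).const_mul (203 / 2)).sub ((hasDerivAt_id u).div_const 2)).sub
      ((hasDerivAt_pow 201 u).const_mul 101)
  have h2 : (fun u : ℝ => 203 / 2 * u ^ 101 - u / 2 - 101 * u ^ 201) = fm := by
    funext v; exact (fm_eq v).symm
  rw [h2] at h1
  convert h1 using 1
  norm_num
  ring

lemma fm_continuous : Continuous fm := by
  unfold fm; fun_prop

/-- Primitive of `fm`. -/
noncomputable def Fm (u : ℝ) : ℝ := 203 / 204 * u ^ 102 - u ^ 2 / 4 - u ^ 202 / 2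

lemma Fm_hasDerivAt (u : ℝ) : HasDerivAt Fm (fm u) u := by
  have h1 : HasDerivAt (fun u : ℝ => 203 / 204 * u ^ 102 - u ^ 2 / 4 - u ^ 202 / 2)
      (203 / 204 * (((102 : ℕ) : ℝ) * u ^ (102 - 1)) - (((2 : ℕ) : ℝ) * u ^ (2 - 1)) / 4
        - (((202 : ℕ) : ℝ) * u ^ (202 - 1)) / 2) u :=
    (((hasDerivAt_pow 102 u).const_mul (203 / 204)).sub ((hasDerivAt_pow 2 u).div_const 4)).sub
      ((hasDerivAt_pow 202 u).div_const 2)
  have h2 : (fun u : ℝ => 203 / 204 * u ^ 102 - u ^ 2 / 4 - u ^ 202 / 2) = Fm := by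
    funext v; rfl
  rw [h2] at h1
  convert h1 using 1
  rw [fm_eq]
  norm_num
  ring

lemma Fm_continuous : Continuous Fm := by
  unfold Fm; fun_prop

lemma Fm_one : Fm 1 = 25 / 102 := by
  unfold Fm; norm_num

lemma Fm_zero : Fm 0 = 0 := by
  unfold Fm; norm_num

lemma Fm_ge {u : ℝ} (h0 : 0 ≤ u) (h1 : u ≤ 1) : -(1 / 4) ≤ Fm u := by
  unfold Fm
  have h2 : u ^ 2 ≤ 1 := pow_le_one₀ h0 h1
  have h3 : u ^ 202 ≤ u ^ 102 := pow_le_pow_of_le_one h0 h1 (by norm_num)
  have h4 : 0 ≤ u ^ 102 := by positivity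
  linarith

theorem fm_isBistable : IsBistable fm := by
  refine ⟨?_, ?_, ?_, ?_, ?_, ?_⟩
  · unfold fm; fun_prop
  · norm_num [fm]
  · norm_num [fm]
  · rw [(fm_hasDerivAt 0).deriv]; norm_num
  · rw [(fm_hasDerivAt 1).deriv]; norm_num
  · obtain ⟨s, hs, hs'⟩ : ∃ s ∈ Ioo (0:ℝ) 1, s ^ 100 = 1 / 202 := by
      have hc : ContinuousOn (fun s : ℝ => s ^ 100) (Icc 0 1) := by fun_prop
      have := intermediate_value_Ioo (zero_le_one' ℝ) hc
      have hm : (1 / 202 : ℝ) ∈ Ioo ((fun s : ℝ => s ^ 100) 0) ((fun s : ℝ => s ^ 100) 1) := by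
        constructor <;> norm_num
      obtain ⟨s, hs, hs'⟩ := this hm
      exact ⟨s, hs, hs'⟩
    refine ⟨s, hs, ?_, ?_, ?_⟩
    · unfold fm; rw [hs']; norm_num
    · rw [(fm_hasDerivAt s).deriv]
      have : s ^ 200 = (1 / 202 : ℝ) ^ 2 := by
        rw [← hs', ← pow_mul]
      rw [this, hs']; norm_num
    · intro r hr hr0
      unfold fm at hr0
      have h1 : r ≠ 0 := ne_of_gt hr.1
      have h2 : 1 - r ^ 100 ≠ 0 := by
        have : r ^ 100 < 1 := pow_lt_one₀ hr.1.le hr.2 (by norm_num)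
        intro h'
        linarith
      have h3 : 101 * r ^ 100 - 1 / 2 = 0 := by
        rcases mul_eq_zero.1 hr0 with h | h
        · rcases mul_eq_zero.1 h with h | h
          · exact absurd h h1
          · exact absurd h h2
        · exact h
      have h4 : r ^ 100 = s ^ 100 := by rw [hs']; linarith
      exact (pow_left_inj₀ hr.1.le hs.1.le (by norm_num)).1 h4

/-! ### The explicit wave -/

noncomputable def Uw (x : ℝ) : ℝ := (1 + Real.exp (-100 * x)) ^ (-(1 / 100) : ℝ)

lemma Uw_pos (x : ℝ) : 0 < Uw x := by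
  unfold Uw
  have := Real.exp_pos (-100 * x)
  positivity

lemma Uw_le_one (x : ℝ) : Uw x ≤ 1 := by
  unfold Uw
  exact Real.rpow_le_one_of_one_le_of_nonpos (by linarith [Real.exp_pos (-100 * x)]) (by norm_num)

lemma Uw_pow (x : ℝ) : Uw x ^ 100 = (1 + Real.exp (-100 * x))⁻¹ := by
  unfold Uw
  rw [← Real.rpow_natCast, ← Real.rpow_mul (by linarith [Real.exp_pos (-100 * x)])]
  norm_num [Real.rpow_neg_one]

lemma Uw_hasDerivAt (x : ℝ) : HasDerivAt Uw (Uw x * (1 - Uw x ^ 100)) x := by
  have hw := Real.exp_pos (-100 * x)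
  have h1 : HasDerivAt (fun x : ℝ => 1 + Real.exp (-100 * x))
      (Real.exp (-100 * x) * (-100 * 1)) x :=
    (((hasDerivAt_id x).const_mul (-100)).exp).const_add 1
  have h2 := h1.rpow_const (p := (-(1 / 100) : ℝ)) (Or.inl (by positivity))
  have h3 : HasDerivAt Uw (Real.exp (-100 * x) * (-100 * 1) * (-(1 / 100) : ℝ)
      * (1 + Real.exp (-100 * x)) ^ ((-(1 / 100) : ℝ) - 1)) x := h2
  convert h3 using 1
  rw [Uw_pow]
  unfold Uw
  rw [Real.rpow_sub (by positivity), Real.rpow_one]
  field_simp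
  ring

lemma Uw_atBot : Tendsto Uw atBot (𝓝 0) := by
  have h1 : Tendsto (fun x : ℝ => 1 + Real.exp (-100 * x)) atBot atTop := by
    refine tendsto_atTop_add_const_left _ _ (Real.tendsto_exp_atTop.comp ?_)
    exact tendsto_id.const_mul_atBot_of_neg (by norm_num)
  exact (tendsto_rpow_neg_atTop (by norm_num : (0:ℝ) < 1 / 100)).comp h1

lemma Uw_atTop : Tendsto Uw atTop (𝓝 1) := by
  have h1 : Tendsto (fun x : ℝ => 1 + Real.exp (-100 * x)) atTop (𝓝 (1 + 0)) := by
    refine tendsto_const_nhds.add (Real.tendsto_exp_atBot.comp ?_)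
    exact tendsto_id.const_mul_atTop_of_neg (by norm_num)
  have h2 := h1.rpow_const (p := (-(1 / 100) : ℝ)) (Or.inl (by norm_num))
  have h3 : ((1 : ℝ) + 0) ^ (-(1 / 100) : ℝ) = 1 := by rw [add_zero, Real.one_rpow]
  rw [h3] at h2
  exact h2

theorem fm_natural_wave : ∃ U, IsWave fm (-1 / 2) (fun _ => 0) U := by
  refine ⟨Uw, fun x => ⟨(Uw_pos x).le, Uw_le_one x⟩, Uw_atBot, Uw_atTop,
    fun x => Uw x * (1 - Uw x ^ 100), Uw_hasDerivAt, ?_, ?_⟩
  · intro a b
    refine ContDiffOn.absolutelyContinuousOnInterval ?_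
    refine ContDiff.contDiffOn ?_
    have hU : ContDiff ℝ 1 Uw := by
      rw [contDiff_one_iff_deriv]
      refine ⟨fun x => (Uw_hasDerivAt x).differentiableAt, ?_⟩
      have : deriv Uw = fun x => Uw x * (1 - Uw x ^ 100) := by
        funext x; exact (Uw_hasDerivAt x).deriv
      rw [this]
      have hc : Continuous Uw := continuous_iff_continuousAt.2
        fun x => (Uw_hasDerivAt x).continuousAt
      fun_prop
    fun_prop
  · refine Filter.Eventually.of_forall fun x => ?_
    have h := Uw_hasDerivAt x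
    have h2 : HasDerivAt (fun x => Uw x * (1 - Uw x ^ 100))
        ((Uw x * (1 - Uw x ^ 100)) * (1 - Uw x ^ 100)
          + Uw x * (-(((100 : ℕ) : ℝ) * Uw x ^ (100 - 1) * (Uw x * (1 - Uw x ^ 100))))) x :=
      h.mul ((h.pow 100).const_sub 1)
    convert h2 using 1
    unfold fm
    norm_num
    ring

/-! ### The energy identity -/

lemma energy {f F : ℝ → ℝ} (hF : ∀ u, HasDerivAt F (f u) u) (hf : Continuous f)
    {β : ℝ} {α U V : ℝ → ℝ} (hU : ∀ x, HasDerivAt U (V x) x)
    (hV : ∀ a b, AbsolutelyContinuousOnInterval V a b)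
    (hV' : ∀ᵐ x, HasDerivAt V (α x * U x - β * V x - f (U x)) x) (a b : ℝ) :
    ∫ x in a..b, (α x * U x * V x - β * V x ^ 2)
      = (V b ^ 2 / 2 + F (U b)) - (V a ^ 2 / 2 + F (U a)) := by
  have hVc : Continuous V := by
    rw [continuous_iff_continuousAt]
    intro x
    have h := (hV (x - 1) (x + 1)).continuousOn
    rw [uIcc_of_le (by linarith)] at h
    exact h.continuousAt (Icc_mem_nhds (by linarith) (by linarith))
  have hUc : ContDiff ℝ 1 U := by
    rw [contDiff_one_iff_deriv]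
    refine ⟨fun x => (hU x).differentiableAt, ?_⟩
    have : deriv U = V := by funext x; exact (hU x).deriv
    rw [this]; exact hVc
  have hFc : ContDiff ℝ 1 F := by
    rw [contDiff_one_iff_deriv]
    refine ⟨fun x => (hF x).differentiableAt, ?_⟩
    have : deriv F = f := by funext x; exact (hF x).deriv
    rw [this]; exact hf
  have hE : AbsolutelyContinuousOnInterval (fun x => (1 / 2) * (V x * V x) + F (U x)) a b := by
    refine AbsolutelyContinuousOnInterval.add (((hV a b).mul (hV a b)).const_mul (1 / 2)) ?_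
    exact (ContDiff.contDiffOn (hFc.comp hUc)).absolutelyContinuousOnInterval
  have h1 := hE.integral_deriv_eq_sub
  have h2 : ∫ x in a..b, (α x * U x * V x - β * V x ^ 2)
      = ∫ x in a..b, deriv (fun x => (1 / 2) * (V x * V x) + F (U x)) x := by
    refine intervalIntegral.integral_congr_ae ?_
    filter_upwards [hV'] with x hx _
    have h3 := ((hx.mul hx).const_mul (1 / 2)).add ((hF (U x)).comp x (hU x))
    have h4 : deriv (fun x => (1 / 2) * (V x * V x) + F (U x)) x = _ := h3.deriv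
    rw [h4]
    ring
  rw [h2, h1]
  ring

lemma exists_small {U V : ℝ → ℝ} (h0 : Tendsto U atBot (𝓝 0)) (hU : ∀ x, HasDerivAt U (V x) x)
    {ε : ℝ} (hε : 0 < ε) (N : ℝ) : ∃ a ≤ N, |V a| < ε ∧ |U a| < ε := by
  have h1 : ∀ᶠ x in atBot, |U x| < ε / 2 := by
    have := (Metric.tendsto_nhds.1 h0) (ε / 2) (by positivity)
    simpa [Real.dist_eq] using this
  obtain ⟨M, hM⟩ := eventually_atBot.1 h1
  obtain ⟨ξ, hξ, hξ'⟩ := exists_hasDerivAt_eq_slope U V (a := min M N - 1) (b := min M N)
    (by linarith) (fun x _ => (hU x).continuousAt.continuousWithinAt) (fun x _ => hU x)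
  have hξM : ξ ≤ M := le_trans hξ.2.le (min_le_left _ _)
  refine ⟨ξ, le_trans hξ.2.le (min_le_right _ _), ?_, lt_of_lt_of_le (hM ξ hξM) (by linarith)⟩
  have h2 := hM (min M N) (min_le_left _ _)
  have h3 := hM (min M N - 1) (by linarith [min_le_left M N])
  rw [hξ']
  have : (min M N - (min M N - 1)) = 1 := by ring
  rw [this, div_one]
  rw [abs_lt] at h2 h3 ⊢
  constructor <;> linarith

theorem fm_natural_speed_neg {β : ℝ} {U : ℝ → ℝ} (h : IsWave fm β (fun _ => 0) U) : β < 0 := by
  obtain ⟨hU01, hbot, htop, V, hU, hV, hV'⟩ := h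
  by_contra hβ
  push Not at hβ
  have hen := energy Fm_hasDerivAt fm_continuous hU hV hV'
  -- for all b, Fm (U b) ≤ 0
  have key : ∀ b, Fm (U b) ≤ 0 := by
    intro b
    refine le_of_forall_pos_le_add fun ε hε => ?_
    have hcont : Tendsto Fm (𝓝 0) (𝓝 0) := by
      have := Fm_continuous.tendsto 0
      rwa [Fm_zero] at this
    obtain ⟨δ, hδ, hδ'⟩ := Metric.tendsto_nhds_nhds.1 hcont (ε / 2) (by positivity)
    obtain ⟨a, hab, hVa, hUa⟩ := exists_small hbot hU
      (ε := min δ (min 1 ε)) (by positivity) b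
    have h1 : |Fm (U a)| < ε / 2 := by
      have := hδ' (x := U a) (by
        rw [Real.dist_eq, sub_zero]; exact lt_of_lt_of_le hUa (min_le_left _ _))
      simpa [Real.dist_eq] using this
    have h2 : V a ^ 2 / 2 ≤ ε / 2 := by
      have h3 : |V a| < 1 := lt_of_lt_of_le hVa ((min_le_right _ _).trans (min_le_left _ _))
      have h4 : |V a| < ε := lt_of_lt_of_le hVa ((min_le_right _ _).trans (min_le_right _ _))
      have h5 : V a ^ 2 = |V a| * |V a| := by rw [← sq_abs]; ring
      have h6 : |V a| * |V a| ≤ 1 * ε := by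
        apply mul_le_mul h3.le h4.le (abs_nonneg _) (by norm_num)
      linarith
    have h7 := hen a b
    have h8 : ∫ x in a..b, ((fun _ => (0:ℝ)) x * U x * V x - β * V x ^ 2) ≤ 0 := by
      have h11 : 0 ≤ ∫ x in a..b, β * V x ^ 2 :=
        intervalIntegral.integral_nonneg_of_forall hab (fun x => by positivity)
      have h12 : ∫ x in a..b, ((fun _ => (0:ℝ)) x * U x * V x - β * V x ^ 2)
          = - ∫ x in a..b, β * V x ^ 2 := by
        rw [← intervalIntegral.integral_neg]
        congr 1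
        funext x
        ring
      rw [h12]
      linarith
    have h9 : 0 ≤ V b ^ 2 / 2 := by positivity
    have h10 := (abs_lt.1 h1).2
    linarith
  have hlim : Tendsto (fun b => Fm (U b)) atTop (𝓝 (Fm 1)) := (Fm_continuous.tendsto 1).comp htop
  have := le_of_tendsto' hlim key
  rw [Fm_one] at this
  norm_num at this

theorem effort_fm_zero_ge : ENNReal.ofReal (1 / 5) ≤ effort fm 0 := by
  unfold effort
  refine le_iInf fun α => le_iInf fun hα => le_iInf fun hα0 => le_iInf fun hw => ?_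
  obtain ⟨U, hU01, hbot, htop, V, hU, hV, hV'⟩ := hw
  by_contra hlt
  push Not at hlt
  have hen := energy Fm_hasDerivAt fm_continuous hU hV hV'
  -- integrability of the control
  have hfin : ∫⁻ x, ENNReal.ofReal (α x) < ⊤ := lt_of_lt_of_le hlt le_top
  have hint : Integrable α := by
    refine ⟨hα.aestronglyMeasurable, ?_⟩
    rw [hasFiniteIntegral_iff_ofReal (Filter.Eventually.of_forall hα0)]
    exact hfin
  have hintlt : ∫ x, α x < 1 / 5 := by
    rw [integral_eq_lintegral_of_nonneg_ae (Filter.Eventually.of_forall hα0)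
      hα.aestronglyMeasurable]
    have := (ENNReal.toReal_lt_toReal hfin.ne ENNReal.ofReal_ne_top).2 hlt
    rwa [ENNReal.toReal_ofReal (by norm_num)] at this
  have hVc : Continuous V := by
    rw [continuous_iff_continuousAt]
    intro x
    have h := (hV (x - 1) (x + 1)).continuousOn
    rw [uIcc_of_le (by linarith)] at h
    exact h.continuousAt (Icc_mem_nhds (by linarith) (by linarith))
  have hUc : Continuous U := continuous_iff_continuousAt.2 fun x => (hU x).continuousAt
  -- choose the left end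
  have hcont : Tendsto Fm (𝓝 0) (𝓝 0) := by
    have := Fm_continuous.tendsto 0
    rwa [Fm_zero] at this
  obtain ⟨δ, hδ, hδ'⟩ := Metric.tendsto_nhds_nhds.1 hcont (1 / 200) (by norm_num)
  obtain ⟨a, -, hVa, hUa⟩ := exists_small hbot hU
    (ε := min δ (1 / 100)) (by positivity) 0
  have hFa : |Fm (U a)| < 1 / 200 := by
    have := hδ' (x := U a) (by
      rw [Real.dist_eq, sub_zero]; exact lt_of_lt_of_le hUa (min_le_left _ _))
    simpa [Real.dist_eq] using this
  have hVa2 : V a ^ 2 / 2 ≤ 1 / 20000 := by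
    have h3 : |V a| < 1 / 100 := lt_of_lt_of_le hVa (min_le_right _ _)
    have h4 : V a ^ 2 ≤ (1 / 100) ^ 2 := by
      rw [← sq_abs]
      exact pow_le_pow_left₀ (abs_nonneg _) h3.le 2
    norm_num at h4 ⊢
    linarith
  -- choose the right end
  have hlim : Tendsto (fun b => Fm (U b)) atTop (𝓝 (Fm 1)) := (Fm_continuous.tendsto 1).comp htop
  have hev : ∀ᶠ b in atTop, 6 / 25 < Fm (U b) := by
    refine hlim.eventually_const_lt ?_
    rw [Fm_one]; norm_num
  obtain ⟨b, hb, hab⟩ := (hev.and (eventually_ge_atTop a)).exists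
  -- maximum of |V|
  obtain ⟨x₀, hx₀, hmax⟩ := isCompact_Icc.exists_isMaxOn (nonempty_Icc.2 hab)
    (hVc.abs.continuousOn (s := Icc a b))
  set M := |V x₀| with hM
  have hM0 : 0 ≤ M := abs_nonneg _
  have hbound : ∀ x ∈ Icc a b,
      (V x ^ 2 / 2 + Fm (U x)) - (V a ^ 2 / 2 + Fm (U a)) ≤ M * (1 / 5) := by
    intro x hx
    rw [← hen a x]
    have h1 : ∫ y in a..x, (α y * U y * V y - 0 * V y ^ 2) ≤ ∫ y in a..x, M * α y := by
      refine intervalIntegral.integral_mono_on hx.1 ?_ ?_ ?_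
      · have h2 : IntervalIntegrable (fun y => α y * (U y * V y)) volume a x :=
          (hint.intervalIntegrable).mul_continuousOn (hUc.mul hVc).continuousOn
        refine h2.congr ?_
        intro y _
        simp only
        ring
      · exact hint.intervalIntegrable.const_mul M
      · intro y hy
        have hy' : y ∈ Icc a b := ⟨hy.1, hy.2.trans hx.2⟩
        have h3 : |V y| ≤ M := hmax hy'
        have h4 : U y * V y ≤ M := by
          have h5 : U y * V y ≤ U y * |V y| := mul_le_mul_of_nonneg_left (le_abs_self _) (hU01 y).1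
          have h6 : U y * |V y| ≤ 1 * M := mul_le_mul (hU01 y).2 h3 (abs_nonneg _) (by norm_num)
          linarith
        have h7 : α y * (U y * V y) ≤ α y * M := mul_le_mul_of_nonneg_left h4 (hα0 y)
        linarith
    have h8 : ∫ y in a..x, M * α y = M * ∫ y in a..x, α y := by
      rw [intervalIntegral.integral_const_mul]
    have h9 : ∫ y in a..x, α y ≤ 1 / 5 := by
      rw [intervalIntegral.integral_of_le hx.1]
      have : ∫ y in Ioc a x, α y ≤ ∫ y, α y :=
        setIntegral_le_integral hint (Filter.Eventually.of_forall hα0)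
      linarith
    calc _ ≤ _ := h1
      _ = M * ∫ y in a..x, α y := h8
      _ ≤ M * (1 / 5) := mul_le_mul_of_nonneg_left h9 hM0
  have hx0 := hbound x₀ hx₀
  have hbb := hbound b ⟨hab, le_refl b⟩
  have hM2 : V x₀ ^ 2 = M ^ 2 := by rw [hM, sq_abs]
  have hF0 := Fm_ge (hU01 x₀).1 (hU01 x₀).2
  have hVb : 0 ≤ V b ^ 2 / 2 := by positivity
  rw [hM2] at hx0
  have h1 := (abs_lt.1 hFa)
  have hMle : M ≤ 95 / 100 := by
    by_contra hcon
    push Not at hcon
    nlinarith
  linarith [h1.2]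

end Pool.Agent.Helper50.Ctrl
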