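import Pool.Agent.Helper50.Ctrl.Total
import Pool.Agent.Helper50.Ctrl.L1
import Pool.Agent.Helper50.Ctrl.Wave
import Pool.Agent.Helper50.Ctrl.Pde

set_option autoImplicit false

namespace Pool.Agent.Helper50.Ctrl

open MeasureTheory Set Real Filter Topology
open scoped ENNReal

/-- exterior of the unit disc -/
def Om : Set (ℝ × ℝ) := {p | 1 < p.1 ^ 2 + p.2 ^ 2}

noncomputable def uF (ε t x y : ℝ) : ℝ := uu (√ε) (nT (1 / 20) (√ε)) t x y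
noncomputable def aF (ε t x y : ℝ) : ℝ := aa (√ε) (nT (1 / 20) (√ε)) t x y

lemma sol_F {ε : ℝ} (hε : 0 < ε) : IsSolution fm ε (1 / 20) (uF ε) (aF ε) := by
  have h := isSolution_uu (τ := √ε) (Real.sqrt_pos.mpr hε) (nT (1 / 20) (√ε)) (1 / 20)
  rw [Real.sq_sqrt hε.le] at h
  exact h

lemma tendsto_sqrt_zero : Tendsto (fun ε : ℝ => √ε) (𝓝[>] 0) (𝓝 0) := by
  have h : Tendsto (fun ε : ℝ => √ε) (𝓝 0) (𝓝 (√0)) := Real.continuous_sqrt.tendsto 0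
  rw [Real.sqrt_zero] at h
  exact h.mono_left nhdsWithin_le_nhds

lemma ev_small {c : ℝ} (hc : 0 < c) : ∀ᶠ ε : ℝ in 𝓝[>] 0, 0 < √ε ∧ √ε ≤ c := by
  have h1 := tendsto_sqrt_zero.eventually (ge_mem_nhds hc)
  filter_upwards [h1, self_mem_nhdsWithin] with ε h2 h3
  exact ⟨Real.sqrt_pos.mpr h3, h2⟩

lemma L1_F {t : ℝ} (ht : t ∈ Icc (0:ℝ) (1 / 20)) :
    Tendsto (fun ε => ∫⁻ p : ℝ × ℝ, ENNReal.ofReal
      |uF ε t p.1 p.2 - Om.indicator (fun _ => (1:ℝ)) p|) (𝓝[>] 0) (𝓝 0) := by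
  have h1 : Tendsto (fun ε : ℝ => ENNReal.ofReal (1000 * √ε)) (𝓝[>] 0) (𝓝 0) := by
    have h2 : Tendsto (fun ε : ℝ => 1000 * √ε) (𝓝[>] 0) (𝓝 (1000 * 0)) :=
      tendsto_sqrt_zero.const_mul 1000
    rw [mul_zero] at h2
    have h3 := ENNReal.tendsto_ofReal h2
    rw [ENNReal.ofReal_zero] at h3
    exact h3
  refine tendsto_of_tendsto_of_tendsto_of_le_of_le' tendsto_const_nhds h1
    (Eventually.of_forall fun _ => zero_le) ?_
  filter_upwards [ev_small (show (0:ℝ) < 1 / 20 by norm_num)] with ε hε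
  have hc := exists_cycle (T := 1 / 20) hε.1 hε.2 ht
  exact l1_bound hε.1 (by linarith [hε.2]) hc

lemma cost_F : ∀ᶠ ε : ℝ in 𝓝[>] 0,
    ∫⁻ t in Icc 0 (1 / 20), ∫⁻ p : ℝ × ℝ, ENNReal.ofReal (aF ε t p.1 p.2) ≤
      ENNReal.ofReal (2 * π * (1 / 20) * (1 / 10)) := by
  filter_upwards [ev_small τ0_pos] with ε hε
  exact cost_small hε.1 hε.2

lemma rhs_F : ENNReal.ofReal (2 * π * (1 / 20) * (1 / 5)) ≤
    ∫⁻ _t in Icc (0:ℝ) (1 / 20), ∫⁻ _s in Ioc (0:ℝ) (2 * π), effort fm 0 := by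
  have h1 : ∫⁻ _t in Icc (0:ℝ) (1 / 20), ∫⁻ _s in Ioc (0:ℝ) (2 * π), effort fm 0 =
      effort fm 0 * ENNReal.ofReal (2 * π) * ENNReal.ofReal (1 / 20) := by
    rw [setLIntegral_const, setLIntegral_const, Real.volume_Ioc, Real.volume_Icc]
    norm_num
  rw [h1]
  have h2 : ENNReal.ofReal (2 * π * (1 / 20) * (1 / 5)) =
      ENNReal.ofReal (1 / 5) * ENNReal.ofReal (2 * π) * ENNReal.ofReal (1 / 20) := by
    rw [← ENNReal.ofReal_mul (by norm_num), ← ENNReal.ofReal_mul (by positivity)]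
    congr 1
    ring
  rw [h2]
  gcongr
  exact effort_fm_zero_ge

end Pool.Agent.Helper50.Ctrl
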