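import Pool.Agent.Helper50.Ctrl.Wave

set_option autoImplicit false

namespace Pool.Agent.Helper50.Ctrl

open MeasureTheory Set Filter Topology
open scoped ENNReal

/-- a static wave for an explicit control -/
noncomputable def Us (x : ℝ) : ℝ := Uw (x / √2)

noncomputable def αs (x : ℝ) : ℝ := 101 / 2 * (Us x ^ 100 * (1 - Us x ^ 100))

lemma Us_deriv (x : ℝ) : HasDerivAt Us (1 / √2 * (Us x * (1 - Us x ^ 100))) x := by
  have h1 : HasDerivAt (fun x : ℝ => x / √2) (1 / √2) x := (hasDerivAt_id x).div_const _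
  have h2 := HasDerivAt.comp x (Uw_hasDerivAt (x / √2)) h1
  refine h2.congr_deriv ?_
  unfold Us
  ring

lemma Us_pow (x : ℝ) : Us x ^ 100 = (1 + Real.exp (-100 * (x / √2)))⁻¹ := Uw_pow _

lemma Us_wave : IsWave fm 0 αs Us := by
  have hs2 : √2 * √2 = 2 := Real.mul_self_sqrt (by norm_num)
  have hs0 : 0 < √2 := by positivity
  refine ⟨fun x => ⟨(Uw_pos _).le, Uw_le_one _⟩, ?_, ?_,
    fun x => 1 / √2 * (Us x * (1 - Us x ^ 100)), Us_deriv, ?_, ?_⟩
  · exact Uw_atBot.comp (tendsto_id.atBot_div_const hs0)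
  · exact Uw_atTop.comp (tendsto_id.atTop_div_const hs0)
  · intro a b
    refine ContDiffOn.absolutelyContinuousOnInterval ?_
    refine ContDiff.contDiffOn ?_
    have hU : ContDiff ℝ 1 Us := by
      rw [contDiff_one_iff_deriv]
      refine ⟨fun x => (Us_deriv x).differentiableAt, ?_⟩
      have : deriv Us = fun x => 1 / √2 * (Us x * (1 - Us x ^ 100)) := by
        funext x; exact (Us_deriv x).deriv
      rw [this]
      have hc : Continuous Us := continuous_iff_continuousAt.2
        fun x => (Us_deriv x).continuousAt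
      fun_prop
    fun_prop
  · refine Filter.Eventually.of_forall fun x => ?_
    have h := Us_deriv x
    have h2 := (h.mul ((h.pow 100).const_sub 1)).const_mul (1 / √2)
    refine h2.congr_deriv ?_
    unfold fm αs
    have e : (1 / √2) * (1 / √2) = 1 / 2 := by
      rw [div_mul_div_comm, one_mul, hs2]
    have e99 : Us x ^ 100 = Us x ^ 99 * Us x := pow_succ _ _
    simp only [Nat.cast_ofNat, Pi.pow_apply, Nat.add_one_sub_one, show 100 - 1 = 99 from rfl]
    rw [e99]
    generalize Us x ^ 99 = B
    generalize Us x = U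
    linear_combination (U * (1 - B * U) * (1 - B * U) - 100 * U * (B * (U * (1 - B * U)))) * e

lemma αs_nonneg (x : ℝ) : 0 ≤ αs x := by
  unfold αs
  rw [Us_pow]
  have h := Real.exp_pos (-100 * (x / √2))
  have h1 : (1 + Real.exp (-100 * (x / √2)))⁻¹ ≤ 1 := inv_le_one_of_one_le₀ (by linarith)
  have h2 : 0 < (1 + Real.exp (-100 * (x / √2)))⁻¹ := by positivity
  have : 0 ≤ 1 - (1 + Real.exp (-100 * (x / √2)))⁻¹ := by linarith
  positivity

lemma αs_meas : Measurable αs := by
  have hc : Continuous Us := continuous_iff_continuousAt.2 fun x => (Us_deriv x).continuousAt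
  have : Continuous αs := by unfold αs; fun_prop
  exact this.measurable

lemma αs_le (x : ℝ) : αs x ≤ 101 / 2 * Real.exp (-100 * (x / √2)) ∧
    αs x ≤ 101 / 2 * Real.exp (100 * (x / √2)) := by
  unfold αs
  rw [Us_pow]
  have h := Real.exp_pos (-100 * (x / √2))
  have h3 : Real.exp (100 * (x / √2)) = (Real.exp (-100 * (x / √2)))⁻¹ := by
    rw [← Real.exp_neg]; congr 1; ring
  rw [h3]
  generalize Real.exp (-100 * (x / √2)) = E at h
  have e : (1 + E)⁻¹ * (1 - (1 + E)⁻¹) = E / (1 + E) ^ 2 := by
    field_simp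
    ring
  rw [e]
  constructor
  · apply mul_le_mul_of_nonneg_left _ (by norm_num)
    apply div_le_self h.le
    nlinarith
  · apply mul_le_mul_of_nonneg_left _ (by norm_num)
    rw [inv_eq_one_div, div_le_div_iff₀ (by positivity) h]
    nlinarith

theorem effort_fm_zero_lt_top : effort fm 0 < ⊤ := by
  have h1 : effort fm 0 ≤ ∫⁻ x, ENNReal.ofReal (αs x) := by
    unfold effort
    exact iInf_le_of_le αs (iInf_le_of_le αs_meas (iInf_le_of_le αs_nonneg
      (iInf_le_of_le ⟨Us, Us_wave⟩ le_rfl)))
  refine lt_of_le_of_lt h1 ?_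
  have hs0 : 0 < √2 := by positivity
  have hs1 : √2 ≤ 100 := by
    rw [Real.sqrt_le_left (by norm_num)]; norm_num
  have hone : 1 ≤ 100 / √2 := by rw [le_div_iff₀ hs0]; linarith
  rw [← lintegral_add_compl _ (measurableSet_Iic (a := (0:ℝ))), compl_Iic]
  apply ENNReal.add_lt_top.mpr
  constructor
  · have h2 : ∫⁻ x in Iic 0, ENNReal.ofReal (αs x) ≤
        ∫⁻ x in Iic 0, ENNReal.ofReal (101 / 2 * Real.exp x) := by
      apply setLIntegral_mono' measurableSet_Iic
      intro x hx
      have hx : x ≤ 0 := hx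
      apply ENNReal.ofReal_le_ofReal
      refine (αs_le x).2.trans ?_
      apply mul_le_mul_of_nonneg_left _ (by norm_num)
      apply Real.exp_le_exp.mpr
      have : 100 * (x / √2) = (100 / √2) * x := by ring
      rw [this]
      nlinarith
    refine lt_of_le_of_lt h2 ?_
    have hi : IntegrableOn (fun x => 101 / 2 * Real.exp x) (Iic 0) :=
      (integrableOn_exp_Iic 0).const_mul _
    exact hi.lintegral_lt_top
  · have h2 : ∫⁻ x in Ioi 0, ENNReal.ofReal (αs x) ≤
        ∫⁻ x in Ioi 0, ENNReal.ofReal (101 / 2 * Real.exp (-x)) := by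
      apply setLIntegral_mono' measurableSet_Ioi
      intro x hx
      have hx : 0 < x := hx
      apply ENNReal.ofReal_le_ofReal
      refine (αs_le x).1.trans ?_
      apply mul_le_mul_of_nonneg_left _ (by norm_num)
      apply Real.exp_le_exp.mpr
      have : -100 * (x / √2) = -((100 / √2) * x) := by ring
      rw [this]
      nlinarith
    refine lt_of_le_of_lt h2 ?_
    have hi : IntegrableOn (fun x => 101 / 2 * Real.exp (-x)) (Ioi 0) :=
      (integrableOn_exp_neg_Ioi 0).const_mul _
    exact hi.lintegral_lt_top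

end Pool.Agent.Helper50.Ctrl
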