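import Pool.Agent.Helper50.Ctrl.Rest

set_option autoImplicit false

namespace Pool.Agent.Helper50.Ctrl

open MeasureTheory Set Real
open scoped ENNReal

variable {τ : ℝ} {n i : ℕ} {t : ℝ}

noncomputable def vM (ε L : ℝ) : ℝ := 1 / ε + (1 + ε * L) * L + (1 + ε * L + ε)
noncomputable def vL (ε L : ℝ) : ℝ := 1 / ε + (1 + ε * L) * L

lemma II_Mb {ε L : ℝ} (hε : 0 < ε) (hL : 0 ≤ L) : II ε (Mb L) ≤ ENNReal.ofReal (vM ε L) := by
  have m1 : Measurable ((Iio (0:ℝ)).indicator fun _ => (1:ℝ)) :=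
    measurable_const.indicator measurableSet_Iio
  have m2 : Measurable ((Icc (0:ℝ) L).indicator fun _ => (1:ℝ)) :=
    measurable_const.indicator measurableSet_Icc
  have p1 : ∀ z, 0 ≤ (Iio (0:ℝ)).indicator (fun _ => (1:ℝ)) z :=
    fun z => indicator_nonneg (fun _ _ => by norm_num) _
  have p2 : ∀ z, 0 ≤ (Icc (0:ℝ) L).indicator (fun _ => (1:ℝ)) z :=
    fun z => indicator_nonneg (fun _ _ => by norm_num) _
  have p3 : ∀ z, 0 ≤ (Ioi L).indicator (fun z => exp (-(z - L))) z :=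
    fun z => indicator_nonneg (fun _ _ => (exp_pos _).le) _
  have e : Mb L = fun z => ((Iio (0:ℝ)).indicator (fun _ => (1:ℝ)) z +
      (Icc (0:ℝ) L).indicator (fun _ => (1:ℝ)) z) + (Ioi L).indicator (fun z => exp (-(z - L))) z := by
    ext z; rfl
  have m12 : Measurable fun z => (Iio (0:ℝ)).indicator (fun _ => (1:ℝ)) z +
      (Icc (0:ℝ) L).indicator (fun _ => (1:ℝ)) z := m1.add m2
  rw [e, II_add hε m12 (fun z => add_nonneg (p1 z) (p2 z)) p3, II_add hε m1 p1 p2]
  unfold vM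
  rw [ENNReal.ofReal_add (by positivity) (by positivity),
    ENNReal.ofReal_add (by positivity) (by positivity)]
  exact add_le_add (add_le_add (II_neg hε) (II_mid hε hL)) (II_exp hε hL)

lemma II_f3 {x σ a : ℝ} (hτ : 0 < τ) (hτs : τ ^ 2 ≤ 1 / 2) (hx : 0 ≤ x)
    (hσ : 0 < σ) (ha : a ≤ LL τ) (hτ2 : τ ≤ 2) :
    II (τ ^ 2) (f3 τ x σ a) ≤ ENNReal.ofReal ((τ ^ 4 + ka τ) * vM (τ ^ 2) (LL τ)
      + (3 * x ^ 100 * (√(2 * σ) + (1 + τ ^ 2 * LL τ) * LL τ)
      + C2 * x * (τ ^ 4 + ka τ) * vL (τ ^ 2) (LL τ)) + C2 * x * 8) := by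
  have hε : 0 < τ ^ 2 := by positivity
  have hL := (LL_pos hτ).le
  have hr := rt_pos hσ
  have hC := C2_ge
  have hk := ka_pos (τ := τ)
  have hx100 : 0 ≤ x ^ 100 := pow_nonneg hx 100
  have hδ : 0 ≤ τ ^ 4 + ka τ := by positivity
  have hεL : τ ^ 2 * LL τ ≤ 1 := by
    unfold LL
    have : τ ^ 2 * (1 / (2 * τ)) = τ / 2 := by field_simp
    rw [this]; linarith
  set x100 := x ^ 100 with hx100d
  set A1 : ℝ → ℝ := (Iio (0:ℝ)).indicator fun z => exp (z / √(2 * σ)) with hA1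
  set A2 : ℝ → ℝ := (Icc (0:ℝ) (LL τ)).indicator fun _ => (1:ℝ) with hA2
  set A3 : ℝ → ℝ := (Iio (0:ℝ)).indicator fun _ => (1:ℝ) with hA3
  set A4 : ℝ → ℝ := fun z => exp (-|z - a|) with hA4
  have m1 : Measurable A1 := Measurable.indicator (by fun_prop) measurableSet_Iio
  have m2 : Measurable A2 := measurable_const.indicator measurableSet_Icc
  have m3 : Measurable A3 := measurable_const.indicator measurableSet_Iio
  have m4 : Measurable A4 := by
    have : Continuous A4 := by rw [hA4]; fun_prop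
    exact this.measurable
  have m0 := Mb_meas (LL τ)
  have p0 := Mb_nonneg (LL τ)
  have p1 : ∀ z, 0 ≤ A1 z := fun z => indicator_nonneg (fun _ _ => (exp_pos _).le) _
  have p2 : ∀ z, 0 ≤ A2 z := fun z => indicator_nonneg (fun _ _ => by norm_num) _
  have p3 : ∀ z, 0 ≤ A3 z := fun z => indicator_nonneg (fun _ _ => by norm_num) _
  have p4 : ∀ z, 0 ≤ A4 z := fun z => (exp_pos _).le
  set c1 := 3 * x100 with hc1
  set c2 := C2 * x * (τ ^ 4 + ka τ) with hc2
  set c3 := C2 * x with hc3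
  have hc1' : 0 ≤ c1 := mul_nonneg (by norm_num) hx100
  have hc3' : 0 ≤ c3 := mul_nonneg (by linarith) hx
  have hc2' : 0 ≤ c2 := mul_nonneg hc3' hδ
  have hle : ∀ z, f3 τ x σ a z ≤ ((τ ^ 4 + ka τ) * Mb (LL τ) z +
      (c1 * (A1 z + A2 z) + c2 * (A3 z + A2 z))) + c3 * A4 z := by
    intro z
    unfold f3
    have h1 : (Iic (LL τ)).indicator (fun z => 3 * x ^ 100 * E1 σ z
          + C2 * x * (τ ^ 4 + ka τ)) z ≤ c1 * (A1 z + A2 z) + c2 * (A3 z + A2 z) := by
      by_cases h : z ∈ Iic (LL τ)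
      · rw [indicator_of_mem h]
        rcases lt_or_ge z 0 with h0 | h0
        · have e1 : A1 z = exp (z / √(2 * σ)) := indicator_of_mem (show z ∈ Iio 0 from h0) _
          have e3 : A3 z = 1 := indicator_of_mem (show z ∈ Iio 0 from h0) _
          have h2 := E1_le_exp σ z
          rw [e1, e3]
          have h3 := p2 z
          have h4 : c1 * E1 σ z ≤ c1 * (exp (z / √(2 * σ)) + A2 z) :=
            mul_le_mul_of_nonneg_left (by linarith) hc1'
          have h5 : c2 ≤ c2 * (1 + A2 z) := by nlinarith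
          linarith
        · have e2 : A2 z = 1 := indicator_of_mem (show z ∈ Icc 0 (LL τ) from ⟨h0, h⟩) _
          have h2 := E1_le_one σ z
          rw [e2]
          have h3 := p1 z
          have h3' := p3 z
          have h4 : c1 * E1 σ z ≤ c1 * (A1 z + 1) :=
            mul_le_mul_of_nonneg_left (by linarith) hc1'
          have h5 : c2 ≤ c2 * (A3 z + 1) := by nlinarith
          linarith
      · rw [indicator_of_notMem h]
        exact add_nonneg (mul_nonneg hc1' (add_nonneg (p1 z) (p2 z)))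
          (mul_nonneg hc2' (add_nonneg (p3 z) (p2 z)))
    linarith
  refine (II_mono hε fun z _ => hle z).trans ?_
  have q12 : ∀ z, 0 ≤ A1 z + A2 z := fun z => add_nonneg (p1 z) (p2 z)
  have q32 : ∀ z, 0 ≤ A3 z + A2 z := fun z => add_nonneg (p3 z) (p2 z)
  have m12 : Measurable fun z => A1 z + A2 z := m1.add m2
  have m32 : Measurable fun z => A3 z + A2 z := m3.add m2
  have mA : Measurable fun z => (τ ^ 4 + ka τ) * Mb (LL τ) z := m0.const_mul _
  have mB : Measurable fun z => c1 * (A1 z + A2 z) := m12.const_mul _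
  have mC : Measurable fun z => c2 * (A3 z + A2 z) := m32.const_mul _
  have mABC : Measurable fun z => (τ ^ 4 + ka τ) * Mb (LL τ) z +
      (c1 * (A1 z + A2 z) + c2 * (A3 z + A2 z)) := mA.add (mB.add mC)
  rw [II_add hε mABC
      (fun z => add_nonneg (mul_nonneg hδ (p0 z))
        (add_nonneg (mul_nonneg hc1' (q12 z)) (mul_nonneg hc2' (q32 z))))
      (fun z => mul_nonneg hc3' (p4 z)),
    II_add hε mA (fun z => mul_nonneg hδ (p0 z)) (fun z =>
      add_nonneg (mul_nonneg hc1' (q12 z)) (mul_nonneg hc2' (q32 z))),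
    II_add hε mB (fun z => mul_nonneg hc1' (q12 z)) (fun z => mul_nonneg hc2' (q32 z)),
    II_const_mul m0 hδ, II_const_mul m12 hc1', II_const_mul m32 hc2', II_const_mul m4 hc3',
    II_add hε m1 p1 p2, II_add hε m3 p3 p2]
  have b0 := II_Mb hε hL
  set d := τ ^ 4 + ka τ with hd
  clear_value x100 c1 c3 c2 d
  have b1 : II (τ ^ 2) A1 ≤ ENNReal.ofReal √(2 * σ) := II_neg_exp hε hr
  have b2 : II (τ ^ 2) A2 ≤ ENNReal.ofReal ((1 + τ ^ 2 * LL τ) * LL τ) := II_mid hε hL
  have b3 : II (τ ^ 2) A3 ≤ ENNReal.ofReal (1 / τ ^ 2) := II_neg hε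
  have b4 : II (τ ^ 2) A4 ≤ ENNReal.ofReal 8 := II_abs hε hτs hεL ha
  have v0 : 0 ≤ vM (τ ^ 2) (LL τ) := by unfold vM; positivity
  have v1 : 0 ≤ vL (τ ^ 2) (LL τ) := by unfold vL; positivity
  have k12 : 0 ≤ √(2 * σ) + (1 + τ ^ 2 * LL τ) * LL τ := by positivity
  have e12 : II (τ ^ 2) A1 + II (τ ^ 2) A2 ≤
      ENNReal.ofReal (√(2 * σ) + (1 + τ ^ 2 * LL τ) * LL τ) := by
    rw [ENNReal.ofReal_add hr.le (by positivity)]
    exact add_le_add b1 b2
  have e32 : II (τ ^ 2) A3 + II (τ ^ 2) A2 ≤ ENNReal.ofReal (vL (τ ^ 2) (LL τ)) := by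
    unfold vL
    rw [ENNReal.ofReal_add (by positivity) (by positivity)]
    exact add_le_add b3 b2
  rw [ENNReal.ofReal_add (by positivity) (by positivity),
    ENNReal.ofReal_add (by positivity) (by positivity),
    ENNReal.ofReal_add (by positivity) (by positivity),
    ENNReal.ofReal_mul hδ, ENNReal.ofReal_mul hc1', ENNReal.ofReal_mul hc2',
    ENNReal.ofReal_mul hc3']
  gcongr

end Pool.Agent.Helper50.Ctrl
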