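import Pool.Agent.Helper50.Ctrl.Phi

set_option autoImplicit false

namespace Pool.Agent.Helper50.Ctrl

open MeasureTheory Set Real

noncomputable def E1 (σ z : ℝ) : ℝ := gPh (z / √(2 * σ))
noncomputable def E2 (σ z : ℝ) : ℝ := exp (z + σ) * gPh (-(z + 2 * σ) / √(2 * σ))
noncomputable def QQ (σ z : ℝ) : ℝ := E1 σ z + E2 σ z
noncomputable def pk (σ z : ℝ) : ℝ := gph (z / √(2 * σ)) / √(2 * σ)

lemma rt_pos {σ : ℝ} (h : 0 < σ) : 0 < √(2 * σ) := Real.sqrt_pos.mpr (by linarith)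

lemma rt_sq {σ : ℝ} (h : 0 < σ) : √(2 * σ) ^ 2 = 2 * σ := Real.sq_sqrt (by linarith)

lemma E1_pos (σ z : ℝ) : 0 < E1 σ z := gPh_pos _
lemma E1_le_one (σ z : ℝ) : E1 σ z ≤ 1 := (gPh_lt_one _).le
lemma E2_pos (σ z : ℝ) : 0 < E2 σ z := mul_pos (exp_pos _) (gPh_pos _)
lemma QQ_pos (σ z : ℝ) : 0 < QQ σ z := add_pos (E1_pos _ _) (E2_pos _ _)
lemma pk_nonneg (σ z : ℝ) : 0 ≤ pk σ z := div_nonneg (gph_pos _).le (Real.sqrt_nonneg _)

lemma E2_le_exp (σ z : ℝ) : E2 σ z ≤ exp (z + σ) := by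
  unfold E2
  have := gPh_lt_one (-(z + 2 * σ) / √(2 * σ))
  nlinarith [exp_pos (z + σ)]

lemma E2_le_QQ (σ z : ℝ) : E2 σ z ≤ QQ σ z := by unfold QQ; linarith [E1_pos σ z]
lemma E1_le_QQ (σ z : ℝ) : E1 σ z ≤ QQ σ z := by unfold QQ; linarith [E2_pos σ z]

lemma exp_gph {σ : ℝ} (h : 0 < σ) (z : ℝ) :
    exp (z + σ) * gph (-(z + 2 * σ) / √(2 * σ)) = gph (z / √(2 * σ)) := by
  have h1 := rt_pos h
  have h2 := rt_sq h
  unfold gph
  rw [mul_div_assoc', ← exp_add]
  congr 2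
  rw [div_pow, div_pow, h2]
  field_simp
  ring

lemma E1_z {σ : ℝ} (h : 0 < σ) (z : ℝ) : HasDerivAt (fun z => E1 σ z) (pk σ z) z := by
  unfold E1 pk
  have h1 : HasDerivAt (fun z : ℝ => z / √(2 * σ)) (1 / √(2 * σ)) z :=
    (hasDerivAt_id z).div_const _
  have h2 := (gPh_hasDeriv (z / √(2 * σ))).comp z h1
  refine h2.congr_deriv ?_
  ring

lemma E2_z {σ : ℝ} (h : 0 < σ) (z : ℝ) :
    HasDerivAt (fun z => E2 σ z) (E2 σ z - pk σ z) z := by
  have h1 : HasDerivAt (fun z : ℝ => -(z + 2 * σ) / √(2 * σ)) (-1 / √(2 * σ)) z :=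
    (((hasDerivAt_id z).add_const _).neg).div_const _
  have h2 := (gPh_hasDeriv (-(z + 2 * σ) / √(2 * σ))).comp z h1
  have h3 : HasDerivAt (fun z : ℝ => exp (z + σ)) (exp (z + σ)) z := by
    have := ((hasDerivAt_id z).add_const σ).exp
    simpa using this
  have h4 := h3.mul h2
  unfold E2 pk
  refine h4.congr_deriv ?_
  rw [← exp_gph h z]
  simp only [Function.comp]
  ring

lemma QQ_z {σ : ℝ} (h : 0 < σ) (z : ℝ) : HasDerivAt (fun z => QQ σ z) (E2 σ z) z := by
  have := (E1_z h z).add (E2_z h z)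
  refine this.congr_deriv ?_
  ring

lemma rt_deriv {σ : ℝ} (h : 0 < σ) : HasDerivAt (fun σ : ℝ => √(2 * σ)) (1 / √(2 * σ)) σ := by
  have h1 : HasDerivAt (fun σ : ℝ => 2 * σ) 2 σ := by
    simpa using (hasDerivAt_id σ).const_mul 2
  have h2 := h1.sqrt (by linarith)
  refine h2.congr_deriv ?_
  have := rt_pos h
  field_simp

lemma QQ_σ {σ : ℝ} (h : 0 < σ) (z : ℝ) :
    HasDerivAt (fun σ => QQ σ z) (E2 σ z - pk σ z) σ := by
  have hr := rt_pos h
  have hr2 := rt_sq h
  have hd := rt_deriv h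
  have h1 : HasDerivAt (fun σ : ℝ => z / √(2 * σ)) (-z / √(2 * σ) ^ 3) σ := by
    have := (hasDerivAt_const σ z).div hd hr.ne'
    refine this.congr_deriv ?_
    field_simp
    ring
  have h2 : HasDerivAt (fun σ : ℝ => -(z + 2 * σ) / √(2 * σ))
      (z / √(2 * σ) ^ 3 - 1 / √(2 * σ)) σ := by
    have h0 : HasDerivAt (fun σ : ℝ => -(z + 2 * σ)) (-2) σ := by
      have := (((hasDerivAt_id σ).const_mul 2).const_add z).neg
      refine this.congr_deriv ?_
      norm_num
    have := h0.div hd hr.ne'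
    refine this.congr_deriv ?_
    rw [show (2 * σ) = √(2 * σ) ^ 2 from hr2.symm]
    rw [Real.sqrt_sq hr.le]
    field_simp
    ring
  have h3 : HasDerivAt (fun σ : ℝ => exp (z + σ)) (exp (z + σ)) σ := by
    have := ((hasDerivAt_id σ).const_add z).exp
    simpa using this
  have h4 := ((gPh_hasDeriv (z / √(2 * σ))).comp σ h1).add
    (h3.mul ((gPh_hasDeriv (-(z + 2 * σ) / √(2 * σ))).comp σ h2))
  unfold QQ E1 E2 pk
  refine h4.congr_deriv ?_
  simp only [Function.comp]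
  have h5 := exp_gph h z
  rw [← h5]
  ring

lemma half_div {σ : ℝ} (h : 0 < σ) (z : ℝ) :
    -(z + 2 * σ) / √(2 * σ) = -(z / √(2 * σ) + √(2 * σ)) := by
  have hr := rt_pos h
  have hr2 := rt_sq h
  field_simp
  linarith

lemma QQ_le_exp {σ : ℝ} (h : 0 < σ) (z : ℝ) : QQ σ z ≤ exp (z + σ) := by
  have hr := rt_pos h
  have hr2 := rt_sq h
  have h1 := gPh_shift hr.le (z / √(2 * σ))
  have h2 : z / √(2 * σ) * √(2 * σ) + √(2 * σ) ^ 2 / 2 = z + σ := by
    rw [hr2]; field_simp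
  rw [h2] at h1
  have h3 := gPh_add_neg (z / √(2 * σ) + √(2 * σ))
  unfold QQ E1 E2
  rw [half_div h]
  have h4 : gPh (-(z / √(2 * σ) + √(2 * σ))) = 1 - gPh (z / √(2 * σ) + √(2 * σ)) := by linarith
  rw [h4]
  linarith

lemma one_sub_QQ {σ : ℝ} (z : ℝ) : 1 - QQ σ z ≤ gPh (-(z / √(2 * σ))) := by
  have h1 := gPh_add_neg (z / √(2 * σ))
  have h2 := E2_pos σ z
  unfold QQ E1
  linarith

lemma QQ_le_one {σ : ℝ} (h : 0 < σ) (z : ℝ) : QQ σ z ≤ 1 := by
  have hr := rt_pos h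
  have hr2 := rt_sq h
  have h1 := gPh_shift hr.le (-(z / √(2 * σ) + √(2 * σ)))
  have h2 : -(z / √(2 * σ) + √(2 * σ)) * √(2 * σ) + √(2 * σ) ^ 2 / 2 = -(z + σ) := by
    have : z / √(2 * σ) * √(2 * σ) = z := by field_simp
    nlinarith
  rw [h2] at h1
  have h3 : -(z / √(2 * σ) + √(2 * σ)) + √(2 * σ) = - (z / √(2 * σ)) := by ring
  rw [h3] at h1
  have h4 := gPh_add_neg (z / √(2 * σ))
  unfold QQ E1 E2
  rw [half_div h]
  have h5 := mul_le_mul_of_nonneg_left h1 (exp_pos (z + σ)).le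
  rw [← mul_assoc, ← exp_add] at h5
  have h6 : z + σ + -(z + σ) = 0 := by ring
  rw [h6, exp_zero, one_mul] at h5
  linarith

lemma E1_le_exp (σ z : ℝ) : E1 σ z ≤ exp (z / √(2 * σ)) := gPh_le_exp _

lemma QQ_ge_half {σ z : ℝ} (h : 0 < σ) (hz : 0 ≤ z) : 1 / 2 ≤ QQ σ z := by
  have h1 : 1 / 2 ≤ E1 σ z := gPh_ge_half (div_nonneg hz (rt_pos h).le)
  linarith [E1_le_QQ σ z]

lemma QQ_ge {σ z : ℝ} (h : 0 < σ) (h2 : σ ≤ 1 / 2) (hz : 0 ≤ z) : 1 - exp (-z) ≤ QQ σ z := by
  have h1 := one_sub_QQ (σ := σ) z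
  have h3 := gPh_le_exp (-(z / √(2 * σ)))
  have h4 : √(2 * σ) ≤ 1 := by
    rw [Real.sqrt_le_left (by norm_num)]; linarith
  have h5 : exp (-(z / √(2 * σ))) ≤ exp (-z) := by
    apply exp_le_exp.mpr
    have hr := rt_pos h
    have : z ≤ z / √(2 * σ) := by
      rw [le_div_iff₀ hr]
      nlinarith
    linarith
  linarith

/-- The constant used to compare the heat kernel with the profile. -/
lemma pk_le {σ : ℝ} (h : 7 / 100 ≤ σ) (z : ℝ) : pk σ z ≤ 20 * QQ σ z := by
  have hσ : 0 < σ := by linarith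
  have hr := rt_pos hσ
  have hr2 := rt_sq hσ
  have hrl : (37 / 100 : ℝ) ≤ √(2 * σ) := by
    apply Real.le_sqrt_of_sq_le
    linarith
  have he : exp (3 / 2 : ℝ) ≤ 45 / 10 := by
    have h1 := Real.exp_one_lt_d9
    have h2 : exp (3 / 2 : ℝ) ^ 2 = exp 1 ^ 3 := by
      rw [← Real.exp_nat_mul, ← Real.exp_nat_mul]; norm_num
    have h3 : exp 1 ^ 3 ≤ (45 / 10 : ℝ) ^ 2 := by
      have : exp 1 ^ 3 ≤ (2.7182818286 : ℝ) ^ 3 := by gcongr
      refine this.trans ?_
      norm_num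
    have h4 := exp_pos (3 / 2 : ℝ)
    nlinarith
  unfold pk
  rw [div_le_iff₀ hr]
  have hE1 := E1_pos σ z
  have hE2 := E2_pos σ z
  have key : gph (z / √(2 * σ)) ≤ (45 / 10) * (1 + √(2 * σ)) * QQ σ z := by
    rcases le_or_gt 0 z with hz | hz
    · have h1 : 1 / 2 ≤ E1 σ z := gPh_ge_half (div_nonneg hz hr.le)
      have h2 := gph_le_one (z / √(2 * σ))
      have h3 : QQ σ z ≤ (45 / 10) * (1 + √(2 * σ)) * QQ σ z := by
        have := QQ_pos σ z
        nlinarith [mul_pos hr this]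
      have := E1_le_QQ σ z
      linarith
    · rw [← exp_gph hσ z, half_div hσ, gph_neg]
      set y := z / √(2 * σ) + √(2 * σ) with hy
      have hyr : y ≤ √(2 * σ) := by
        rw [hy]
        have : z / √(2 * σ) ≤ 0 := div_nonpos_of_nonpos_of_nonneg hz.le hr.le
        linarith
      have hE2' : E2 σ z = exp (z + σ) * gPh (-y) := by
        unfold E2; rw [half_div hσ]
      rcases le_or_gt 0 y with hy0 | hy0
      · have h1 := mills hy0
        have h2 : gph y ≤ exp (3 / 2) * ((1 + y) * gPh (-y)) := by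
          have h3 := mul_le_mul_of_nonneg_left h1 (exp_pos (3 / 2 : ℝ)).le
          rw [mul_comm (gph y), ← mul_assoc, ← exp_add] at h3
          have h4 : (3 / 2 + -3 / 2 : ℝ) = 0 := by norm_num
          rw [h4, exp_zero, one_mul] at h3
          exact h3
        have h5 : (1 + y) * gPh (-y) ≤ (1 + √(2 * σ)) * gPh (-y) :=
          mul_le_mul_of_nonneg_right (by linarith) (gPh_pos _).le
        have h6 : exp (3 / 2) * ((1 + y) * gPh (-y)) ≤
            (45 / 10) * ((1 + √(2 * σ)) * gPh (-y)) := by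
          apply mul_le_mul he h5 _ (by norm_num)
          have := gPh_pos (-y)
          positivity
        calc exp (z + σ) * gph y ≤ exp (z + σ) * ((45 / 10) * ((1 + √(2 * σ)) * gPh (-y))) :=
              mul_le_mul_of_nonneg_left (h2.trans h6) (exp_pos _).le
          _ = (45 / 10) * (1 + √(2 * σ)) * E2 σ z := by rw [hE2']; ring
          _ ≤ _ := by
              apply mul_le_mul_of_nonneg_left (E2_le_QQ σ z)
              positivity
      · have h1 : 1 / 2 ≤ gPh (-y) := gPh_ge_half (by linarith)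
        have h2 := gph_le_one y
        have h3 : exp (z + σ) * gph y ≤ E2 σ z := by
          rw [hE2']
          exact mul_le_mul_of_nonneg_left (by linarith) (exp_pos _).le
        have h4 : QQ σ z ≤ (45 / 10) * (1 + √(2 * σ)) * QQ σ z := by
          have := QQ_pos σ z
          nlinarith [mul_pos hr this]
        have := E2_le_QQ σ z
        linarith
  refine key.trans ?_
  have hQ := QQ_pos σ z
  have : (45 / 10) * (1 + √(2 * σ)) ≤ 20 * √(2 * σ) := by linarith
  calc (45 / 10) * (1 + √(2 * σ)) * QQ σ z ≤ 20 * √(2 * σ) * QQ σ z :=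
        mul_le_mul_of_nonneg_right this hQ.le
    _ = 20 * QQ σ z * √(2 * σ) := by ring

lemma QQ_growth {σ δ : ℝ} (h : 7 / 100 ≤ σ) (hδ : 0 ≤ δ) (z : ℝ) :
    exp (-(20 * δ)) * QQ σ z ≤ QQ (σ + δ) z := by
  set D : ℝ → ℝ := fun σ => exp (20 * σ) * QQ σ z with hD
  have hder : ∀ s ∈ Ici (7 / 100 : ℝ), HasDerivAt D
      (exp (20 * s) * (20 * QQ s z + E2 s z - pk s z)) s := by
    intro s hs
    have hs0 : 0 < s := by
      have : (7 / 100 : ℝ) ≤ s := hs
      linarith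
    have h1 : HasDerivAt (fun s : ℝ => exp (20 * s)) (exp (20 * s) * 20) s := by
      have := ((hasDerivAt_id s).const_mul 20).exp
      simpa using this
    have := h1.mul (QQ_σ hs0 z)
    refine this.congr_deriv ?_
    ring
  have hmono : MonotoneOn D (Ici (7 / 100 : ℝ)) := by
    apply monotoneOn_of_deriv_nonneg (convex_Ici _)
    · intro s hs
      exact (hder s hs).continuousAt.continuousWithinAt
    · intro s hs
      rw [interior_Ici] at hs
      exact (hder s (Ioi_subset_Ici_self hs)).differentiableAt.differentiableWithinAt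
    · intro s hs
      rw [interior_Ici] at hs
      have hs' : (7 / 100 : ℝ) ≤ s := le_of_lt hs
      rw [(hder s hs').deriv]
      have h1 := pk_le hs' z
      have h2 := E2_pos s z
      have : 0 ≤ 20 * QQ s z + E2 s z - pk s z := by linarith
      positivity
  have h1 := hmono (show σ ∈ Ici (7 / 100 : ℝ) from h)
    (show σ + δ ∈ Ici (7 / 100 : ℝ) from by simp only [mem_Ici]; linarith) (by linarith)
  simp only [hD] at h1
  have h2 := mul_le_mul_of_nonneg_left h1 (exp_pos (-(20 * (σ + δ)))).le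
  rw [← mul_assoc, ← mul_assoc, ← exp_add, ← exp_add] at h2
  have h3 : -(20 * (σ + δ)) + 20 * σ = -(20 * δ) := by ring
  have h4 : -(20 * (σ + δ)) + 20 * (σ + δ) = 0 := by ring
  rw [h3, h4, exp_zero, one_mul] at h2
  exact h2

lemma cont_E1 {X : Type*} [TopologicalSpace X] {s z : X → ℝ} (hs : Continuous s)
    (hz : Continuous z) (h : ∀ x, 0 < s x) : Continuous fun x => E1 (s x) (z x) := by
  unfold E1
  have h1 : Continuous fun x => √(2 * s x) := by fun_prop
  exact gPh_cont.comp (hz.div h1 fun x => (rt_pos (h x)).ne')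

lemma cont_pk {X : Type*} [TopologicalSpace X] {s z : X → ℝ} (hs : Continuous s)
    (hz : Continuous z) (h : ∀ x, 0 < s x) : Continuous fun x => pk (s x) (z x) := by
  unfold pk
  have h1 : Continuous fun x => √(2 * s x) := by fun_prop
  exact (gph_cont.comp (hz.div h1 fun x => (rt_pos (h x)).ne')).div h1
    fun x => (rt_pos (h x)).ne'

lemma cont_E2 {X : Type*} [TopologicalSpace X] {s z : X → ℝ} (hs : Continuous s)
    (hz : Continuous z) (h : ∀ x, 0 < s x) : Continuous fun x => E2 (s x) (z x) := by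
  unfold E2
  have h1 : Continuous fun x => √(2 * s x) := by fun_prop
  have h2 : Continuous fun x => -(z x + 2 * s x) := by fun_prop
  have h3 : Continuous fun x => exp (z x + s x) := by fun_prop
  exact h3.mul (gPh_cont.comp (h2.div h1 fun x => (rt_pos (h x)).ne'))

lemma cont_QQ {X : Type*} [TopologicalSpace X] {s z : X → ℝ} (hs : Continuous s)
    (hz : Continuous z) (h : ∀ x, 0 < s x) : Continuous fun x => QQ (s x) (z x) :=
  (cont_E1 hs hz h).add (cont_E2 hs hz h)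

end Pool.Agent.Helper50.Ctrl
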