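import Pool.Agent.Helper50.Ctrl.Bound

set_option autoImplicit false

namespace Pool.Agent.Helper50.Ctrl

open MeasureTheory Set Real

/-- primitive of the killing cost -/
noncomputable def gk (w : ℝ) : ℝ := 1 / 100 * log (1 + (w ^ 100)⁻¹)

lemma gk_deriv {w : ℝ} (hw : 0 < w) : HasDerivAt gk (-(1 / (w * (1 + w ^ 100)))) w := by
  have hD : 0 < w ^ 100 := pow_pos hw 100
  have h1 : HasDerivAt (fun w : ℝ => w ^ 100) (100 * w ^ 99) w := by
    simpa using hasDerivAt_pow 100 w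
  have h2 : HasDerivAt (fun w : ℝ => 1 + (w ^ 100)⁻¹) (-(100 * w ^ 99) / (w ^ 100) ^ 2) w :=
    (h1.inv hD.ne').const_add 1
  have hpos : 1 + (w ^ 100)⁻¹ ≠ 0 := by
    have : 0 < (w ^ 100)⁻¹ := inv_pos.mpr hD
    linarith
  have h3 := (h2.log hpos).const_mul (1 / 100)
  unfold gk
  refine h3.congr_deriv ?_
  have e : w ^ 100 = w ^ 99 * w := pow_succ w 99
  have hB : 0 < w ^ 99 := pow_pos hw 99
  rw [e] at hD ⊢
  generalize w ^ 99 = B at hB hD ⊢
  field_simp
  ring

lemma gk_nonneg (w : ℝ) (hw : 0 < w) : 0 ≤ gk w := by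
  unfold gk
  have hD : 0 < w ^ 100 := pow_pos hw 100
  have : 0 ≤ log (1 + (w ^ 100)⁻¹) := log_nonneg (by
    have : 0 < (w ^ 100)⁻¹ := inv_pos.mpr hD
    linarith)
  linarith

lemma gk_anti {w v : ℝ} (hw : 0 < w) (h : w ≤ v) : gk v ≤ gk w := by
  unfold gk
  have hD : 0 < w ^ 100 := pow_pos hw 100
  have hD2 : w ^ 100 ≤ v ^ 100 := pow_le_pow_left₀ hw.le h 100
  generalize w ^ 100 = a at hD hD2 ⊢
  generalize v ^ 100 = b at hD2 ⊢
  have hb : 0 < b := by linarith
  have h1 : b⁻¹ ≤ a⁻¹ := inv_anti₀ hD hD2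
  have h2 : 0 < b⁻¹ := inv_pos.mpr hb
  have := log_le_log (by linarith) (show 1 + b⁻¹ ≤ 1 + a⁻¹ by linarith)
  linarith

lemma gk_le {w : ℝ} (hw : 0 < w) : gk w ≤ (w ^ 100)⁻¹ := by
  unfold gk
  have hD : 0 < w ^ 100 := pow_pos hw 100
  generalize w ^ 100 = a at hD ⊢
  have h2 : 0 < a⁻¹ := inv_pos.mpr hD
  have := log_le_sub_one_of_pos (show 0 < 1 + a⁻¹ by linarith)
  linarith

lemma gk_scale {w v x : ℝ} (hv : 0 < v) (hx : 0 ≤ x) (h : exp (-x) * v ≤ w) :
    gk w ≤ gk v + x := by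
  have h0 : 0 < exp (-x) * v := by positivity
  refine (gk_anti h0 h).trans ?_
  unfold gk
  rw [mul_pow, ← Real.exp_nat_mul]
  have hD : 0 < v ^ 100 := pow_pos hv 100
  generalize v ^ 100 = a at hD ⊢
  have h2 : 0 < a⁻¹ := inv_pos.mpr hD
  have h3 : (exp (((100:ℕ):ℝ) * -x) * a)⁻¹ = exp (100 * x) * a⁻¹ := by
    rw [mul_inv, ← exp_neg]
    congr 2
    push_cast
    ring
  rw [h3]
  have h4 : 1 ≤ exp (100 * x) := one_le_exp (by linarith)
  have h5 : 1 + exp (100 * x) * a⁻¹ ≤ exp (100 * x) * (1 + a⁻¹) := by nlinarith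
  have h6 := log_le_log (by positivity) h5
  rw [log_mul (by positivity) (by positivity), log_exp] at h6
  linarith

variable {τ : ℝ} {n : ℕ}

noncomputable def kill (τ : ℝ) (n : ℕ) (t z : ℝ) : ℝ :=
  KK τ n t z / (WW τ n t z * (1 + WW τ n t z ^ 100))

lemma kill_nonneg (hτ : 0 < τ) (n : ℕ) (t z : ℝ) : 0 ≤ kill τ n t z := by
  have h1 := KK_nonneg hτ n t z
  have h2 := WW_pos hτ n t z
  have h3 : 0 < WW τ n t z ^ 100 := pow_pos h2 100
  exact div_nonneg h1 (mul_nonneg h2.le (by linarith))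

lemma kill_cont {X : Type*} [TopologicalSpace X] {s z : X → ℝ} (hτ : 0 < τ) (n : ℕ)
    (hs : Continuous s) (hz : Continuous z) :
    Continuous fun x => kill τ n (s x) (z x) := by
  unfold kill
  have h1 := cont_WW hτ n hs hz
  refine (cont_KK hτ n hs hz).div
    (h1.mul (continuous_const.add (h1.pow 100))) fun p => ?_
  have h2 := WW_pos hτ n (s p) (z p)
  have h3 : 0 < WW τ n (s p) (z p) ^ 100 := pow_pos h2 100
  have h4 : 0 < 1 + WW τ n (s p) (z p) ^ 100 := by linarith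
  exact (mul_pos h2 h4).ne'

lemma window_cycle (hτ : 0 < τ) (hτ1 : τ ≤ 1) {j : ℕ} (hj : j < n) {t : ℝ}
    (h1 : (j + 1) * τ ≤ t) (h2 : t ≤ (j + 1) * τ + τ ^ 4) : InCycle τ n j t := by
  have h3 : τ ^ 4 ≤ τ := by
    have : τ ^ 4 ≤ τ ^ 1 := pow_le_pow_of_le_one hτ.le hτ1 (by norm_num)
    simpa using this
  refine ⟨hj, ?_, Or.inl h1, by nlinarith⟩
  have : 0 ≤ ((j:ℝ) + 1) * τ := by positivity
  linarith

lemma window_int (hτ : 0 < τ) (hτ1 : τ ≤ 1) {j : ℕ} (hj : j < n) (z : ℝ) :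
    ∫ t in ((j + 1) * τ)..((j + 1) * τ + τ ^ 4), kill τ n t z ≤
      gk (WW τ n ((j + 1) * τ + τ ^ 4) z) - gk (WW τ n ((j + 1) * τ) z)
        + τ ^ 2 / 2 * Mb (LL τ) z := by
  set a := ((j:ℝ) + 1) * τ with ha
  set b := ((j:ℝ) + 1) * τ + τ ^ 4 with hb
  have hab : a ≤ b := by rw [ha, hb]; linarith [pow_pos hτ 4]
  set φ' : ℝ → ℝ := fun t => -(1 / (WW τ n t z * (1 + WW τ n t z ^ 100))) *
    ((1 / τ ^ 2) * (EE τ n t z - PI τ n t z - WW τ n t z / 2) - KK τ n t z) with hφ'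
  have hd : ∀ t, HasDerivAt (fun t => gk (WW τ n t z)) (φ' t) t := by
    intro t
    have h := HasDerivAt.comp t (gk_deriv (WW_pos hτ n t z)) (WW_t hτ n t z)
    exact h
  have hcW := cont_WW hτ n (X := ℝ) continuous_id (continuous_const (y := z))
  have hcE := cont_EE hτ n (X := ℝ) continuous_id (continuous_const (y := z))
  have hcP := cont_PI hτ n (X := ℝ) continuous_id (continuous_const (y := z))
  have hcK := cont_KK hτ n (X := ℝ) continuous_id (continuous_const (y := z))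
  simp only [id] at hcW hcE hcP hcK
  have hcφ : Continuous φ' := by
    refine Continuous.mul (Continuous.neg (Continuous.div continuous_const
      (hcW.mul (continuous_const.add (hcW.pow 100))) fun t => ?_)) ?_
    · have h2 := WW_pos hτ n t z
      have h3 : 0 < WW τ n t z ^ 100 := pow_pos h2 100
      have h4 : 0 < 1 + WW τ n t z ^ 100 := by linarith
      exact (mul_pos h2 h4).ne'
    · exact (continuous_const.mul ((hcE.sub hcP).sub (hcW.div_const 2))).sub hcK
  have hck : Continuous fun t => kill τ n t z :=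
    kill_cont hτ n continuous_id continuous_const
  have h1 : ∫ t in a..b, φ' t = gk (WW τ n b z) - gk (WW τ n a z) :=
    intervalIntegral.integral_eq_sub_of_hasDerivAt (fun t _ => hd t) (hcφ.intervalIntegrable _ _)
  have h2 : ∫ t in a..b, (φ' t + 1 / (2 * τ ^ 2) * Mb (LL τ) z) =
      gk (WW τ n b z) - gk (WW τ n a z) + τ ^ 2 / 2 * Mb (LL τ) z := by
    rw [intervalIntegral.integral_add (hcφ.intervalIntegrable _ _)
      (continuous_const.intervalIntegrable _ _), h1, intervalIntegral.integral_const]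
    rw [ha, hb, smul_eq_mul]
    field_simp
    ring
  rw [← h2]
  apply intervalIntegral.integral_mono_on hab (hck.intervalIntegrable _ _)
    ((hcφ.add continuous_const).intervalIntegrable _ _)
  intro t ht
  have hcyc := window_cycle (n := n) hτ hτ1 hj ht.1 ht.2
  have hq := hcyc.q_le hτ hτ1 z
  have hW := WW_pos hτ n t z
  have hEW := EE_le_WW hτ n t z
  have hP := PI_nonneg hτ n t z
  have hD : 0 < WW τ n t z ^ 100 := pow_pos hW 100
  change KK τ n t z / (WW τ n t z * (1 + WW τ n t z ^ 100)) ≤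
    -(1 / (WW τ n t z * (1 + WW τ n t z ^ 100))) *
      ((1 / τ ^ 2) * (EE τ n t z - PI τ n t z - WW τ n t z / 2) - KK τ n t z)
      + 1 / (2 * τ ^ 2) * Mb (LL τ) z
  generalize WW τ n t z ^ 100 = D at hq hD ⊢
  generalize WW τ n t z = W at hW hEW ⊢
  generalize EE τ n t z = E at hEW ⊢
  generalize PI τ n t z = P at hP ⊢
  generalize KK τ n t z = K
  generalize Mb (LL τ) z = M at hq ⊢
  have h5 : -(1 / (W * (1 + D))) * (1 / τ ^ 2 * (E - P - W / 2) - K) =
      K / (W * (1 + D)) - (1 / τ ^ 2) * (((E - P - W / 2) / W) * (1 / (1 + D))) := by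
    field_simp
    ring
  rw [h5]
  have h6 : (E - P - W / 2) / W ≤ 1 / 2 := by
    rw [div_le_iff₀ hW]; linarith
  have h7 : ((E - P - W / 2) / W) * (1 / (1 + D)) ≤ 1 / 2 * (1 / (1 + D)) :=
    mul_le_mul_of_nonneg_right h6 (by positivity)
  have h8 : (1 / τ ^ 2) * (((E - P - W / 2) / W) * (1 / (1 + D))) ≤ (1 / τ ^ 2) * (1 / 2 * M) := by
    apply mul_le_mul_of_nonneg_left _ (by positivity)
    linarith
  have h9 : 1 / (2 * τ ^ 2) * M = (1 / τ ^ 2) * (1 / 2 * M) := by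
    field_simp
  rw [h9]
  linarith

/-- constant for the tail -/
noncomputable def Cc : ℝ := exp 1 / gPh (-1)

lemma Cc_pos : 0 < Cc := div_pos (exp_pos _) (gPh_pos _)

lemma one_sub_ka (hκ : ka τ ≤ 1 / 2) : exp (-(2 * ka τ)) ≤ 1 - ka τ := by
  have h0 := ka_pos (τ := τ)
  have h1 : 0 < 1 - ka τ := by linarith
  rw [← le_log_iff_exp_le h1]
  have h2 := one_sub_inv_le_log_of_pos h1
  have h3 : -(2 * ka τ) ≤ 1 - (1 - ka τ)⁻¹ := by
    rw [← one_div, le_sub_iff_add_le, ← le_sub_iff_add_le', div_le_iff₀ h1]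
    nlinarith
  linarith

lemma rt_le_one (hτs : τ ^ 2 ≤ 1 / 4) : √(2 * (7 / 100 + τ ^ 2)) ≤ 1 := by
  rw [Real.sqrt_le_left (by norm_num)]
  linarith

lemma hQ_front (hτs : τ ^ 2 ≤ 1 / 4) {z : ℝ} (hz : z ≤ 0) :
    exp (-(Cc * exp z)) * exp z ≤ hQ (τ ^ 2) z := by
  have hs0 : 0 ≤ τ ^ 2 := sq_nonneg τ
  unfold hQ am
  rw [sg_of_nonneg hs0]
  set σ := 7 / 100 + τ ^ 2 with hσ
  have hσ0 : 0 < σ := by rw [hσ]; linarith
  have hr := rt_pos hσ0
  have hr1 : √(2 * σ) ≤ 1 := rt_le_one hτs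
  set q := gPh (-(z / √(2 * σ) + √(2 * σ))) with hq
  have hq0 : 0 < q := gPh_pos _
  have hzr : z / √(2 * σ) ≤ z := by
    rw [div_le_iff₀ hr]
    nlinarith
  have hq1 : gPh (-1) ≤ q := by
    apply gPh_mono
    linarith
  have hq2 : 1 - q ≤ exp 1 * exp z := by
    have h1 := gPh_add_neg (z / √(2 * σ) + √(2 * σ))
    have h2 := gPh_le_exp (z / √(2 * σ) + √(2 * σ))
    have h3 : exp (z / √(2 * σ) + √(2 * σ)) ≤ exp (1 + z) := exp_le_exp.mpr (by linarith)
    rw [exp_add 1 z] at h3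
    linarith
  have hq3 : exp (-(Cc * exp z)) ≤ q := by
    rw [← le_log_iff_exp_le hq0]
    have h2 := one_sub_inv_le_log_of_pos hq0
    have h4 : (1 - q) / q ≤ Cc * exp z := by
      have h5 : (1 - q) / q ≤ exp 1 * exp z / q :=
        div_le_div_of_nonneg_right hq2 hq0.le
      have h6 : exp 1 * exp z / q ≤ exp 1 * exp z / gPh (-1) :=
        div_le_div_of_nonneg_left (by positivity) (gPh_pos _) hq1
      have h7 : exp 1 * exp z / gPh (-1) = Cc * exp z := by unfold Cc; ring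
      linarith
    have h5 : 1 - q⁻¹ = -((1 - q) / q) := by
      field_simp
      ring
    linarith
  have hE : E2 σ z = exp (z + σ) * q := by
    unfold E2
    rw [half_div hσ0]
  have h8 : exp z ≤ exp (-(7 / 100) - τ ^ 2 / 2) * exp (z + σ) := by
    rw [← exp_add]
    apply exp_le_exp.mpr
    rw [hσ]
    linarith
  calc exp (-(Cc * exp z)) * exp z ≤ q * (exp (-(7 / 100) - τ ^ 2 / 2) * exp (z + σ)) :=
        mul_le_mul hq3 h8 (exp_pos _).le hq0.le
    _ = exp (-(7 / 100) - τ ^ 2 / 2) * E2 σ z := by rw [hE]; ring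
    _ ≤ _ := mul_le_mul_of_nonneg_left (E2_le_QQ _ _) (exp_pos _).le

lemma hQ_plateau (hτs : τ ^ 2 ≤ 1 / 4) {z : ℝ} (hz : 0 ≤ z) :
    exp (-(7 / 100) - τ ^ 2 / 2) * exp (-(2 * exp (-z))) ≤ hQ (τ ^ 2) z := by
  have hs0 : 0 ≤ τ ^ 2 := sq_nonneg τ
  unfold hQ am
  rw [sg_of_nonneg hs0]
  apply mul_le_mul_of_nonneg_left _ (exp_pos _).le
  set σ := 7 / 100 + τ ^ 2 with hσ
  have hσ0 : 0 < σ := by rw [hσ]; linarith
  have h1 := QQ_ge_half hσ0 hz
  have h2 := QQ_ge hσ0 (by rw [hσ]; linarith) hz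
  have h3 : 0 < QQ σ z := by linarith
  rw [← le_log_iff_exp_le h3]
  have h4 := one_sub_inv_le_log_of_pos h3
  have h5 : (QQ σ z)⁻¹ ≤ 1 + 2 * exp (-z) := by
    rw [inv_le_comm₀ h3 (by positivity)]
    rw [inv_eq_one_div, div_le_iff₀ (by positivity)]
    have := exp_pos (-z)
    nlinarith
  linarith

lemma hQ_shift {s z : ℝ} (hs : 0 ≤ s) :
    exp (-(21 * τ ^ 2)) * hQ s z ≤ hQ (s + τ ^ 2) z := by
  have h0 : 0 ≤ τ ^ 2 := sq_nonneg τ
  unfold hQ am
  rw [sg_of_nonneg hs, sg_of_nonneg (by linarith)]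
  have h1 := QQ_growth (σ := 7 / 100 + s) (by linarith) h0 z
  have h2 : exp (-(21 * τ ^ 2)) ≤ exp (-(τ ^ 2 / 2)) * exp (-(20 * τ ^ 2)) := by
    rw [← exp_add]
    apply exp_le_exp.mpr
    linarith
  have h3 := QQ_pos (7 / 100 + s) z
  have h4 : exp (-(7 / 100) - (s + τ ^ 2) / 2) = exp (-(7 / 100) - s / 2) * exp (-(τ ^ 2 / 2)) := by
    rw [← exp_add]; congr 1; ring
  rw [h4, show 7 / 100 + (s + τ ^ 2) = 7 / 100 + s + τ ^ 2 by ring]
  calc exp (-(21 * τ ^ 2)) * (exp (-(7 / 100) - s / 2) * QQ (7 / 100 + s) z)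
      ≤ (exp (-(τ ^ 2 / 2)) * exp (-(20 * τ ^ 2))) *
        (exp (-(7 / 100) - s / 2) * QQ (7 / 100 + s) z) := by
        apply mul_le_mul_of_nonneg_right h2
        positivity
    _ = exp (-(7 / 100) - s / 2) * exp (-(τ ^ 2 / 2)) *
        (exp (-(20 * τ ^ 2)) * QQ (7 / 100 + s) z) := by ring
    _ ≤ _ := mul_le_mul_of_nonneg_left h1 (by positivity)

/-- pointwise killing budget -/
noncomputable def DD (τ z : ℝ) : ℝ :=
  (Iio 0).indicator (fun z => (21 * τ ^ 2 + 2 * ka τ) + Cc * exp z) z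
    + (Icc 0 (LL τ)).indicator (fun _ => (8 / 100 : ℝ)) z + 2 * exp (-|z|)
    + (Ioi (LL τ)).indicator (fun z => exp (-(z - LL τ))) z

lemma DD_low {z : ℝ} (hz : z < 0) :
    (21 * τ ^ 2 + 2 * ka τ) + Cc * exp z ≤ DD τ z := by
  unfold DD
  rw [indicator_of_mem (show z ∈ Iio 0 from hz)]
  have h1 : 0 ≤ (Icc 0 (LL τ)).indicator (fun _ => (8 / 100 : ℝ)) z :=
    indicator_nonneg (fun _ _ => by norm_num) _
  have h2 : 0 ≤ (Ioi (LL τ)).indicator (fun z => exp (-(z - LL τ))) z :=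
    indicator_nonneg (fun _ _ => (exp_pos _).le) _
  have h3 := exp_pos (-|z|)
  linarith

lemma DD_mid {z : ℝ} (hz : 0 ≤ z) (hz2 : z ≤ LL τ) : 8 / 100 + 2 * exp (-z) ≤ DD τ z := by
  unfold DD
  rw [indicator_of_mem (show z ∈ Icc 0 (LL τ) from ⟨hz, hz2⟩), abs_of_nonneg hz]
  have h1 : 0 ≤ (Iio 0).indicator (fun z => (21 * τ ^ 2 + 2 * ka τ) + Cc * exp z) z := by
    apply indicator_nonneg
    intro w _
    have := ka_pos (τ := τ)
    have := Cc_pos
    positivity
  have h2 : 0 ≤ (Ioi (LL τ)).indicator (fun z => exp (-(z - LL τ))) z :=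
    indicator_nonneg (fun _ _ => (exp_pos _).le) _
  linarith

lemma DD_high {z : ℝ} (hz : LL τ < z) : exp (-(z - LL τ)) ≤ DD τ z := by
  unfold DD
  rw [indicator_of_mem (show z ∈ Ioi (LL τ) from hz) (fun z => exp (-(z - LL τ)))]
  have h1 : 0 ≤ (Iio 0).indicator (fun z => (21 * τ ^ 2 + 2 * ka τ) + Cc * exp z) z := by
    apply indicator_nonneg
    intro w _
    have := ka_pos (τ := τ)
    have := Cc_pos
    positivity
  have h2 : 0 ≤ (Icc 0 (LL τ)).indicator (fun _ => (8 / 100 : ℝ)) z :=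
    indicator_nonneg (fun _ _ => by norm_num) _
  have h3 := exp_pos (-|z|)
  linarith

lemma gk_plateau : gk (exp (-(71 / 1000))) ≤ 8 / 100 := by
  unfold gk
  rw [← Real.exp_nat_mul, ← exp_neg]
  have h1 : -(((100:ℕ):ℝ) * -(71 / 1000)) = 71 / 10 := by norm_num
  rw [h1]
  have h2 : log (1 + exp (71 / 10)) ≤ 8 := by
    rw [log_le_iff_le_exp (by positivity)]
    have h3 : exp (8:ℝ) = exp (71 / 10) * exp (9 / 10) := by
      rw [← exp_add]; norm_num
    have h4 := add_one_le_exp (9 / 10 : ℝ)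
    have h5 := add_one_le_exp (71 / 10 : ℝ)
    rw [h3]
    nlinarith
  linarith

lemma window_jump (hτ : 0 < τ) (hτs : τ ^ 2 ≤ 1 / 4) (hκ : ka τ ≤ 1 / 2)
    (hsm : τ ^ 2 / 2 + 2 * ka τ ≤ 1 / 1000) {j : ℕ} (hj : j < n) (z : ℝ) :
    gk (WW τ n ((j + 1) * τ + τ ^ 4) z) - gk (WW τ n ((j + 1) * τ) z) ≤ DD τ z := by
  have hτ1 : τ ≤ 1 := by nlinarith
  set a := ((j:ℝ) + 1) * τ with ha
  set b := ((j:ℝ) + 1) * τ + τ ^ 4 with hb
  have hab : a ≤ b := by rw [ha, hb]; linarith [pow_pos hτ 4]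
  have ca : InCycle τ n j a := window_cycle hτ hτ1 hj le_rfl hab
  have cb : InCycle τ n j b := window_cycle hτ hτ1 hj hab le_rfl
  have hWa := WW_pos hτ n a z
  have hWb := WW_pos hτ n b z
  have tha : th τ j a = 0 := th_zero hτ le_rfl
  have thb : th τ j b = 1 := th_one hτ le_rfl
  have sja : sj τ j a = 0 := by unfold sj; rw [ha]; simp
  have hs : ∀ l, sj τ l b = sj τ l a + τ ^ 2 := by
    intro l
    unfold sj
    rw [hb, ← ha]
    field_simp
    ring
  have sjb : sj τ j b = τ ^ 2 := by rw [hs, sja]; ring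
  have hk1 := ka_lt_one hτ
  have hk0 := ka_pos (τ := τ)
  have hk2 := one_sub_ka hκ
  have hQb : (1 - ka τ) * hQ (τ ^ 2) z ≤ WW τ n b z := by
    rw [cb.WW_eq hτ hτ1, thb, sjb]
    have h1 := eta_pos hτ b
    have h2 : 0 ≤ ∑ l ∈ Finset.range j, (1 - ka τ) * hQ (sj τ l b) z :=
      Finset.sum_nonneg fun l _ => mul_nonneg (by linarith) (hQ_pos _ _).le
    have h3 : 0 < AA τ j b * exp z := mul_pos (cb.AA_pos hτ) (exp_pos _)
    linarith
  rcases lt_or_ge z 0 with hz | hz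
  · refine le_trans ?_ (DD_low hz)
    set x := 21 * τ ^ 2 + 2 * ka τ + Cc * exp z with hx
    have hCc := Cc_pos
    have hx0 : 0 ≤ x := by rw [hx]; positivity
    have key : exp (-x) * WW τ n a z ≤ WW τ n b z := by
      rw [ca.WW_eq hτ hτ1, cb.WW_eq hτ hτ1, tha, thb]
      have hAa : AA τ j a = 1 := by
        unfold AA
        rw [tha, sja]; simp
      rw [hAa, zero_mul, add_zero, one_mul, mul_add, mul_add]
      have k1 : exp (-x) * eta τ a ≤ eta τ b := by
        unfold eta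
        have h1 : exp (-(b / (2 * τ ^ 2))) = exp (-(a / (2 * τ ^ 2))) * exp (-(τ ^ 2 / 2)) := by
          rw [← exp_add]
          congr 1
          rw [hb, ← ha]
          field_simp
          ring
        rw [h1]
        have h2 : exp (-x) ≤ exp (-(τ ^ 2 / 2)) := by
          apply exp_le_exp.mpr
          have : 0 < Cc * exp z := mul_pos hCc (exp_pos _)
          rw [hx]
          nlinarith [sq_nonneg τ]
        have h3 : 0 < τ ^ 4 * exp (-(a / (2 * τ ^ 2))) := by positivity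
        calc exp (-x) * (τ ^ 4 * exp (-(a / (2 * τ ^ 2))))
            ≤ exp (-(τ ^ 2 / 2)) * (τ ^ 4 * exp (-(a / (2 * τ ^ 2)))) :=
              mul_le_mul_of_nonneg_right h2 h3.le
          _ = _ := by ring
      have k2 : exp (-x) * ∑ l ∈ Finset.range j, (1 - ka τ) * hQ (sj τ l a) z ≤
          ∑ l ∈ Finset.range j, (1 - ka τ) * hQ (sj τ l b) z := by
        rw [Finset.mul_sum]
        apply Finset.sum_le_sum
        intro l hl
        rw [Finset.mem_range] at hl
        have h0 : 0 ≤ sj τ l a := by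
          apply sj_nonneg hτ
          have h2 : ((l:ℝ) + 1) ≤ j := by exact_mod_cast hl
          rw [ha]
          nlinarith
        have h1 := hQ_shift (τ := τ) (z := z) h0
        rw [← hs] at h1
        have h2 : exp (-x) ≤ exp (-(21 * τ ^ 2)) := by
          apply exp_le_exp.mpr
          have : 0 < Cc * exp z := mul_pos hCc (exp_pos _)
          rw [hx]
          linarith
        have h3 := hQ_pos (sj τ l a) z
        have h4 : exp (-x) * hQ (sj τ l a) z ≤ hQ (sj τ l b) z :=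
          (mul_le_mul_of_nonneg_right h2 h3.le).trans h1
        have h5 : 0 < 1 - ka τ := by linarith
        calc exp (-x) * ((1 - ka τ) * hQ (sj τ l a) z) =
            (1 - ka τ) * (exp (-x) * hQ (sj τ l a) z) := by ring
          _ ≤ _ := mul_le_mul_of_nonneg_left h4 h5.le
      have k3 : exp (-x) * exp z ≤ (1 - ka τ) * hQ (sj τ j b) z := by
        rw [sjb]
        have h1 := hQ_front hτs hz.le
        have h2 : exp (-x) ≤ exp (-(2 * ka τ)) * exp (-(Cc * exp z)) := by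
          rw [← exp_add]
          apply exp_le_exp.mpr
          rw [hx]
          nlinarith [sq_nonneg τ]
        calc exp (-x) * exp z ≤ exp (-(2 * ka τ)) * exp (-(Cc * exp z)) * exp z :=
              mul_le_mul_of_nonneg_right h2 (exp_pos _).le
          _ = exp (-(2 * ka τ)) * (exp (-(Cc * exp z)) * exp z) := by ring
          _ ≤ _ := mul_le_mul hk2 h1 (by positivity) (by linarith)
      have k4 : 0 < AA τ j b * exp z := mul_pos (cb.AA_pos hτ) (exp_pos _)
      linarith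
    have := gk_scale hWa hx0 key
    linarith
  · have hga := gk_nonneg _ hWa
    rcases le_or_gt z (LL τ) with hz2 | hz2
    · refine le_trans ?_ (DD_mid hz hz2)
      have h1 := hQ_plateau hτs hz
      have h2 : exp (-(2 * exp (-z))) * exp (-(71 / 1000)) ≤ WW τ n b z := by
        refine le_trans ?_ hQb
        have h3 : exp (-(71 / 1000)) ≤ exp (-(2 * ka τ)) * exp (-(7 / 100) - τ ^ 2 / 2) := by
          rw [← exp_add]
          apply exp_le_exp.mpr
          linarith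
        calc exp (-(2 * exp (-z))) * exp (-(71 / 1000)) ≤ exp (-(2 * exp (-z))) *
              (exp (-(2 * ka τ)) * exp (-(7 / 100) - τ ^ 2 / 2)) :=
              mul_le_mul_of_nonneg_left h3 (exp_pos _).le
          _ = exp (-(2 * ka τ)) * (exp (-(7 / 100) - τ ^ 2 / 2) * exp (-(2 * exp (-z)))) := by ring
          _ ≤ _ := mul_le_mul hk2 h1 (by positivity) (by linarith)
      have h4 := gk_scale (exp_pos _) (by positivity) h2
      have h5 := gk_plateau
      linarith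
    · refine le_trans ?_ (DD_high hz2)
      have h1 := cb.W_ge_exp hτ hτ1 z
      have h2 := gk_anti (exp_pos _) h1
      have h3 := gk_le (exp_pos (z - LL τ))
      have h4 : (exp (z - LL τ) ^ 100)⁻¹ ≤ exp (-(z - LL τ)) := by
        rw [← Real.exp_nat_mul, ← exp_neg]
        apply exp_le_exp.mpr
        push_cast
        linarith
      linarith

/-- killing over one window -/
lemma window_total (hτ : 0 < τ) (hτs : τ ^ 2 ≤ 1 / 4) (hκ : ka τ ≤ 1 / 2)
    (hsm : τ ^ 2 / 2 + 2 * ka τ ≤ 1 / 1000) {j : ℕ} (hj : j < n) (z : ℝ) :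
    ∫⁻ t in Icc ((j + 1) * τ) ((j + 1) * τ + τ ^ 4), ENNReal.ofReal (kill τ n t z) ≤
      ENNReal.ofReal (DD τ z + τ ^ 2 / 2 * Mb (LL τ) z) := by
  have hτ1 : τ ≤ 1 := by nlinarith
  have h1 := window_int hτ hτ1 hj z
  have h2 := window_jump hτ hτs hκ hsm hj z
  have hck : Continuous fun t => kill τ n t z :=
    kill_cont hτ n continuous_id continuous_const
  have hab : ((j:ℝ) + 1) * τ ≤ ((j:ℝ) + 1) * τ + τ ^ 4 := by linarith [pow_pos hτ 4]
  rw [← ofReal_integral_eq_lintegral_ofReal (hck.integrableOn_Icc)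
    (Filter.Eventually.of_forall fun t => kill_nonneg hτ n t z)]
  apply ENNReal.ofReal_le_ofReal
  rw [integral_Icc_eq_integral_Ioc, ← intervalIntegral.integral_of_le hab]
  linarith

lemma kill_zero (hτ : 0 < τ) {t : ℝ} (z : ℝ)
    (h : ∀ j < n, t ∉ Icc (((j:ℝ) + 1) * τ) ((j + 1) * τ + τ ^ 4)) : kill τ n t z = 0 := by
  unfold kill
  have : KK τ n t z = 0 := by
    unfold KK
    apply Finset.sum_eq_zero
    intro j hj
    rw [Finset.mem_range] at hj
    have h1 := h j hj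
    rw [mem_Icc, not_and_or, not_le, not_le] at h1
    rcases h1 with h2 | h2
    · rw [dth_zero hτ h2.le]; simp
    · rw [dth_zero' hτ h2.le]; simp
  rw [this]
  simp

/-- killing over all windows -/
lemma kill_time (hτ : 0 < τ) (hτs : τ ^ 2 ≤ 1 / 4) (hκ : ka τ ≤ 1 / 2)
    (hsm : τ ^ 2 / 2 + 2 * ka τ ≤ 1 / 1000) (n : ℕ) (T : ℝ) (z : ℝ) :
    ∫⁻ t in Icc 0 T, ENNReal.ofReal (kill τ n t z) ≤
      n * ENNReal.ofReal (DD τ z + τ ^ 2 / 2 * Mb (LL τ) z) := by
  set S : ℕ → Set ℝ := fun j => Icc (((j:ℝ) + 1) * τ) ((j + 1) * τ + τ ^ 4) with hS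
  have hck : Continuous fun t => kill τ n t z :=
    kill_cont hτ n continuous_id continuous_const
  calc ∫⁻ t in Icc 0 T, ENNReal.ofReal (kill τ n t z)
      ≤ ∫⁻ t, ENNReal.ofReal (kill τ n t z) := setLIntegral_le_lintegral _ _
    _ ≤ ∫⁻ t, ∑ j ∈ Finset.range n, (S j).indicator (fun t => ENNReal.ofReal (kill τ n t z)) t := by
        apply lintegral_mono
        intro t
        simp only
        by_cases h : ∃ j < n, t ∈ S j
        · obtain ⟨j, hj, htj⟩ := h
          refine le_trans ?_ (Finset.single_le_sum (f := fun j =>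
            (S j).indicator (fun t => ENNReal.ofReal (kill τ n t z)) t)
            (fun _ _ => zero_le) (Finset.mem_range.mpr hj))
          rw [indicator_of_mem htj]
        · push Not at h
          rw [kill_zero hτ z h]
          simp
    _ = ∑ j ∈ Finset.range n, ∫⁻ t in S j, ENNReal.ofReal (kill τ n t z) := by
        rw [lintegral_finsetSum]
        · apply Finset.sum_congr rfl
          intro j _
          rw [lintegral_indicator measurableSet_Icc]
        · intro j _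
          exact (hck.measurable.ennreal_ofReal).indicator measurableSet_Icc
    _ ≤ ∑ j ∈ Finset.range n, ENNReal.ofReal (DD τ z + τ ^ 2 / 2 * Mb (LL τ) z) := by
        apply Finset.sum_le_sum
        intro j hj
        exact window_total hτ hτs hκ hsm (Finset.mem_range.mp hj) z
    _ = _ := by rw [Finset.sum_const, Finset.card_range, nsmul_eq_mul]

end Pool.Agent.Helper50.Ctrl
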