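import Pool.Agent.Helper50.Ctrl.Defs
import Pool.Agent.Helper50.Ctrl.Cycle

set_option autoImplicit false

namespace Pool.Agent.Helper50.Ctrl

open MeasureTheory Set Filter Topology

/-- `u` is a bounded classical solution, with control `α ≥ 0`, of
`u_t = f(u)/ε + ε Δu - α u` on `[0,T] × ℝ²`. -/
structure IsSolution (f : ℝ → ℝ) (ε T : ℝ) (u α : ℝ → ℝ → ℝ → ℝ) : Prop where
  range : ∀ t x y, u t x y ∈ Icc (0:ℝ) 1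
  nonneg : ∀ t x y, 0 ≤ α t x y
  cont : Continuous fun p : ℝ × ℝ × ℝ => α p.1 p.2.1 p.2.2
  eqn : ∃ ut ux uy uxx uyy : ℝ → ℝ → ℝ → ℝ,
    (∀ t x y, HasDerivAt (fun t => u t x y) (ut t x y) t) ∧
    (∀ t x y, HasDerivAt (fun x => u t x y) (ux t x y) x) ∧
    (∀ t x y, HasDerivAt (fun y => u t x y) (uy t x y) y) ∧
    (∀ t x y, HasDerivAt (fun x => ux t x y) (uxx t x y) x) ∧
    (∀ t x y, HasDerivAt (fun y => uy t x y) (uyy t x y) y) ∧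
    (Continuous fun p : ℝ × ℝ × ℝ => ut p.1 p.2.1 p.2.2) ∧
    (Continuous fun p : ℝ × ℝ × ℝ => ux p.1 p.2.1 p.2.2) ∧
    (Continuous fun p : ℝ × ℝ × ℝ => uy p.1 p.2.1 p.2.2) ∧
    (Continuous fun p : ℝ × ℝ × ℝ => uxx p.1 p.2.1 p.2.2) ∧
    (Continuous fun p : ℝ × ℝ × ℝ => uyy p.1 p.2.1 p.2.2) ∧
    ∀ t ∈ Icc 0 T, ∀ x y,
      ut t x y = f (u t x y) / ε + ε * (uxx t x y + uyy t x y) - α t x y * u t x y

/-- `N(w) = w (1 + w^100)^(-1/100)` -/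
noncomputable def NN (w : ℝ) : ℝ := w * (1 + w ^ 100) ^ (-(1 / 100) : ℝ)

/-- the control as a function of the values `W, E, Π, K` and the radius `ζ` -/
noncomputable def al (ε ζ W E P K : ℝ) : ℝ :=
  1 / (W * (1 + W ^ 100)) * (E * (1 / ζ - ε / ζ ^ 2 + ε ^ 2 / ζ ^ 3) + ε / ζ ^ 2 * P + K) +
    101 / ε * (W ^ 100 / (1 + W ^ 100) ^ 2) * (1 - (1 - ε ^ 2 / ζ ^ 2) * (E / W) ^ 2)

noncomputable def zt (ε x y : ℝ) : ℝ := √(x ^ 2 + y ^ 2 + ε ^ 2)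

noncomputable def uu (τ : ℝ) (n : ℕ) (t x y : ℝ) : ℝ :=
  NN (WW τ n t ((zt (τ ^ 2) x y - 1) / τ ^ 2))

noncomputable def aa (τ : ℝ) (n : ℕ) (t x y : ℝ) : ℝ :=
  al (τ ^ 2) (zt (τ ^ 2) x y) (WW τ n t ((zt (τ ^ 2) x y - 1) / τ ^ 2))
    (EE τ n t ((zt (τ ^ 2) x y - 1) / τ ^ 2)) (PI τ n t ((zt (τ ^ 2) x y - 1) / τ ^ 2))
    (KK τ n t ((zt (τ ^ 2) x y - 1) / τ ^ 2))

end Pool.Agent.Helper50.Ctrl
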