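import Mathlib

set_option autoImplicit false

namespace Pool.Agent.Helper50.Ctrl

open MeasureTheory Set Real

/-- The standard Gaussian density. -/
noncomputable def gph (t : ℝ) : ℝ := exp (-t ^ 2 / 2) / √(2 * π)

/-- The standard Gaussian distribution function. -/
noncomputable def gPh (x : ℝ) : ℝ := ∫ t in Iic x, gph t

lemma gph_pos (t : ℝ) : 0 < gph t := by unfold gph; positivity

lemma gph_cont : Continuous gph := by unfold gph; fun_prop

lemma gph_neg (t : ℝ) : gph (-t) = gph t := by unfold gph; simp

lemma gph_integrable : Integrable gph := by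
  have h := integrable_exp_neg_mul_sq (show (0:ℝ) < 1 / 2 by norm_num)
  unfold gph
  refine Integrable.div_const ?_ _
  refine h.congr (Filter.Eventually.of_forall fun x => ?_)
  simp only
  congr 1
  ring

lemma gph_integral : ∫ t, gph t = 1 := by
  unfold gph
  rw [integral_div]
  have h := integral_gaussian (1 / 2)
  have h2 : ∫ x : ℝ, exp (-x ^ 2 / 2) = √(2 * π) := by
    rw [show (2 * π) = π / (1 / 2) by ring, ← h]
    congr 1
    ext x
    congr 1
    ring
  rw [h2]
  have : √(2 * π) ≠ 0 := by positivity
  field_simp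

lemma gPh_sub (a b : ℝ) : gPh b - gPh a = ∫ t in a..b, gph t := by
  unfold gPh
  exact (intervalIntegral.integral_Iic_sub_Iic gph_integrable.integrableOn
    gph_integrable.integrableOn)

lemma gPh_hasDeriv (x : ℝ) : HasDerivAt gPh (gph x) x := by
  have h : ∀ y, gPh y = gPh 0 + ∫ t in (0:ℝ)..y, gph t := by
    intro y
    rw [← gPh_sub]; ring
  have h1 : HasDerivAt (fun y => gPh 0 + ∫ t in (0:ℝ)..y, gph t) (gph x) x := by
    refine HasDerivAt.const_add _ ?_
    exact intervalIntegral.integral_hasDerivAt_right
      (gph_cont.intervalIntegrable _ _) (gph_cont.stronglyMeasurableAtFilter _ _) gph_cont.continuousAt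
  exact h1.congr_of_eventuallyEq (Filter.Eventually.of_forall h)

lemma gPh_cont : Continuous gPh :=
  continuous_iff_continuousAt.mpr fun x => (gPh_hasDeriv x).continuousAt

lemma gPh_pos (x : ℝ) : 0 < gPh x := by
  unfold gPh
  have : 0 < ∫ t in Iic x, gph t := by
    rw [setIntegral_pos_iff_support_of_nonneg_ae]
    · have : Function.support gph ∩ Iic x = Iic x := by
        apply inter_eq_right.mpr
        intro t _
        exact (gph_pos t).ne'
      rw [this]
      simp
    · exact Filter.Eventually.of_forall fun t => (gph_pos t).le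
    · exact gph_integrable.integrableOn
  exact this

lemma gPh_add_neg (x : ℝ) : gPh x + gPh (-x) = 1 := by
  have h1 : gPh (-x) = ∫ t in Ioi x, gph t := by
    unfold gPh
    rw [← integral_comp_neg_Ioi]
    simp only [gph_neg]
  rw [h1, ← gph_integral]
  unfold gPh
  exact intervalIntegral.integral_Iic_add_Ioi gph_integrable.integrableOn
    gph_integrable.integrableOn

lemma gPh_lt_one (x : ℝ) : gPh x < 1 := by
  have h1 := gPh_add_neg x
  have h2 := gPh_pos (-x)
  linarith

lemma gPh_zero : gPh 0 = 1 / 2 := by
  have h1 := gPh_add_neg 0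
  rw [neg_zero] at h1
  linarith

lemma gPh_mono : Monotone gPh :=
  monotone_of_hasDerivAt_nonneg gPh_hasDeriv fun x => (gph_pos x).le

lemma gPh_ge_half {x : ℝ} (hx : 0 ≤ x) : 1 / 2 ≤ gPh x := by
  rw [← gPh_zero]; exact gPh_mono hx

lemma gph_le_exp (t : ℝ) : gph t ≤ exp t := by
  unfold gph
  rw [div_le_iff₀ (by positivity)]
  have h1 : exp (-t ^ 2 / 2) ≤ exp (t + 1 / 2) := by
    apply exp_le_exp.mpr
    nlinarith [sq_nonneg (t + 1)]
  have h2 : exp (1 / 2 : ℝ) ≤ √(2 * π) := by
    apply Real.le_sqrt_of_sq_le
    rw [← Real.exp_nat_mul]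
    have := Real.exp_one_lt_d9
    have := Real.pi_gt_three
    norm_num
    linarith
  rw [exp_add] at h1
  refine h1.trans ?_
  exact mul_le_mul_of_nonneg_left h2 (exp_pos t).le

lemma gPh_le_exp (x : ℝ) : gPh x ≤ exp x := by
  unfold gPh
  calc ∫ t in Iic x, gph t ≤ ∫ t in Iic x, exp t := by
        apply setIntegral_mono gph_integrable.integrableOn (integrableOn_exp_Iic x)
        intro t
        exact gph_le_exp t
    _ = exp x := integral_exp_Iic x

lemma gPh_tendsto_bot : Filter.Tendsto gPh Filter.atBot (nhds 0) :=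
  tendsto_of_tendsto_of_tendsto_of_le_of_le tendsto_const_nhds Real.tendsto_exp_atBot
    (fun x => (gPh_pos x).le) gPh_le_exp

lemma gph_shift (a s : ℝ) : exp (a * s + s ^ 2 / 2) * gph (a + s) = gph a := by
  unfold gph
  rw [mul_div_assoc', ← exp_add]
  congr 2
  ring

/-- Comparison of the distribution function at shifted points. -/
lemma gPh_shift {s : ℝ} (hs : 0 ≤ s) (a : ℝ) :
    gPh a ≤ exp (a * s + s ^ 2 / 2) * gPh (a + s) := by
  set D : ℝ → ℝ := fun a => exp (a * s + s ^ 2 / 2) * gPh (a + s) - gPh a with hD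
  have hder : ∀ a, HasDerivAt D (s * (exp (a * s + s ^ 2 / 2) * gPh (a + s))) a := by
    intro a
    have h1 : HasDerivAt (fun a : ℝ => exp (a * s + s ^ 2 / 2))
        (exp (a * s + s ^ 2 / 2) * s) a := by
      have h0 : HasDerivAt (fun a : ℝ => a * s + s ^ 2 / 2) s a := by
        have := ((hasDerivAt_id a).mul_const s).add_const (s ^ 2 / 2)
        simpa using this
      exact h0.exp
    have h2 : HasDerivAt (fun a : ℝ => gPh (a + s)) (gph (a + s)) a :=
      HasDerivAt.comp_add_const a s (gPh_hasDeriv (a + s))
    have h3 := (h1.mul h2).sub (gPh_hasDeriv a)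
    refine h3.congr_deriv ?_
    have := gph_shift a s
    linear_combination this
  have hmono : Monotone D := monotone_of_hasDerivAt_nonneg hder fun a => by
    have := gPh_pos (a + s)
    positivity
  have hlim : Filter.Tendsto D Filter.atBot (nhds 0) := by
    have h1 : Filter.Tendsto (fun a : ℝ => exp (a * s + s ^ 2 / 2) * gPh (a + s))
        Filter.atBot (nhds 0) := by
      refine tendsto_of_tendsto_of_tendsto_of_le_of_le tendsto_const_nhds
        (h := fun a : ℝ => exp (a * s + s ^ 2 / 2) * exp (a + s)) ?_ ?_ ?_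
      · have h4 : (fun a : ℝ => exp (a * s + s ^ 2 / 2) * exp (a + s)) =
            fun a : ℝ => exp ((s + 1) * a + (s ^ 2 / 2 + s)) := by
          ext a
          rw [← exp_add]
          congr 1
          ring
        rw [h4]
        apply Real.tendsto_exp_atBot.comp
        apply Filter.tendsto_atBot_add_const_right
        exact Filter.Tendsto.const_mul_atBot (by linarith) Filter.tendsto_id
      · intro a
        have := gPh_pos (a + s)
        positivity
      · intro a
        exact mul_le_mul_of_nonneg_left (gPh_le_exp _) (exp_pos _).le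
    have := h1.sub gPh_tendsto_bot
    simpa using this
  have : 0 ≤ D a := ge_of_tendsto' (x := Filter.atBot) (f := fun _ : ℝ => D a)
    tendsto_const_nhds (fun _ => by
      by_contra hneg
      push Not at hneg
      have h5 : ∀ᶠ x in Filter.atBot, D a < D x :=
        (Filter.Tendsto.eventually_const_lt hneg hlim)
      obtain ⟨x, hx1, hx2⟩ := (h5.and (Filter.eventually_le_atBot a)).exists
      exact absurd (hmono hx2) (not_le.mpr hx1))
  simp only [hD] at this
  linarith

/-- A Mills type lower bound. -/
lemma mills {y : ℝ} (hy : 0 ≤ y) : gph y * exp (-3 / 2) ≤ (1 + y) * gPh (-y) := by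
  set h : ℝ := 1 / (1 + y) with hh
  have hh0 : 0 < h := by positivity
  have hh1 : h ≤ 1 := by rw [hh, div_le_one (by positivity)]; linarith
  have hyh : y * h ≤ 1 := by
    rw [hh, mul_one_div, div_le_one (by positivity)]; linarith
  have h1 := gPh_sub (-y - h) (-y)
  have h2 : h * gph (y + h) ≤ ∫ t in (-y - h)..(-y), gph t := by
    have h3 : ∫ _t in (-y - h)..(-y), gph (y + h) = h * gph (y + h) := by
      rw [intervalIntegral.integral_const]
      simp
    rw [← h3]
    apply intervalIntegral.integral_mono_on (by linarith) (by simp)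
      (gph_cont.intervalIntegrable _ _)
    intro t ht
    obtain ⟨ht1, ht2⟩ := ht
    unfold gph
    apply div_le_div_of_nonneg_right _ (by positivity)
    apply exp_le_exp.mpr
    nlinarith
  have h4 := gPh_pos (-y - h)
  have h5 : gph y * exp (-3 / 2) ≤ gph (y + h) := by
    unfold gph
    rw [div_mul_eq_mul_div, ← exp_add]
    apply div_le_div_of_nonneg_right _ (by positivity)
    apply exp_le_exp.mpr
    nlinarith
  have h6 : h * (gph y * exp (-3 / 2)) ≤ gPh (-y) := by
    have := mul_le_mul_of_nonneg_left h5 hh0.le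
    linarith
  have h7 : (1 + y) * (h * (gph y * exp (-3 / 2))) = gph y * exp (-3 / 2) := by
    rw [hh]
    field_simp
  rw [← h7]
  exact mul_le_mul_of_nonneg_left h6 (by linarith)

lemma gph_le_one (t : ℝ) : gph t ≤ 1 / 2 := by
  unfold gph
  rw [div_le_iff₀ (by positivity)]
  have h1 : exp (-t ^ 2 / 2) ≤ 1 := by
    apply exp_le_one_iff.mpr
    nlinarith [sq_nonneg t]
  have h2 : (2 : ℝ) ≤ √(2 * π) := by
    apply Real.le_sqrt_of_sq_le
    have := Real.pi_gt_three
    norm_num
    linarith
  linarith

end Pool.Agent.Helper50.Ctrl
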