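import Mathlib

set_option autoImplicit false

namespace Pool.Agent.Helper50.Ctrl

open MeasureTheory Set Filter Topology
open scoped ENNReal

/-- weighted integral over the radial variable -/
noncomputable def II (ε : ℝ) (φ : ℝ → ℝ) : ℝ≥0∞ :=
  ∫⁻ z in Ioi (1 - 1 / ε), ENNReal.ofReal ((1 + ε * z) * φ z)

lemma wdom {ε : ℝ} (hε : 0 < ε) {z : ℝ} (hz : 1 - 1 / ε < z) : 0 < 1 + ε * z := by
  have h := mul_lt_mul_of_pos_left hz hε
  have : ε * (1 - 1 / ε) = ε - 1 := by field_simp
  linarith

lemma II_mono {ε : ℝ} (hε : 0 < ε) {φ ψ : ℝ → ℝ} (h : ∀ z, 1 - 1 / ε < z → φ z ≤ ψ z) :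
    II ε φ ≤ II ε ψ := by
  unfold II
  apply setLIntegral_mono' measurableSet_Ioi
  intro z hz
  exact ENNReal.ofReal_le_ofReal (mul_le_mul_of_nonneg_left (h z hz) (wdom hε hz).le)

lemma II_add {ε : ℝ} (hε : 0 < ε) {φ ψ : ℝ → ℝ} (hφ : Measurable φ) (h0 : ∀ z, 0 ≤ φ z)
    (h1 : ∀ z, 0 ≤ ψ z) : II ε (fun z => φ z + ψ z) = II ε φ + II ε ψ := by
  unfold II
  have m : Measurable fun z => ENNReal.ofReal ((1 + ε * z) * φ z) :=
    ((by fun_prop : Measurable fun z : ℝ => 1 + ε * z).mul hφ).ennreal_ofReal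
  rw [← lintegral_add_left m]
  apply setLIntegral_congr_fun measurableSet_Ioi
  intro z hz
  have h := (wdom hε hz).le
  simp only
  rw [mul_add, ENNReal.ofReal_add (mul_nonneg h (h0 z)) (mul_nonneg h (h1 z))]

lemma II_const_mul {ε : ℝ} {φ : ℝ → ℝ} (hφ : Measurable φ) {c : ℝ} (hc : 0 ≤ c) :
    II ε (fun z => c * φ z) = ENNReal.ofReal c * II ε φ := by
  unfold II
  have m : Measurable fun z => ENNReal.ofReal ((1 + ε * z) * φ z) :=
    ((by fun_prop : Measurable fun z : ℝ => 1 + ε * z).mul hφ).ennreal_ofReal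
  rw [← lintegral_const_mul _ m]
  congr 1
  ext z
  rw [← ENNReal.ofReal_mul hc]
  congr 1
  ring

lemma II_le_ind {ε c : ℝ} (hε : 0 < ε) {S : Set ℝ} (hS : MeasurableSet S) {g : ℝ → ℝ} {h : ℝ → ℝ}
    (hle : ∀ z ∈ S, 1 - 1 / ε < z → (1 + ε * z) * g z ≤ h z)
    (hi : IntegrableOn h (S ∩ Ioi (1 - 1 / ε)))
    (h0 : ∀ z ∈ S ∩ Ioi (1 - 1 / ε), 0 ≤ h z) (hint : ∫ z in S ∩ Ioi (1 - 1 / ε), h z ≤ c) :
    II ε (S.indicator g) ≤ ENNReal.ofReal c := by
  have hε' := hε
  unfold II
  have h1 : ∫⁻ z in Ioi (1 - 1 / ε), ENNReal.ofReal ((1 + ε * z) * S.indicator g z) ≤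
      ∫⁻ z in Ioi (1 - 1 / ε), S.indicator (fun z => ENNReal.ofReal (h z)) z := by
    apply setLIntegral_mono' measurableSet_Ioi
    intro z hz
    by_cases hz2 : z ∈ S
    · rw [indicator_of_mem hz2, indicator_of_mem hz2]
      exact ENNReal.ofReal_le_ofReal (hle z hz2 hz)
    · rw [indicator_of_notMem hz2, indicator_of_notMem hz2]
      simp
  refine h1.trans ?_
  rw [lintegral_indicator hS, Measure.restrict_restrict hS,
    ← ofReal_integral_eq_lintegral_ofReal hi]
  · exact ENNReal.ofReal_le_ofReal hint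
  · filter_upwards [ae_restrict_mem (hS.inter measurableSet_Ioi)] with z hz
    exact h0 z hz

lemma II_neg {ε : ℝ} (hε : 0 < ε) : II ε ((Iio 0).indicator fun _ => 1) ≤
    ENNReal.ofReal (1 / ε) := by
  have e : Iio (0:ℝ) ∩ Ioi (1 - 1 / ε) = Ioo (1 - 1 / ε) 0 := by
    ext z; simp [and_comm]
  refine II_le_ind hε measurableSet_Iio (h := fun _ => 1) ?_ ?_ (fun _ _ => zero_le_one) ?_
  · intro z hz _
    have hz : z < 0 := hz
    nlinarith
  · rw [e]
    exact integrableOn_const (by simp)
  · rw [e]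
    simp only [integral_const, MeasurableSet.univ, measureReal_restrict_apply, univ_inter,
      smul_eq_mul, mul_one]
    rw [Real.volume_real_Ioo]
    have h1 : 0 < 1 / ε := by positivity
    apply max_le
    · linarith
    · exact h1.le

lemma II_neg_exp {ε c : ℝ} (hε : 0 < ε) (hc : 0 < c) :
    II ε ((Iio 0).indicator fun z => Real.exp (z / c)) ≤ ENNReal.ofReal c := by
  have hi : IntegrableOn (fun z => Real.exp (z / c)) (Iic 0) := by
    have := integrableOn_exp_mul_Iic (show 0 < 1 / c by positivity) 0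
    refine this.congr_fun (fun z _ => ?_) measurableSet_Iic
    simp only
    congr 1
    ring
  refine II_le_ind hε measurableSet_Iio (h := fun z => Real.exp (z / c)) ?_ ?_
    (fun _ _ => (Real.exp_pos _).le) ?_
  · intro z hz _
    have hz : z < 0 := hz
    exact mul_le_of_le_one_left (Real.exp_pos (z / c)).le (by nlinarith)
  · exact hi.mono_set (inter_subset_left.trans Iio_subset_Iic_self)
  · calc ∫ z in Iio 0 ∩ Ioi (1 - 1 / ε), Real.exp (z / c)
        ≤ ∫ z in Iic 0, Real.exp (z / c) :=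
          setIntegral_mono_set hi (Eventually.of_forall fun _ => (Real.exp_pos _).le)
            (Eventually.of_forall (inter_subset_left.trans Iio_subset_Iic_self))
      _ = c := by
          have e : ∀ z : ℝ, Real.exp (z / c) = Real.exp (1 / c * z) := by
            intro z; congr 1; ring
          simp_rw [e]
          rw [integral_exp_mul_Iic (by positivity)]
          simp

lemma II_mid {ε L : ℝ} (hε : 0 < ε) (hL : 0 ≤ L) : II ε ((Icc 0 L).indicator fun _ => 1) ≤
    ENNReal.ofReal ((1 + ε * L) * L) := by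
  have hc : IntegrableOn (fun _ : ℝ => 1 + ε * L) (Icc 0 L) := integrableOn_const (by simp)
  refine II_le_ind hε measurableSet_Icc (h := fun _ => 1 + ε * L) ?_ ?_
    (fun _ _ => by positivity) ?_
  · intro z hz _
    have := hz.2
    nlinarith
  · exact hc.mono_set inter_subset_left
  · calc ∫ _z in Icc 0 L ∩ Ioi (1 - 1 / ε), (1 + ε * L)
        ≤ ∫ _z in Icc 0 L, (1 + ε * L) :=
          setIntegral_mono_set hc (Eventually.of_forall fun _ => by positivity)
            (Eventually.of_forall inter_subset_left)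
      _ = (1 + ε * L) * L := by
          simp only [integral_const, MeasurableSet.univ, measureReal_restrict_apply, univ_inter,
            smul_eq_mul]
          rw [Real.volume_real_Icc, sub_zero, max_eq_left hL, mul_comm]

lemma II_exp {ε L : ℝ} (hε : 0 < ε) (hL : 0 ≤ L) :
    II ε ((Ioi L).indicator fun z => Real.exp (-(z - L))) ≤ ENNReal.ofReal (1 + ε * L + ε) := by
  set G : ℝ → ℝ := fun z => -((1 + ε + ε * z) * Real.exp (-(z - L))) with hG
  have hd : ∀ z ∈ Ici L, HasDerivAt G ((1 + ε * z) * Real.exp (-(z - L))) z := by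
    intro z _
    have h1 : HasDerivAt (fun z : ℝ => 1 + ε + ε * z) ε z := by
      simpa using ((hasDerivAt_id z).const_mul ε).const_add (1 + ε)
    have h2 : HasDerivAt (fun z : ℝ => Real.exp (-(z - L))) (Real.exp (-(z - L)) * (-1)) z :=
      (((hasDerivAt_id z).sub_const L).neg).exp
    refine (h1.mul h2).neg.congr_deriv ?_
    ring
  have hlim : Tendsto G atTop (𝓝 0) := by
    have h1 : Tendsto (fun z : ℝ => z ^ 1 * Real.exp (-z)) atTop (𝓝 0) :=
      Real.tendsto_pow_mul_exp_neg_atTop_nhds_zero 1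
    have h2 : Tendsto (fun z : ℝ => z ^ 0 * Real.exp (-z)) atTop (𝓝 0) :=
      Real.tendsto_pow_mul_exp_neg_atTop_nhds_zero 0
    have h3 := ((h2.const_mul ((1 + ε) * Real.exp L)).add (h1.const_mul (ε * Real.exp L))).neg
    simp only [mul_zero, add_zero, neg_zero] at h3
    refine h3.congr (fun z => ?_)
    rw [hG]
    have : Real.exp (-(z - L)) = Real.exp L * Real.exp (-z) := by
      rw [← Real.exp_add]; congr 1; ring
    simp only
    rw [this]
    ring
  have hpos : ∀ z ∈ Ioi L, 0 ≤ (1 + ε * z) * Real.exp (-(z - L)) := by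
    intro z hz
    have hz : L < z := hz
    have : 0 ≤ z := by linarith
    positivity
  have hi := integrableOn_Ioi_deriv_of_nonneg' hd hpos hlim
  have hint := integral_Ioi_of_hasDerivAt_of_tendsto' hd hi hlim
  refine II_le_ind hε measurableSet_Ioi (h := fun z => (1 + ε * z) * Real.exp (-(z - L)))
    (fun z _ _ => le_rfl) (hi.mono_set inter_subset_left) (fun z hz => hpos z hz.1) ?_
  calc ∫ z in Ioi L ∩ Ioi (1 - 1 / ε), (1 + ε * z) * Real.exp (-(z - L))
      ≤ ∫ z in Ioi L, (1 + ε * z) * Real.exp (-(z - L)) := by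
        apply setIntegral_mono_set hi
        · filter_upwards [ae_restrict_mem measurableSet_Ioi] with z hz
          exact hpos z hz
        · exact Eventually.of_forall inter_subset_left
    _ = 1 + ε * L + ε := by
        rw [hint, hG]
        simp
        ring

lemma II_abs {ε L a : ℝ} (hε : 0 < ε) (hε1 : ε ≤ 1 / 2) (hL : ε * L ≤ 1) (ha : a ≤ L) :
    II ε (fun z => Real.exp (-|z - a|)) ≤ ENNReal.ofReal 8 := by
  have hp : ∀ z, (1 + ε * z) * Real.exp (-|z - a|) ≤ 2 * Real.exp (-(|z - a| / 2)) := by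
    intro z
    have h0 := abs_nonneg (z - a)
    have h1 : 1 + ε * z ≤ 2 + |z - a| / 2 := by
      have h2 : z - a ≤ |z - a| := le_abs_self _
      have h3 : ε * z = ε * a + ε * (z - a) := by ring
      have h4 : ε * a ≤ 1 := (mul_le_mul_of_nonneg_left ha hε.le).trans hL
      have h5 : ε * (z - a) ≤ 1 / 2 * |z - a| :=
        (mul_le_mul_of_nonneg_left h2 hε.le).trans (mul_le_mul_of_nonneg_right hε1 h0)
      linarith
    have h6 : 2 + |z - a| / 2 ≤ 2 * Real.exp (|z - a| / 2) := by
      have := Real.add_one_le_exp (|z - a| / 2)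
      linarith
    have h7 : Real.exp (-|z - a|) = Real.exp (-(|z - a| / 2)) * Real.exp (-(|z - a| / 2)) := by
      rw [← Real.exp_add]; congr 1; ring
    have h8 : Real.exp (|z - a| / 2) * Real.exp (-(|z - a| / 2)) = 1 := by
      rw [← Real.exp_add]; simp
    calc (1 + ε * z) * Real.exp (-|z - a|)
        ≤ (2 * Real.exp (|z - a| / 2)) * Real.exp (-|z - a|) :=
          mul_le_mul_of_nonneg_right (h1.trans h6) (Real.exp_pos _).le
      _ = 2 * (Real.exp (|z - a| / 2) * Real.exp (-(|z - a| / 2))) *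
          Real.exp (-(|z - a| / 2)) := by rw [h7]; ring
      _ = _ := by rw [h8]; ring
  unfold II
  refine (setLIntegral_le_lintegral _ _).trans ?_
  refine (lintegral_mono fun z => ENNReal.ofReal_le_ofReal (hp z)).trans ?_
  rw [← lintegral_add_compl _ (measurableSet_Iic (a := a)), compl_Iic]
  have b1 : ∫⁻ z in Iic a, ENNReal.ofReal (2 * Real.exp (-(|z - a| / 2))) ≤ ENNReal.ofReal 4 := by
    have hi : IntegrableOn (fun z => 2 * Real.exp (-(a / 2)) * Real.exp (1 / 2 * z)) (Iic a) :=
      (integrableOn_exp_mul_Iic (by norm_num) a).const_mul _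
    have h1 : ∫⁻ z in Iic a, ENNReal.ofReal (2 * Real.exp (-(|z - a| / 2))) ≤
        ∫⁻ z in Iic a, ENNReal.ofReal (2 * Real.exp (-(a / 2)) * Real.exp (1 / 2 * z)) := by
      apply setLIntegral_mono' measurableSet_Iic
      intro z hz
      have hz : z ≤ a := hz
      apply ENNReal.ofReal_le_ofReal
      rw [abs_of_nonpos (by linarith), mul_assoc, ← Real.exp_add]
      apply le_of_eq
      congr 2
      ring
    refine h1.trans ?_
    rw [← ofReal_integral_eq_lintegral_ofReal hi (Eventually.of_forall fun z => by positivity)]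
    apply ENNReal.ofReal_le_ofReal
    rw [integral_const_mul, integral_exp_mul_Iic (by norm_num)]
    have : Real.exp (-(a / 2)) * Real.exp (1 / 2 * a) = 1 := by
      rw [← Real.exp_add]
      have : -(a / 2) + 1 / 2 * a = 0 := by ring
      rw [this, Real.exp_zero]
    have e : 2 * Real.exp (-(a / 2)) * (Real.exp (1 / 2 * a) / (1 / 2)) =
        4 * (Real.exp (-(a / 2)) * Real.exp (1 / 2 * a)) := by ring
    rw [e, this]
    norm_num
  have b2 : ∫⁻ z in Ioi a, ENNReal.ofReal (2 * Real.exp (-(|z - a| / 2))) ≤ ENNReal.ofReal 4 := by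
    have hi : IntegrableOn (fun z => 2 * Real.exp (a / 2) * Real.exp (-(1 / 2) * z)) (Ioi a) :=
      (integrableOn_exp_mul_Ioi (by norm_num) a).const_mul _
    have h1 : ∫⁻ z in Ioi a, ENNReal.ofReal (2 * Real.exp (-(|z - a| / 2))) ≤
        ∫⁻ z in Ioi a, ENNReal.ofReal (2 * Real.exp (a / 2) * Real.exp (-(1 / 2) * z)) := by
      apply setLIntegral_mono' measurableSet_Ioi
      intro z hz
      have hz : a < z := hz
      apply ENNReal.ofReal_le_ofReal
      rw [abs_of_pos (by linarith), mul_assoc, ← Real.exp_add]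
      apply le_of_eq
      congr 2
      ring
    refine h1.trans ?_
    rw [← ofReal_integral_eq_lintegral_ofReal hi (Eventually.of_forall fun z => by positivity)]
    apply ENNReal.ofReal_le_ofReal
    rw [integral_const_mul, integral_exp_mul_Ioi (by norm_num)]
    have : Real.exp (a / 2) * Real.exp (-(1 / 2) * a) = 1 := by
      rw [← Real.exp_add]
      have : a / 2 + -(1 / 2) * a = 0 := by ring
      rw [this, Real.exp_zero]
    have e : 2 * Real.exp (a / 2) * (-Real.exp (-(1 / 2) * a) / -(1 / 2)) =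
        4 * (Real.exp (a / 2) * Real.exp (-(1 / 2) * a)) := by ring
    rw [e, this]
    norm_num
  calc _ ≤ ENNReal.ofReal 4 + ENNReal.ofReal 4 := add_le_add b1 b2
    _ = ENNReal.ofReal 8 := by
        rw [← ENNReal.ofReal_add (by norm_num) (by norm_num)]
        norm_num

end Pool.Agent.Helper50.Ctrl
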