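import Pool.Agent.Helper50.Ctrl.Kill
import Pool.Agent.Helper50.Ctrl.Weight
import Pool.Agent.Helper50.Ctrl.Radial

set_option autoImplicit false

namespace Pool.Agent.Helper50.Ctrl

open MeasureTheory Set Real
open scoped ENNReal

variable {τ : ℝ} {n i : ℕ} {t : ℝ}

/-- the control in the radial variable -/
noncomputable def ar (τ : ℝ) (n : ℕ) (t z : ℝ) : ℝ :=
  al (τ ^ 2) (1 + τ ^ 2 * z) (WW τ n t z) (EE τ n t z) (PI τ n t z) (KK τ n t z)

noncomputable def r1 (τ : ℝ) (n : ℕ) (t z : ℝ) : ℝ :=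
  (EE τ n t z / WW τ n t z) * (1 / (1 + WW τ n t z ^ 100))
noncomputable def r2 (τ : ℝ) (n : ℕ) (t z : ℝ) : ℝ :=
  121 * (τ ^ 2 / (1 + τ ^ 2 * z)) * (1 / (1 + WW τ n t z ^ 100))
noncomputable def r3 (τ : ℝ) (n : ℕ) (t z : ℝ) : ℝ :=
  (WW τ n t z - EE τ n t z) * WW τ n t z ^ 99 / (1 + WW τ n t z ^ 100) ^ 2

lemma dom_pos (hτ : 0 < τ) {z : ℝ} (hz : z ∈ Ioi (1 - 1 / τ ^ 2)) : τ ^ 2 < 1 + τ ^ 2 * z := by
  have h1 : 1 - 1 / τ ^ 2 < z := hz
  have h2 : 0 < τ ^ 2 := by positivity
  have h3 : τ ^ 2 * (1 - 1 / τ ^ 2) < τ ^ 2 * z := mul_lt_mul_of_pos_left h1 h2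
  have h4 : τ ^ 2 * (1 - 1 / τ ^ 2) = τ ^ 2 - 1 := by
    field_simp
  linarith

lemma ar_le (hτ : 0 < τ) {z : ℝ} (hz : z ∈ Ioi (1 - 1 / τ ^ 2)) :
    (1 + τ ^ 2 * z) * ar τ n t z ≤ (1 + τ ^ 2 * z) * kill τ n t z + (r1 τ n t z + r2 τ n t z
      + 202 / τ ^ 2 * ((1 + τ ^ 2 * z) * r3 τ n t z)) := by
  have h := dom_pos hτ hz
  have h1 := al_bound (ε := τ ^ 2) (ζ := 1 + τ ^ 2 * z) (W := WW τ n t z) (E := EE τ n t z)
    (P := PI τ n t z) (K := KK τ n t z) (by positivity) h.le (WW_pos hτ n t z)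
    (EE_pos hτ n t z).le (EE_le_WW hτ n t z) (PI_le hτ n t z)
  unfold ar r1 r2 r3 kill
  linarith

noncomputable def f1 (τ b D : ℝ) (t z : ℝ) : ℝ :=
  (Iic (-b)).indicator (fun z => D * exp (z + t / τ ^ 2)) z + (Ioi (-b)).indicator (Mb (LL τ)) z

noncomputable def f2 (τ z : ℝ) : ℝ :=
  121 * (τ * Mb (LL τ) z + (Iic ((τ - 1) / τ ^ 2)).indicator (fun _ => (1:ℝ)) z)

noncomputable def f3 (τ x σ a z : ℝ) : ℝ :=
  (τ ^ 4 + ka τ) * Mb (LL τ) z
      + (Iic (LL τ)).indicator (fun z => 3 * x ^ 100 * E1 σ z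
          + C2 * x * (τ ^ 4 + ka τ)) z
      + C2 * x * exp (-|z - a|)

lemma InCycle.r1_le (h : InCycle τ n i t) (hτ : 0 < τ) (hτ1 : τ ≤ 1) (b z : ℝ) :
    r1 τ n t z ≤ f1 τ b ((i + 1) / τ ^ 4) t z := by
  have hq := h.q_le hτ hτ1 z
  have hW := WW_pos hτ n t z
  have hE := EE_pos hτ n t z
  have hEW := EE_le_WW hτ n t z
  have hD : 0 < WW τ n t z ^ 100 := pow_pos hW 100
  have hM := Mb_nonneg (LL τ) z
  have hew : EE τ n t z / WW τ n t z ≤ 1 := (div_le_one hW).mpr hEW
  have hew0 : 0 < EE τ n t z / WW τ n t z := div_pos hE hW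
  have hq1 : 1 / (1 + WW τ n t z ^ 100) ≤ 1 := by
    rw [div_le_one (by linarith)]; linarith
  have hq0 : 0 < 1 / (1 + WW τ n t z ^ 100) := by
    apply div_pos one_pos; linarith
  unfold r1 f1
  rcases le_or_gt z (-b) with hz | hz
  · rw [indicator_of_mem (show z ∈ Iic (-b) from hz),
      indicator_of_notMem (show z ∉ Ioi (-b) from by simpa using hz), add_zero]
    have h1 := h.EE_le hτ hτ1 z
    have h2 := eta_le_F hτ n t z
    have h3 : eta τ t ≤ WW τ n t z := by linarith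
    have h4 := eta_pos hτ t
    have h5 : EE τ n t z / WW τ n t z ≤ (i + 1) * exp (z + t / (2 * τ ^ 2)) / eta τ t := by
      apply div_le_div₀ (by positivity) h1 h4 h3
    have h6 : (i + 1) * exp (z + t / (2 * τ ^ 2)) / eta τ t =
        (i + 1) / τ ^ 4 * exp (z + t / τ ^ 2) := by
      unfold eta
      have h7 : exp (z + t / τ ^ 2) = exp (z + t / (2 * τ ^ 2)) * exp (t / (2 * τ ^ 2)) := by
        rw [← exp_add]
        congr 1
        field_simp
        ring
      rw [h7, exp_neg]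
      field_simp
    rw [h6] at h5
    calc EE τ n t z / WW τ n t z * (1 / (1 + WW τ n t z ^ 100))
        ≤ EE τ n t z / WW τ n t z * 1 := mul_le_mul_of_nonneg_left hq1 hew0.le
      _ ≤ _ := by rw [mul_one]; exact h5
  · rw [indicator_of_notMem (show z ∉ Iic (-b) from by simpa using hz),
      indicator_of_mem (show z ∈ Ioi (-b) from hz), zero_add]
    calc EE τ n t z / WW τ n t z * (1 / (1 + WW τ n t z ^ 100))
        ≤ 1 * (1 / (1 + WW τ n t z ^ 100)) := mul_le_mul_of_nonneg_right hew hq0.le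
      _ ≤ _ := by rw [one_mul]; exact hq

lemma InCycle.r2_le (h : InCycle τ n i t) (hτ : 0 < τ) (hτ1 : τ ≤ 1) {z : ℝ}
    (hz : z ∈ Ioi (1 - 1 / τ ^ 2)) :
    r2 τ n t z ≤ f2 τ z := by
  have hq := h.q_le hτ hτ1 z
  have hW := WW_pos hτ n t z
  have hD : 0 < WW τ n t z ^ 100 := pow_pos hW 100
  have hM := Mb_nonneg (LL τ) z
  have hq1 : 1 / (1 + WW τ n t z ^ 100) ≤ 1 := by
    rw [div_le_one (by linarith)]; linarith
  have hq0 : 0 < 1 / (1 + WW τ n t z ^ 100) := by
    apply div_pos one_pos; linarith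
  have hζ := dom_pos hτ hz
  have hε : 0 < τ ^ 2 := by positivity
  have hζ0 : 0 < 1 + τ ^ 2 * z := hε.trans hζ
  unfold r2 f2
  rw [mul_assoc]
  apply mul_le_mul_of_nonneg_left _ (by norm_num)
  rcases le_or_gt z ((τ - 1) / τ ^ 2) with h1 | h1
  · rw [indicator_of_mem (show z ∈ Iic ((τ - 1) / τ ^ 2) from h1)]
    have h2 : τ ^ 2 / (1 + τ ^ 2 * z) ≤ 1 := by
      rw [div_le_one hζ0]; exact hζ.le
    have h3 : τ ^ 2 / (1 + τ ^ 2 * z) * (1 / (1 + WW τ n t z ^ 100)) ≤ 1 * 1 :=
      mul_le_mul h2 hq1 hq0.le (by norm_num)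
    have : 0 ≤ τ * Mb (LL τ) z := by positivity
    linarith
  · rw [indicator_of_notMem (show z ∉ Iic ((τ - 1) / τ ^ 2) from by simpa using h1), add_zero]
    have h2 : τ ^ 2 / (1 + τ ^ 2 * z) ≤ τ := by
      rw [div_le_iff₀ hζ0]
      rw [div_lt_iff₀ hε] at h1
      have h3 : τ ≤ 1 + τ ^ 2 * z := by linarith
      calc τ ^ 2 = τ * τ := by ring
        _ ≤ τ * (1 + τ ^ 2 * z) := mul_le_mul_of_nonneg_left h3 hτ.le
    exact mul_le_mul h2 hq hq0.le hτ.le

lemma InCycle.r3_le (h : InCycle τ n i t) (hτ : 0 < τ) (hτ1 : τ ≤ 1)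
    (hδ : τ ^ 4 + ka τ ≤ 1) (z : ℝ) :
    r3 τ n t z ≤ f3 τ (xx τ i t) (sg (sj τ i t)) (-log (AA τ i t)) z :=
  h.diff_le hτ hτ1 hδ z

lemma J_Mb {L b : ℝ} (hL : 0 ≤ L) (hb : 0 ≤ b) :
    ∫⁻ z in Ioi (-b), ENNReal.ofReal (Mb L z) ≤ ENNReal.ofReal (b + L + 1) := by
  have h1 : ∫⁻ z in Ioi (-b), ENNReal.ofReal ((Iio 0).indicator (fun _ => (1:ℝ)) z) ≤
      ENNReal.ofReal b := by
    have e : ∀ z, ENNReal.ofReal ((Iio 0).indicator (fun _ => (1:ℝ)) z) =
        (Iio (0:ℝ)).indicator (fun _ => (1:ℝ≥0∞)) z := by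
      intro z
      by_cases h : z ∈ Iio (0:ℝ)
      · rw [indicator_of_mem h, indicator_of_mem h]; simp
      · rw [indicator_of_notMem h, indicator_of_notMem h]; simp
    simp_rw [e]
    rw [lintegral_indicator measurableSet_Iio, Measure.restrict_restrict measurableSet_Iio,
      setLIntegral_one]
    have : (Iio (0:ℝ)) ∩ Ioi (-b) = Ioo (-b) 0 := by
      ext z; simp [and_comm]
    rw [this, Real.volume_Ioo]
    simp
  have h2 : ∫⁻ z in Ioi (-b), ENNReal.ofReal ((Icc 0 L).indicator (fun _ => (1:ℝ)) z) ≤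
      ENNReal.ofReal L := by
    refine (setLIntegral_le_lintegral _ _).trans ?_
    have e : ∀ z, ENNReal.ofReal ((Icc 0 L).indicator (fun _ => (1:ℝ)) z) =
        (Icc (0:ℝ) L).indicator (fun _ => (1:ℝ≥0∞)) z := by
      intro z
      by_cases h : z ∈ Icc (0:ℝ) L
      · rw [indicator_of_mem h, indicator_of_mem h]; simp
      · rw [indicator_of_notMem h, indicator_of_notMem h]; simp
    simp_rw [e]
    rw [lintegral_indicator measurableSet_Icc, setLIntegral_one, Real.volume_Icc]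
    simp
  have h3 : ∫⁻ z in Ioi (-b), ENNReal.ofReal ((Ioi L).indicator (fun z => exp (-(z - L))) z) ≤
      ENNReal.ofReal 1 := by
    refine (setLIntegral_le_lintegral _ _).trans ?_
    have e : ∀ z, ENNReal.ofReal ((Ioi L).indicator (fun z => exp (-(z - L))) z) =
        (Ioi L).indicator (fun z => ENNReal.ofReal (exp (-(z - L)))) z := by
      intro z
      by_cases h : z ∈ Ioi L
      · rw [indicator_of_mem h, indicator_of_mem h]
      · rw [indicator_of_notMem h, indicator_of_notMem h]; simp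
    simp_rw [e]
    rw [lintegral_indicator measurableSet_Ioi]
    have hi : IntegrableOn (fun z => exp (-(z - L))) (Ioi L) := by
      have : IntegrableOn (fun z => exp L * exp (-z)) (Ioi L) :=
        (integrableOn_exp_neg_Ioi L).const_mul (exp L)
      refine this.congr_fun (fun z _ => ?_) measurableSet_Ioi
      simp only
      rw [← exp_add]; congr 1; ring
    rw [← ofReal_integral_eq_lintegral_ofReal hi
      (Filter.Eventually.of_forall fun z => (exp_pos _).le)]
    apply ENNReal.ofReal_le_ofReal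
    have : ∫ z in Ioi L, exp (-(z - L)) = exp L * ∫ z in Ioi L, exp (-z) := by
      rw [← integral_const_mul]
      congr 1
      ext z
      rw [← exp_add]; congr 1; ring
    rw [this, integral_exp_neg_Ioi, ← exp_add]
    simp
  calc ∫⁻ z in Ioi (-b), ENNReal.ofReal (Mb L z)
      = ∫⁻ z in Ioi (-b), ((ENNReal.ofReal ((Iio 0).indicator (fun _ => (1:ℝ)) z) +
        ENNReal.ofReal ((Icc 0 L).indicator (fun _ => (1:ℝ)) z)) +
        ENNReal.ofReal ((Ioi L).indicator (fun z => exp (-(z - L))) z)) := by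
        apply lintegral_congr
        intro z
        unfold Mb
        rw [ENNReal.ofReal_add, ENNReal.ofReal_add]
        · exact indicator_nonneg (fun _ _ => by norm_num) _
        · exact indicator_nonneg (fun _ _ => by norm_num) _
        · exact add_nonneg (indicator_nonneg (fun _ _ => by norm_num) _)
            (indicator_nonneg (fun _ _ => by norm_num) _)
        · exact indicator_nonneg (fun _ _ => (exp_pos _).le) _
    _ ≤ ENNReal.ofReal b + ENNReal.ofReal L + ENNReal.ofReal 1 := by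
        rw [lintegral_add_left, lintegral_add_left]
        · exact add_le_add (add_le_add h1 h2) h3
        · exact (measurable_const.indicator measurableSet_Iio).ennreal_ofReal
        · exact ((measurable_const.indicator measurableSet_Iio).ennreal_ofReal).add
            (measurable_const.indicator measurableSet_Icc).ennreal_ofReal
    _ = ENNReal.ofReal (b + L + 1) := by
        rw [← ENNReal.ofReal_add hb hL, ← ENNReal.ofReal_add (by linarith) (by norm_num)]

lemma J_f1 {b D : ℝ} (hτ : 0 < τ) (hb : 0 ≤ b) (hD : 0 ≤ D) (t : ℝ) :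
    ∫⁻ z in Ioi (1 - 1 / τ ^ 2), ENNReal.ofReal (f1 τ b D t z) ≤
      ENNReal.ofReal (D * exp (-b + t / τ ^ 2) + (b + LL τ + 1)) := by
  refine (setLIntegral_le_lintegral _ _).trans ?_
  have h1 : ∫⁻ z, ENNReal.ofReal ((Iic (-b)).indicator (fun z => D * exp (z + t / τ ^ 2)) z) ≤
      ENNReal.ofReal (D * exp (-b + t / τ ^ 2)) := by
    have e : ∀ z, ENNReal.ofReal ((Iic (-b)).indicator (fun z => D * exp (z + t / τ ^ 2)) z) =
        (Iic (-b)).indicator (fun z => ENNReal.ofReal (D * exp (z + t / τ ^ 2))) z := by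
      intro z
      by_cases h : z ∈ Iic (-b)
      · rw [indicator_of_mem h, indicator_of_mem h]
      · rw [indicator_of_notMem h, indicator_of_notMem h]; simp
    simp_rw [e]
    rw [lintegral_indicator measurableSet_Iic]
    have hi : IntegrableOn (fun z => D * exp (z + t / τ ^ 2)) (Iic (-b)) := by
      have : IntegrableOn (fun z => D * exp (t / τ ^ 2) * exp z) (Iic (-b)) :=
        (integrableOn_exp_Iic (-b)).const_mul (D * exp (t / τ ^ 2))
      refine this.congr_fun (fun z _ => ?_) measurableSet_Iic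
      simp only
      rw [exp_add]; ring
    rw [← ofReal_integral_eq_lintegral_ofReal hi
      (Filter.Eventually.of_forall fun z => mul_nonneg hD (exp_pos _).le)]
    apply ENNReal.ofReal_le_ofReal
    have : ∫ z in Iic (-b), D * exp (z + t / τ ^ 2) =
        D * exp (t / τ ^ 2) * ∫ z in Iic (-b), exp z := by
      rw [← integral_const_mul]
      congr 1
      ext z
      rw [exp_add]; ring
    rw [this, integral_exp_Iic, exp_add]
    apply le_of_eq
    ring
  have h2 : ∫⁻ z, ENNReal.ofReal ((Ioi (-b)).indicator (Mb (LL τ)) z) ≤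
      ENNReal.ofReal (b + LL τ + 1) := by
    have e : ∀ z, ENNReal.ofReal ((Ioi (-b)).indicator (Mb (LL τ)) z) =
        (Ioi (-b)).indicator (fun z => ENNReal.ofReal (Mb (LL τ) z)) z := by
      intro z
      by_cases h : z ∈ Ioi (-b)
      · rw [indicator_of_mem h, indicator_of_mem h]
      · rw [indicator_of_notMem h, indicator_of_notMem h]; simp
    simp_rw [e]
    rw [lintegral_indicator measurableSet_Ioi]
    exact J_Mb (LL_pos hτ).le hb
  calc ∫⁻ z, ENNReal.ofReal (f1 τ b D t z)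
      = ∫⁻ z, (ENNReal.ofReal ((Iic (-b)).indicator (fun z => D * exp (z + t / τ ^ 2)) z) +
        ENNReal.ofReal ((Ioi (-b)).indicator (Mb (LL τ)) z)) := by
        apply lintegral_congr
        intro z
        unfold f1
        rw [ENNReal.ofReal_add]
        · exact indicator_nonneg (fun _ _ => mul_nonneg hD (exp_pos _).le) _
        · exact indicator_nonneg (fun _ _ => Mb_nonneg _ _) _
    _ ≤ ENNReal.ofReal (D * exp (-b + t / τ ^ 2)) + ENNReal.ofReal (b + LL τ + 1) := by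
        rw [lintegral_add_left]
        · exact add_le_add h1 h2
        · exact ((Measurable.indicator (by fun_prop) measurableSet_Iic)).ennreal_ofReal
    _ = _ := by
        rw [← ENNReal.ofReal_add (by positivity) (by have := LL_pos hτ; linarith)]

lemma J_f2 (hτ : 0 < τ) (hτ1 : τ ≤ 1) :
    ∫⁻ z in Ioi (1 - 1 / τ ^ 2), ENNReal.ofReal (f2 τ z) ≤
      ENNReal.ofReal (121 * (τ * (1 / τ ^ 2 + LL τ) + 1 / τ)) := by
  have hL := LL_pos hτ
  have hε1 : 1 ≤ 1 / τ ^ 2 := by
    rw [le_div_iff₀ (by positivity)]; nlinarith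
  have h1 : ∫⁻ z in Ioi (1 - 1 / τ ^ 2), ENNReal.ofReal (Mb (LL τ) z) ≤
      ENNReal.ofReal (1 / τ ^ 2 + LL τ) := by
    have := J_Mb (L := LL τ) (b := 1 / τ ^ 2 - 1) hL.le (by linarith)
    rw [neg_sub] at this
    refine this.trans (ENNReal.ofReal_le_ofReal (by linarith))
  have h2 : ∫⁻ z in Ioi (1 - 1 / τ ^ 2), ENNReal.ofReal
      ((Iic ((τ - 1) / τ ^ 2)).indicator (fun _ => (1:ℝ)) z) ≤ ENNReal.ofReal (1 / τ) := by
    have e : ∀ z, ENNReal.ofReal ((Iic ((τ - 1) / τ ^ 2)).indicator (fun _ => (1:ℝ)) z) =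
        (Iic ((τ - 1) / τ ^ 2)).indicator (fun _ => (1:ℝ≥0∞)) z := by
      intro z
      by_cases h : z ∈ Iic ((τ - 1) / τ ^ 2)
      · rw [indicator_of_mem h, indicator_of_mem h]; simp
      · rw [indicator_of_notMem h, indicator_of_notMem h]; simp
    simp_rw [e]
    rw [lintegral_indicator measurableSet_Iic, Measure.restrict_restrict measurableSet_Iic,
      setLIntegral_one]
    have : (Iic ((τ - 1) / τ ^ 2)) ∩ Ioi (1 - 1 / τ ^ 2) =
        Ioc (1 - 1 / τ ^ 2) ((τ - 1) / τ ^ 2) := by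
      ext z; simp [and_comm]
    rw [this, Real.volume_Ioc]
    apply ENNReal.ofReal_le_ofReal
    have : (τ - 1) / τ ^ 2 - (1 - 1 / τ ^ 2) = 1 / τ - 1 := by
      field_simp
      ring
    rw [this]
    linarith
  calc ∫⁻ z in Ioi (1 - 1 / τ ^ 2), ENNReal.ofReal (f2 τ z)
      = ∫⁻ z in Ioi (1 - 1 / τ ^ 2), ENNReal.ofReal 121 * (ENNReal.ofReal τ *
        ENNReal.ofReal (Mb (LL τ) z) +
        ENNReal.ofReal ((Iic ((τ - 1) / τ ^ 2)).indicator (fun _ => (1:ℝ)) z)) := by
        apply lintegral_congr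
        intro z
        unfold f2
        rw [ENNReal.ofReal_mul (by norm_num), ENNReal.ofReal_add, ENNReal.ofReal_mul hτ.le]
        · exact mul_nonneg hτ.le (Mb_nonneg _ _)
        · exact indicator_nonneg (fun _ _ => by norm_num) _
    _ = ENNReal.ofReal 121 * (ENNReal.ofReal τ *
        (∫⁻ z in Ioi (1 - 1 / τ ^ 2), ENNReal.ofReal (Mb (LL τ) z)) +
        ∫⁻ z in Ioi (1 - 1 / τ ^ 2), ENNReal.ofReal
          ((Iic ((τ - 1) / τ ^ 2)).indicator (fun _ => (1:ℝ)) z)) := by
        have m1 : Measurable fun z => ENNReal.ofReal (Mb (LL τ) z) := (Mb_meas _).ennreal_ofReal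
        have m2 : Measurable fun z => ENNReal.ofReal
          ((Iic ((τ - 1) / τ ^ 2)).indicator (fun _ => (1:ℝ)) z) :=
          (measurable_const.indicator measurableSet_Iic).ennreal_ofReal
        have m3 : Measurable fun z => ENNReal.ofReal τ * ENNReal.ofReal (Mb (LL τ) z) +
            ENNReal.ofReal ((Iic ((τ - 1) / τ ^ 2)).indicator (fun _ => (1:ℝ)) z) :=
          (m1.const_mul _).add m2
        rw [lintegral_const_mul _ m3, lintegral_add_left (m1.const_mul _),
          lintegral_const_mul _ m1]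
    _ ≤ ENNReal.ofReal 121 * (ENNReal.ofReal τ * ENNReal.ofReal (1 / τ ^ 2 + LL τ) +
        ENNReal.ofReal (1 / τ)) := by gcongr
    _ = _ := by
        rw [← ENNReal.ofReal_mul hτ.le, ← ENNReal.ofReal_add (by positivity) (by positivity),
          ← ENNReal.ofReal_mul (by norm_num)]

end Pool.Agent.Helper50.Ctrl
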