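import Mathlib

set_option autoImplicit false

namespace Pool.Agent.Helper50.Ctrl

open MeasureTheory Set Real

/-- density of the smooth step -/
noncomputable def sd (x : ℝ) : ℝ := 6 * max 0 (x * (1 - x))

/-- a `C¹` step function: `0` for `x ≤ 0`, `1` for `x ≥ 1`. -/
noncomputable def sS (x : ℝ) : ℝ := ∫ y in (0:ℝ)..x, sd y

lemma sd_cont : Continuous sd := by unfold sd; fun_prop

lemma sd_nonneg (x : ℝ) : 0 ≤ sd x := by unfold sd; positivity

lemma sd_zero_left {x : ℝ} (h : x ≤ 0) : sd x = 0 := by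
  unfold sd
  rw [max_eq_left (by nlinarith)]
  ring

lemma sd_zero_right {x : ℝ} (h : 1 ≤ x) : sd x = 0 := by
  unfold sd
  rw [max_eq_left (by nlinarith)]
  ring

lemma sS_deriv (x : ℝ) : HasDerivAt sS (sd x) x :=
  intervalIntegral.integral_hasDerivAt_right
    (sd_cont.intervalIntegrable _ _) (sd_cont.stronglyMeasurableAtFilter _ _)
    sd_cont.continuousAt

lemma sS_cont : Continuous sS :=
  continuous_iff_continuousAt.mpr fun x => (sS_deriv x).continuousAt

lemma sS_mono : Monotone sS := monotone_of_hasDerivAt_nonneg sS_deriv fun x => sd_nonneg x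

lemma sS_left {x : ℝ} (h : x ≤ 0) : sS x = 0 := by
  unfold sS
  rw [intervalIntegral.integral_symm, neg_eq_zero]
  have : ∫ y in x..(0:ℝ), sd y = ∫ y in x..(0:ℝ), (0:ℝ) := by
    apply intervalIntegral.integral_congr
    intro y hy
    rw [uIcc_of_le h] at hy
    exact sd_zero_left hy.2
  rw [this]
  simp

lemma sS_one : sS 1 = 1 := by
  unfold sS
  have h1 : ∫ y in (0:ℝ)..1, sd y = ∫ y in (0:ℝ)..1, (6 * y - 6 * y ^ 2) := by
    apply intervalIntegral.integral_congr
    intro y hy
    rw [uIcc_of_le (by norm_num)] at hy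
    unfold sd
    simp only
    rw [max_eq_right (mul_nonneg hy.1 (by linarith [hy.2]))]
    ring
  rw [h1]
  have h2 : ∀ y : ℝ, HasDerivAt (fun y : ℝ => 3 * y ^ 2 - 2 * y ^ 3) (6 * y - 6 * y ^ 2) y := by
    intro y
    have := ((hasDerivAt_pow 2 y).const_mul 3).sub ((hasDerivAt_pow 3 y).const_mul 2)
    refine this.congr_deriv ?_
    norm_num
    ring
  rw [intervalIntegral.integral_eq_sub_of_hasDerivAt (fun y _ => h2 y)]
  · norm_num
  · apply Continuous.intervalIntegrable
    fun_prop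

lemma sS_right {x : ℝ} (h : 1 ≤ x) : sS x = 1 := by
  have h1 : sS x = sS 1 + ∫ y in (1:ℝ)..x, sd y := by
    unfold sS
    rw [intervalIntegral.integral_add_adjacent_intervals
      (sd_cont.intervalIntegrable _ _) (sd_cont.intervalIntegrable _ _)]
  have : ∫ y in (1:ℝ)..x, sd y = ∫ y in (1:ℝ)..x, (0:ℝ) := by
    apply intervalIntegral.integral_congr
    intro y hy
    rw [uIcc_of_le h] at hy
    exact sd_zero_right hy.1
  rw [h1, this, sS_one]
  simp

lemma sS_nonneg (x : ℝ) : 0 ≤ sS x := by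
  rcases le_or_gt x 0 with h | h
  · rw [sS_left h]
  · rw [← sS_left (le_refl (0:ℝ))]
    exact sS_mono h.le

lemma sS_le_one (x : ℝ) : sS x ≤ 1 := by
  rcases le_or_gt 1 x with h | h
  · rw [sS_right h]
  · rw [← sS_one]
    exact sS_mono h.le

/-- Product rule at a point where the first factor vanishes to first order. -/
lemma hasDerivAt_mul_zero {θ g : ℝ → ℝ} {t : ℝ} (h : HasDerivAt θ 0 t) (h0 : θ t = 0)
    (hg : ContinuousAt g t) : HasDerivAt (fun t => θ t * g t) 0 t := by
  rw [hasDerivAt_iff_isLittleO] at h ⊢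
  simp only [h0, zero_mul, sub_zero, smul_zero] at h ⊢
  have h1 := h.mul_isBigO (hg.isBigO_one ℝ)
  simpa using h1

end Pool.Agent.Helper50.Ctrl
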