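import Pool.Agent.Helper50.Ctrl.Heat
import Pool.Agent.Helper50.Ctrl.Step

set_option autoImplicit false

namespace Pool.Agent.Helper50.Ctrl

open MeasureTheory Set Real

/-- regularised diffusion time -/
noncomputable def sg (s : ℝ) : ℝ := 7 / 100 + max s 0

lemma sg_ge (s : ℝ) : 7 / 100 ≤ sg s := by unfold sg; linarith [le_max_right s 0]
lemma sg_pos (s : ℝ) : 0 < sg s := by linarith [sg_ge s]
lemma sg_cont : Continuous sg := by unfold sg; fun_prop
lemma sg_of_nonneg {s : ℝ} (h : 0 ≤ s) : sg s = 7 / 100 + s := by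
  unfold sg; rw [max_eq_left h]

noncomputable def am (s : ℝ) : ℝ := exp (-(7 / 100) - s / 2)
noncomputable def hQ (s z : ℝ) : ℝ := am s * QQ (sg s) z
noncomputable def hE (s z : ℝ) : ℝ := am s * E2 (sg s) z
noncomputable def hF (s z : ℝ) : ℝ := am s * E1 (sg s) z
noncomputable def hK (s z : ℝ) : ℝ := am s * pk (sg s) z
noncomputable def pp (s z : ℝ) : ℝ := exp (z + s / 2)

lemma am_pos (s : ℝ) : 0 < am s := exp_pos _
lemma hQ_pos (s z : ℝ) : 0 < hQ s z := mul_pos (am_pos s) (QQ_pos _ _)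
lemma hE_pos (s z : ℝ) : 0 < hE s z := mul_pos (am_pos s) (E2_pos _ _)
lemma hF_pos (s z : ℝ) : 0 < hF s z := mul_pos (am_pos s) (E1_pos _ _)
lemma hK_nonneg (s z : ℝ) : 0 ≤ hK s z := mul_nonneg (am_pos s).le (pk_nonneg _ _)
lemma pp_pos (s z : ℝ) : 0 < pp s z := exp_pos _
lemma hQ_eq (s z : ℝ) : hQ s z = hF s z + hE s z := by
  unfold hQ hF hE QQ; ring

lemma hQ_z (s z : ℝ) : HasDerivAt (fun z => hQ s z) (hE s z) z :=
  (QQ_z (sg_pos s) z).const_mul _

lemma hE_z (s z : ℝ) : HasDerivAt (fun z => hE s z) (hE s z - hK s z) z := by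
  have := (E2_z (sg_pos s) z).const_mul (am s)
  refine this.congr_deriv ?_
  unfold hE hK; ring

lemma pp_z (s z : ℝ) : HasDerivAt (fun z => pp s z) (pp s z) z := by
  unfold pp
  have := ((hasDerivAt_id z).add_const (s / 2)).exp
  simpa using this

lemma pp_s (s z : ℝ) : HasDerivAt (fun s => pp s z) (pp s z / 2) s := by
  unfold pp
  have := (((hasDerivAt_id s).div_const 2).const_add z).exp
  refine this.congr_deriv ?_
  simp only [id]
  ring

lemma am_s (s : ℝ) : HasDerivAt am (-(am s) / 2) s := by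
  unfold am
  have := (((hasDerivAt_id s).div_const 2).const_sub (-(7 / 100))).exp
  refine this.congr_deriv ?_
  simp only [id]
  ring

lemma hQ_s {s : ℝ} (hs : 0 < s) (z : ℝ) :
    HasDerivAt (fun s => hQ s z) (hE s z - hK s z - hQ s z / 2) s := by
  have h1 : HasDerivAt (fun s : ℝ => 7 / 100 + s) 1 s := by
    simpa using (hasDerivAt_id s).const_add (7 / 100)
  have h2 := (QQ_σ (show 0 < 7 / 100 + s by linarith) z).comp s h1
  have h3 := (am_s s).mul h2
  have h4 : HasDerivAt (fun s => am s * QQ (7 / 100 + s) z)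
      (hE s z - hK s z - hQ s z / 2) s := by
    refine h3.congr_deriv ?_
    unfold hE hK hQ
    rw [sg_of_nonneg hs.le]
    simp only [Function.comp]
    ring
  refine h4.congr_of_eventuallyEq ?_
  filter_upwards [lt_mem_nhds hs] with r hr
  unfold hQ
  rw [sg_of_nonneg (le_of_lt hr)]

lemma hQ_le_one (s z : ℝ) : hQ s z ≤ am s := by
  unfold hQ
  have := QQ_le_one (sg_pos s) z
  nlinarith [am_pos s]

lemma hQ_le_pp {s : ℝ} (hs : 0 ≤ s) (z : ℝ) : hQ s z ≤ pp s z := by
  unfold hQ pp am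
  have := QQ_le_exp (sg_pos s) z
  rw [sg_of_nonneg hs] at this ⊢
  calc exp (-(7 / 100) - s / 2) * QQ (7 / 100 + s) z
      ≤ exp (-(7 / 100) - s / 2) * exp (z + (7 / 100 + s)) :=
        mul_le_mul_of_nonneg_left this (exp_pos _).le
    _ = exp (z + s / 2) := by rw [← exp_add]; congr 1; ring

lemma hE_le_pp {s : ℝ} (hs : 0 ≤ s) (z : ℝ) : hE s z ≤ pp s z := by
  have h1 := hQ_le_pp hs z
  have h2 := hQ_eq s z
  have h3 := hF_pos s z
  linarith

lemma hK_le (s z : ℝ) : hK s z ≤ 20 * hQ s z := by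
  unfold hK hQ
  have := pk_le (sg_ge s) z
  nlinarith [am_pos s]

lemma am_cont : Continuous am := by unfold am; fun_prop

section cont
variable {X : Type*} [TopologicalSpace X] {s z : X → ℝ}

lemma cont_hQ (hs : Continuous s) (hz : Continuous z) : Continuous fun x => hQ (s x) (z x) :=
  (am_cont.comp hs).mul (cont_QQ (sg_cont.comp hs) hz fun _ => sg_pos _)
lemma cont_hE (hs : Continuous s) (hz : Continuous z) : Continuous fun x => hE (s x) (z x) :=
  (am_cont.comp hs).mul (cont_E2 (sg_cont.comp hs) hz fun _ => sg_pos _)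
lemma cont_hF (hs : Continuous s) (hz : Continuous z) : Continuous fun x => hF (s x) (z x) :=
  (am_cont.comp hs).mul (cont_E1 (sg_cont.comp hs) hz fun _ => sg_pos _)
lemma cont_hK (hs : Continuous s) (hz : Continuous z) : Continuous fun x => hK (s x) (z x) :=
  (am_cont.comp hs).mul (cont_pk (sg_cont.comp hs) hz fun _ => sg_pos _)
lemma cont_pp (hs : Continuous s) (hz : Continuous z) : Continuous fun x => pp (s x) (z x) := by
  unfold pp; fun_prop
end cont

/-! ### The superposition -/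

/-- logarithmic time after the `j`-th pulse -/
noncomputable def sj (τ : ℝ) (j : ℕ) (t : ℝ) : ℝ := (t - (j + 1) * τ) / τ ^ 2
noncomputable def th (τ : ℝ) (j : ℕ) (t : ℝ) : ℝ := sS ((t - (j + 1) * τ) / τ ^ 4)
noncomputable def dth (τ : ℝ) (j : ℕ) (t : ℝ) : ℝ := sd ((t - (j + 1) * τ) / τ ^ 4) / τ ^ 4
noncomputable def ka (τ : ℝ) : ℝ := exp (-(1 / (2 * τ)))
noncomputable def eta (τ t : ℝ) : ℝ := τ ^ 4 * exp (-(t / (2 * τ ^ 2)))

noncomputable def WW (τ : ℝ) (n : ℕ) (t z : ℝ) : ℝ :=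
  eta τ t + pp (sj τ 0 t) z +
    ∑ j ∈ Finset.range n, th τ j t * ((1 - ka τ) * (hQ (sj τ j t) z - pp (sj τ j t) z))
noncomputable def EE (τ : ℝ) (n : ℕ) (t z : ℝ) : ℝ :=
  pp (sj τ 0 t) z +
    ∑ j ∈ Finset.range n, th τ j t * ((1 - ka τ) * (hE (sj τ j t) z - pp (sj τ j t) z))
noncomputable def PI (τ : ℝ) (n : ℕ) (t z : ℝ) : ℝ :=
  ∑ j ∈ Finset.range n, th τ j t * ((1 - ka τ) * hK (sj τ j t) z)
noncomputable def KK (τ : ℝ) (n : ℕ) (t z : ℝ) : ℝ :=
  ∑ j ∈ Finset.range n, dth τ j t * ((1 - ka τ) * (pp (sj τ j t) z - hQ (sj τ j t) z))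

variable {τ : ℝ}

lemma th_deriv (j : ℕ) (t : ℝ) : HasDerivAt (th τ j) (dth τ j t) t := by
  unfold th dth
  have h1 : HasDerivAt (fun t : ℝ => (t - (j + 1) * τ) / τ ^ 4) (1 / τ ^ 4) t :=
    ((hasDerivAt_id t).sub_const _).div_const _
  have := (sS_deriv ((t - (j + 1) * τ) / τ ^ 4)).comp t h1
  refine this.congr_deriv ?_
  ring

lemma th_nonneg (j : ℕ) (t : ℝ) : 0 ≤ th τ j t := sS_nonneg _
lemma th_le_one (j : ℕ) (t : ℝ) : th τ j t ≤ 1 := sS_le_one _
lemma dth_nonneg (hτ : 0 < τ) (j : ℕ) (t : ℝ) : 0 ≤ dth τ j t :=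
  div_nonneg (sd_nonneg _) (by positivity)

lemma th_zero (hτ : 0 < τ) {j : ℕ} {t : ℝ} (h : t ≤ (j + 1) * τ) : th τ j t = 0 :=
  sS_left (div_nonpos_of_nonpos_of_nonneg (by linarith) (by positivity))
lemma th_one (hτ : 0 < τ) {j : ℕ} {t : ℝ} (h : (j + 1) * τ + τ ^ 4 ≤ t) : th τ j t = 1 :=
  sS_right (by rw [le_div_iff₀ (by positivity)]; linarith)
lemma dth_zero (hτ : 0 < τ) {j : ℕ} {t : ℝ} (h : t ≤ (j + 1) * τ) : dth τ j t = 0 := by
  unfold dth
  rw [sd_zero_left (div_nonpos_of_nonpos_of_nonneg (by linarith) (by positivity))]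
  simp
lemma dth_zero' (hτ : 0 < τ) {j : ℕ} {t : ℝ} (h : (j + 1) * τ + τ ^ 4 ≤ t) : dth τ j t = 0 := by
  unfold dth
  rw [sd_zero_right (by rw [le_div_iff₀ (by positivity)]; linarith)]
  simp

lemma ka_pos : 0 < ka τ := exp_pos _
lemma ka_lt_one (hτ : 0 < τ) : ka τ < 1 := by
  unfold ka
  rw [exp_lt_one_iff]
  have : 0 < 1 / (2 * τ) := by positivity
  linarith

lemma sj_cont (hτ : 0 < τ) (j : ℕ) : Continuous (sj τ j) := by
  unfold sj
  have := hτ.ne'
  fun_prop

lemma th_cont (j : ℕ) : Continuous (th τ j) :=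
  continuous_iff_continuousAt.mpr fun t => (th_deriv j t).continuousAt

lemma dth_cont (hτ : 0 < τ) (j : ℕ) : Continuous (dth τ j) := by
  unfold dth
  have h := hτ.ne'
  exact (sd_cont.comp (by fun_prop)).div_const _

lemma sj_deriv (j : ℕ) (t : ℝ) : HasDerivAt (sj τ j) (1 / τ ^ 2) t := by
  unfold sj
  exact ((hasDerivAt_id t).sub_const _).div_const _

lemma sj_nonneg (hτ : 0 < τ) {j : ℕ} {t : ℝ} (h : (j + 1) * τ ≤ t) : 0 ≤ sj τ j t :=
  div_nonneg (by linarith) (by positivity)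
lemma sj_pos (hτ : 0 < τ) {j : ℕ} {t : ℝ} (h : (j + 1) * τ < t) : 0 < sj τ j t :=
  div_pos (by linarith) (by positivity)

/-- time derivative of one pulse -/
lemma pulse_t (hτ : 0 < τ) (j : ℕ) (t z : ℝ) :
    HasDerivAt (fun t => th τ j t * ((1 - ka τ) * (hQ (sj τ j t) z - pp (sj τ j t) z)))
      ((1 / τ ^ 2) * (th τ j t * ((1 - ka τ) * (hE (sj τ j t) z - pp (sj τ j t) z))
        - th τ j t * ((1 - ka τ) * hK (sj τ j t) z)
        - (th τ j t * ((1 - ka τ) * (hQ (sj τ j t) z - pp (sj τ j t) z))) / 2)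
        - dth τ j t * ((1 - ka τ) * (pp (sj τ j t) z - hQ (sj τ j t) z))) t := by
  rcases le_or_gt t ((j + 1) * τ) with h | h
  · have h1 := th_deriv (τ := τ) j t
    rw [dth_zero hτ h] at h1 ⊢
    rw [th_zero hτ h]
    have h2 := hasDerivAt_mul_zero (g := fun t => (1 - ka τ) * (hQ (sj τ j t) z - pp (sj τ j t) z))
      h1 (th_zero hτ h) (by
        have hc : Continuous fun t => (1 - ka τ) * (hQ (sj τ j t) z - pp (sj τ j t) z) :=
          continuous_const.mul ((cont_hQ (sj_cont hτ j) continuous_const).sub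
            (cont_pp (sj_cont hτ j) continuous_const))
        exact hc.continuousAt)
    refine h2.congr_deriv ?_
    ring
  · have hs := sj_pos hτ h
    have h1 := (hQ_s hs z).comp t (sj_deriv j t)
    have h2 := (pp_s (sj τ j t) z).comp t (sj_deriv j t)
    have h3 := (th_deriv (τ := τ) j t).mul ((h1.sub h2).const_mul (1 - ka τ))
    refine h3.congr_deriv ?_
    simp only [Function.comp, Pi.sub_apply]
    ring

lemma WW_t (hτ : 0 < τ) (n : ℕ) (t z : ℝ) :
    HasDerivAt (fun t => WW τ n t z)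
      ((1 / τ ^ 2) * (EE τ n t z - PI τ n t z - WW τ n t z / 2) - KK τ n t z) t := by
  have h1 : HasDerivAt (fun t => eta τ t) (-(eta τ t) / (2 * τ ^ 2)) t := by
    unfold eta
    have h0 : HasDerivAt (fun t : ℝ => -(t / (2 * τ ^ 2))) (-(1 / (2 * τ ^ 2))) t :=
      ((hasDerivAt_id t).div_const _).neg
    have := (h0.exp).const_mul (τ ^ 4)
    refine this.congr_deriv ?_
    ring
  have h2 := (pp_s (sj τ 0 t) z).comp t (sj_deriv 0 t)
  have h3 := HasDerivAt.fun_sum (u := Finset.range n) fun j _ => pulse_t hτ j t z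
  have h4 := (h1.add h2).add h3
  refine h4.congr_deriv ?_
  unfold WW EE PI KK
  rw [Finset.sum_sub_distrib, ← Finset.mul_sum, Finset.sum_sub_distrib, Finset.sum_sub_distrib,
    ← Finset.sum_div]
  generalize ∑ i ∈ Finset.range n, th τ i t * ((1 - ka τ) * (hE (sj τ i t) z - pp (sj τ i t) z)) = A
  generalize ∑ i ∈ Finset.range n, th τ i t * ((1 - ka τ) * hK (sj τ i t) z) = B
  generalize ∑ i ∈ Finset.range n, th τ i t * ((1 - ka τ) * (hQ (sj τ i t) z - pp (sj τ i t) z)) = C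
  generalize ∑ i ∈ Finset.range n, dth τ i t * ((1 - ka τ) * (pp (sj τ i t) z - hQ (sj τ i t) z)) = D
  field_simp
  ring

lemma WW_z (n : ℕ) (t z : ℝ) : HasDerivAt (fun z => WW τ n t z) (EE τ n t z) z := by
  have h1 := (pp_z (sj τ 0 t) z).const_add (eta τ t)
  have h3 := HasDerivAt.fun_sum (u := Finset.range n) fun j _ =>
    (((hQ_z (sj τ j t) z).sub (pp_z (sj τ j t) z)).const_mul (1 - ka τ)).const_mul (th τ j t)
  exact h1.add h3

lemma EE_z (n : ℕ) (t z : ℝ) :
    HasDerivAt (fun z => EE τ n t z) (EE τ n t z - PI τ n t z) z := by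
  have h1 := (pp_z (sj τ 0 t) z)
  have h3 := HasDerivAt.fun_sum (u := Finset.range n) fun j _ =>
    (((hE_z (sj τ j t) z).sub (pp_z (sj τ j t) z)).const_mul (1 - ka τ)).const_mul (th τ j t)
  have h4 := h1.add h3
  refine h4.congr_deriv ?_
  unfold EE PI
  rw [add_sub_assoc, ← Finset.sum_sub_distrib]
  congr 1
  apply Finset.sum_congr rfl
  intro j _
  ring

section cont2
variable {X : Type*} [TopologicalSpace X] {s z : X → ℝ}

lemma cont_WW (hτ : 0 < τ) (n : ℕ) (hs : Continuous s) (hz : Continuous z) :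
    Continuous fun x => WW τ n (s x) (z x) := by
  unfold WW
  refine (Continuous.add ?_ (cont_pp ((sj_cont hτ 0).comp hs) hz)).add
    (continuous_finsetSum _ fun j _ => ?_)
  · unfold eta
    have := hτ.ne'
    fun_prop
  · exact ((th_cont j).comp hs).mul (continuous_const.mul
      ((cont_hQ ((sj_cont hτ j).comp hs) hz).sub (cont_pp ((sj_cont hτ j).comp hs) hz)))

lemma cont_EE (hτ : 0 < τ) (n : ℕ) (hs : Continuous s) (hz : Continuous z) :
    Continuous fun x => EE τ n (s x) (z x) := by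
  unfold EE
  refine (cont_pp ((sj_cont hτ 0).comp hs) hz).add
    (continuous_finsetSum _ fun j _ => ?_)
  exact ((th_cont j).comp hs).mul (continuous_const.mul
      ((cont_hE ((sj_cont hτ j).comp hs) hz).sub (cont_pp ((sj_cont hτ j).comp hs) hz)))

lemma cont_PI (hτ : 0 < τ) (n : ℕ) (hs : Continuous s) (hz : Continuous z) :
    Continuous fun x => PI τ n (s x) (z x) := by
  unfold PI
  refine (continuous_finsetSum _ fun j _ => ?_)
  exact ((th_cont j).comp hs).mul (continuous_const.mul (cont_hK ((sj_cont hτ j).comp hs) hz))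

lemma cont_KK (hτ : 0 < τ) (n : ℕ) (hs : Continuous s) (hz : Continuous z) :
    Continuous fun x => KK τ n (s x) (z x) := by
  unfold KK
  refine (continuous_finsetSum _ fun j _ => ?_)
  exact ((dth_cont hτ j).comp hs).mul (continuous_const.mul
      ((cont_pp ((sj_cont hτ j).comp hs) hz).sub (cont_hQ ((sj_cont hτ j).comp hs) hz)))
end cont2

end Pool.Agent.Helper50.Ctrl
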