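import Pool.Agent.Helper50.Ctrl.CostAt

set_option autoImplicit false

namespace Pool.Agent.Helper50.Ctrl

open MeasureTheory Set Real
open scoped ENNReal

variable {τ : ℝ} {n i : ℕ} {t : ℝ}

lemma exp_neg_le {x : ℝ} (hx : 0 < x) : exp (-x) ≤ 24 / x ^ 4 := by
  have h := Real.pow_div_factorial_le_exp x hx.le 4
  have h1 : (Nat.factorial 4 : ℝ) = 24 := by norm_num [Nat.factorial]
  rw [h1] at h
  rw [exp_neg, inv_eq_one_div, div_le_div_iff₀ (exp_pos _) (by positivity)]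
  rw [div_le_iff₀ (by norm_num)] at h
  linarith

lemma ka_le4 (hτ : 0 < τ) : ka τ ≤ 384 * τ ^ 4 := by
  unfold ka
  have h := exp_neg_le (x := 1 / (2 * τ)) (by positivity)
  refine h.trans (le_of_eq ?_)
  field_simp
  norm_num

lemma exp_inv_le (hτ : 0 < τ) : exp (-(1 / τ)) ≤ 24 * τ ^ 4 := by
  have h := exp_neg_le (x := 1 / τ) (by positivity)
  refine h.trans (le_of_eq ?_)
  field_simp

/-- decaying amplitudes after the pulses -/
noncomputable def ZZ (τ : ℝ) (n : ℕ) (c t : ℝ) : ℝ :=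
  ∑ j ∈ Finset.range n, (Ioi (((j:ℝ) + 1) * τ)).indicator (fun t => exp (-(c * sj τ j t))) t

lemma ZZ_term_nonneg (τ : ℝ) (c t : ℝ) (j : ℕ) :
    0 ≤ (Ioi (((j:ℝ) + 1) * τ)).indicator (fun t => exp (-(c * sj τ j t))) t :=
  indicator_nonneg (fun _ _ => (exp_pos _).le) _

lemma ZZ_nonneg (τ : ℝ) (n : ℕ) (c t : ℝ) : 0 ≤ ZZ τ n c t :=
  Finset.sum_nonneg fun j _ => ZZ_term_nonneg τ c t j

lemma ZZ_ge (c : ℝ) (hi : i < n) (ht : ((i:ℝ) + 1) * τ < t) :
    exp (-(c * sj τ i t)) ≤ ZZ τ n c t := by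
  have h := Finset.single_le_sum (f := fun j : ℕ =>
    (Ioi (((j:ℝ) + 1) * τ)).indicator (fun t => exp (-(c * sj τ j t))) t)
    (fun j _ => ZZ_term_nonneg τ c t j) (Finset.mem_range.mpr hi)
  have e : (Ioi (((i:ℝ) + 1) * τ)).indicator (fun t => exp (-(c * sj τ i t))) t =
      exp (-(c * sj τ i t)) := indicator_of_mem (show t ∈ Ioi (((i:ℝ) + 1) * τ) from ht) _
  rw [← e]
  exact h

lemma ZZ_term_meas (hτ : 0 < τ) (c : ℝ) (j : ℕ) : Measurable fun t =>
    (Ioi (((j:ℝ) + 1) * τ)).indicator (fun t => exp (-(c * sj τ j t))) t := by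
  apply Measurable.indicator _ measurableSet_Ioi
  have : Continuous fun t => exp (-(c * sj τ j t)) := by
    have := sj_cont hτ j
    fun_prop
  exact this.measurable

lemma ZZ_meas (hτ : 0 < τ) (n : ℕ) (c : ℝ) : Measurable (ZZ τ n c) := by
  unfold ZZ
  exact Finset.measurable_fun_sum _ fun j _ => ZZ_term_meas hτ c j

lemma ZZ_int (hτ : 0 < τ) (n : ℕ) {c : ℝ} (hc : 0 < c) (S : Set ℝ) :
    ∫⁻ t in S, ENNReal.ofReal (ZZ τ n c t) ≤ ENNReal.ofReal (n * (τ ^ 2 / c)) := by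
  refine (setLIntegral_le_lintegral _ _).trans ?_
  have h1 : ∀ t, ENNReal.ofReal (ZZ τ n c t) = ∑ j ∈ Finset.range n,
      (Ioi (((j:ℝ) + 1) * τ)).indicator (fun t => ENNReal.ofReal (exp (-(c * sj τ j t)))) t := by
    intro t
    unfold ZZ
    rw [ENNReal.ofReal_sum_of_nonneg fun j _ => ZZ_term_nonneg τ c t j]
    apply Finset.sum_congr rfl
    intro j _
    by_cases h : t ∈ Ioi (((j:ℝ) + 1) * τ)
    · rw [indicator_of_mem h, indicator_of_mem h]
    · rw [indicator_of_notMem h, indicator_of_notMem h]; simp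
  simp_rw [h1]
  rw [lintegral_finsetSum]
  · have h2 : ∀ j ∈ Finset.range n, ∫⁻ t, (Ioi (((j:ℝ) + 1) * τ)).indicator
        (fun t => ENNReal.ofReal (exp (-(c * sj τ j t)))) t ≤ ENNReal.ofReal (τ ^ 2 / c) := by
      intro j _
      rw [lintegral_indicator measurableSet_Ioi]
      set a := ((j:ℝ) + 1) * τ with ha
      have e : ∀ t, exp (-(c * sj τ j t)) = exp (c / τ ^ 2 * a) * exp (-(c / τ ^ 2) * t) := by
        intro t
        rw [← exp_add]
        congr 1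
        unfold sj
        rw [← ha]
        field_simp
        ring
      have hcc : -(c / τ ^ 2) < 0 := by
        have : 0 < c / τ ^ 2 := by positivity
        linarith
      have hi : IntegrableOn (fun t => exp (-(c * sj τ j t))) (Ioi a) := by
        simp_rw [e]
        exact (integrableOn_exp_mul_Ioi hcc a).const_mul _
      rw [← ofReal_integral_eq_lintegral_ofReal hi
        (Filter.Eventually.of_forall fun z => (exp_pos _).le)]
      apply ENNReal.ofReal_le_ofReal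
      simp_rw [e]
      rw [integral_const_mul, integral_exp_mul_Ioi hcc]
      apply le_of_eq
      have h3 : exp (c / τ ^ 2 * a) * exp (-(c / τ ^ 2) * a) = 1 := by
        rw [← exp_add]
        have : c / τ ^ 2 * a + -(c / τ ^ 2) * a = 0 := by ring
        rw [this, exp_zero]
      calc exp (c / τ ^ 2 * a) * (-exp (-(c / τ ^ 2) * a) / -(c / τ ^ 2))
          = (exp (c / τ ^ 2 * a) * exp (-(c / τ ^ 2) * a)) / (c / τ ^ 2) := by
            rw [neg_div_neg_eq]; ring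
        _ = τ ^ 2 / c := by rw [h3]; field_simp
    refine (Finset.sum_le_sum h2).trans ?_
    rw [Finset.sum_const, Finset.card_range, nsmul_eq_mul,
      ENNReal.ofReal_mul (by positivity), ENNReal.ofReal_natCast]
  · intro j _
    apply Measurable.indicator _ measurableSet_Ioi
    have : Continuous fun t => exp (-(c * sj τ j t)) := by
      have := sj_cont hτ j
      fun_prop
    exact this.measurable.ennreal_ofReal

/-- `(1 + ε L) L` -/
noncomputable def BLL (τ : ℝ) : ℝ := (1 + τ ^ 2 * LL τ) * LL τ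

lemma BLL_pos (hτ : 0 < τ) : 0 < BLL τ := by
  unfold BLL
  have := LL_pos hτ
  positivity

lemma InCycle.x_le (h : InCycle τ n i t) (hτ : 0 < τ) : xx τ i t ≤ ZZ τ n (1 / 2) t := by
  unfold xx
  rcases le_or_gt t ((i + 1) * τ) with h1 | h1
  · rw [th_zero hτ h1, zero_mul]
    exact ZZ_nonneg _ _ _ _
  · refine le_trans ?_ (ZZ_ge (1 / 2) h.lt h1)
    have h2 : am (sj τ i t) ≤ exp (-(1 / 2 * sj τ i t)) := by
      unfold am
      apply exp_le_exp.mpr
      linarith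
    have h3 := am_pos (sj τ i t)
    have h4 := th_le_one (τ := τ) i t
    nlinarith

lemma InCycle.x100_le (h : InCycle τ n i t) (hτ : 0 < τ) {B : ℝ} (hB : 0 ≤ B) :
    xx τ i t ^ 100 * (√(2 * sg (sj τ i t)) + B) ≤ exp (-7) * (1 + B) * ZZ τ n 49 t := by
  have hZ := ZZ_nonneg τ n 49 t
  rcases le_or_gt t ((i + 1) * τ) with h1 | h1
  · have : xx τ i t = 0 := by
      unfold xx
      rw [th_zero hτ h1, zero_mul]
    rw [this, zero_pow (by norm_num), zero_mul]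
    positivity
  · have h2 := ZZ_ge 49 h.lt h1
    have hs := sj_pos hτ h1
    rw [sg_of_nonneg hs.le]
    set s := sj τ i t with hsd
    have h3 : xx τ i t ≤ am s := by
      unfold xx
      rw [← hsd]
      have := am_pos s
      have := th_le_one (τ := τ) i t
      nlinarith
    have h4 : xx τ i t ^ 100 ≤ am s ^ 100 := pow_le_pow_left₀ (xx_nonneg i t) h3 100
    have h5 : am s ^ 100 = exp (-7) * (exp (-(49 * s)) * exp (-s)) := by
      unfold am
      rw [← Real.exp_nat_mul, ← exp_add, ← exp_add]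
      congr 1
      push_cast
      ring
    have h6 : √(2 * (7 / 100 + s)) ≤ exp s := by
      have h7 : √(2 * (7 / 100 + s)) ≤ 1 + s := by
        rw [Real.sqrt_le_left (by linarith)]
        nlinarith
      linarith [add_one_le_exp s]
    have h7 : √(2 * (7 / 100 + s)) + B ≤ exp s * (1 + B) := by
      have : 1 ≤ exp s := one_le_exp hs.le
      nlinarith
    have h8 : 0 ≤ √(2 * (7 / 100 + s)) + B := by positivity
    calc xx τ i t ^ 100 * (√(2 * (7 / 100 + s)) + B)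
        ≤ (exp (-7) * (exp (-(49 * s)) * exp (-s))) * (exp s * (1 + B)) := by
          rw [← h5]
          exact mul_le_mul h4 h7 h8 (pow_nonneg (am_pos s).le 100)
      _ = exp (-7) * (1 + B) * exp (-(49 * s)) * (exp (-s) * exp s) := by ring
      _ = exp (-7) * (1 + B) * exp (-(49 * s)) := by
          rw [← exp_add]; simp
      _ ≤ _ := mul_le_mul_of_nonneg_left h2 (by positivity)

/-- final bound at fixed time for the non-killing terms -/
noncomputable def Bd (τ : ℝ) (n : ℕ) (t : ℝ) : ℝ :=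
  (t + 425 * τ) + (606 * (exp (-7) * (1 + BLL τ)) * ZZ τ n 49 t + 1818 * C2 * ZZ τ n (1 / 2) t)

lemma InCycle.rest_final (h : InCycle τ n i t) (hτ : 0 < τ) (hτs : τ ≤ 1 / 1000)
    (hn : (n:ℝ) * τ ≤ 1) :
    τ ^ 2 * (R1 τ ((i + 1) / τ ^ 4) (t / τ ^ 2 + 1 / τ) t + R2 τ + 202 / τ ^ 2 *
      R3 τ (xx τ i t) (sg (sj τ i t))) ≤ Bd τ n t := by
  have hk := ka_le4 hτ
  have hk0 := ka_pos (τ := τ)
  have he := exp_inv_le hτ
  have hx := h.x_le hτ
  have hB := BLL_pos hτ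
  have hx100 := h.x100_le hτ hB.le
  have hx0 := xx_nonneg (τ := τ) i t
  have hC := C2_ge
  have hin : ((i:ℝ) + 1) * τ ≤ 1 := by
    have : (i:ℝ) + 1 ≤ n := by exact_mod_cast h.lt
    nlinarith
  have a1 : τ ^ 2 * R1 τ ((i + 1) / τ ^ 4) (t / τ ^ 2 + 1 / τ) t ≤ t + 26 * τ := by
    unfold R1 LL
    have e1 : -(t / τ ^ 2 + 1 / τ) + t / τ ^ 2 = -(1 / τ) := by ring
    rw [e1]
    have e2 : τ ^ 2 * ((i + 1) / τ ^ 4 * exp (-(1 / τ)) + (t / τ ^ 2 + 1 / τ + 1 / (2 * τ) + 1)) =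
        (i + 1) * exp (-(1 / τ)) / τ ^ 2 + (t + τ + τ / 2 + τ ^ 2) := by
      field_simp
    rw [e2]
    have e3 : (i + 1) * exp (-(1 / τ)) / τ ^ 2 ≤ 24 * τ := by
      rw [div_le_iff₀ (by positivity)]
      calc ((i:ℝ) + 1) * exp (-(1 / τ)) ≤ (i + 1) * (24 * τ ^ 4) :=
            mul_le_mul_of_nonneg_left he (by positivity)
        _ = ((i + 1) * τ) * (24 * τ ^ 3) := by ring
        _ ≤ 1 * (24 * τ ^ 3) := mul_le_mul_of_nonneg_right hin (by positivity)
        _ = _ := by ring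
    nlinarith
  have a2 : τ ^ 2 * R2 τ ≤ 243 * τ := by
    unfold R2 LL
    have e2 : τ ^ 2 * (121 * (τ * (1 / τ ^ 2 + 1 / (2 * τ)) + 1 / τ)) =
        121 * (2 * τ + τ ^ 2 / 2) := by
      field_simp
      ring
    rw [e2]
    nlinarith
  have v1 : vM (τ ^ 2) (LL τ) ≤ 2 / τ ^ 2 := by
    unfold vM LL
    rw [le_div_iff₀ (by positivity)]
    have e : (1 / τ ^ 2 + (1 + τ ^ 2 * (1 / (2 * τ))) * (1 / (2 * τ)) +
        (1 + τ ^ 2 * (1 / (2 * τ)) + τ ^ 2)) * τ ^ 2 =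
        1 + (τ / 2 + τ ^ 2 / 4) + (τ ^ 2 + τ ^ 3 / 2 + τ ^ 4) := by
      field_simp
      ring
    rw [e]
    have h2 : τ ^ 2 ≤ τ := by nlinarith
    have h3 : τ ^ 3 ≤ τ := by nlinarith [pow_pos hτ 2]
    have h4 : τ ^ 4 ≤ τ := by nlinarith [pow_pos hτ 3]
    linarith
  have v2 : vL (τ ^ 2) (LL τ) ≤ 2 / τ ^ 2 := by
    refine le_trans ?_ v1
    unfold vM vL
    have := LL_pos hτ
    have : 0 ≤ 1 + τ ^ 2 * LL τ + τ ^ 2 := by positivity
    linarith
  have v0 : 0 ≤ vM (τ ^ 2) (LL τ) := by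
    unfold vM
    have := LL_pos hτ
    positivity
  have v0' : 0 ≤ vL (τ ^ 2) (LL τ) := by
    unfold vL
    have := LL_pos hτ
    positivity
  have d1 : τ ^ 4 + ka τ ≤ 385 * τ ^ 4 := by linarith
  have d2 : (τ ^ 4 + ka τ) * vM (τ ^ 2) (LL τ) ≤ 77 / 100 * τ := by
    calc (τ ^ 4 + ka τ) * vM (τ ^ 2) (LL τ) ≤ (385 * τ ^ 4) * (2 / τ ^ 2) :=
          mul_le_mul d1 v1 v0 (by positivity)
      _ = 770 * τ * τ := by field_simp; norm_num
      _ ≤ _ := by nlinarith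
  have d3 : (τ ^ 4 + ka τ) * vL (τ ^ 2) (LL τ) ≤ 1 := by
    calc (τ ^ 4 + ka τ) * vL (τ ^ 2) (LL τ) ≤ (385 * τ ^ 4) * (2 / τ ^ 2) :=
          mul_le_mul d1 v2 v0' (by positivity)
      _ = 770 * τ * τ := by field_simp; norm_num
      _ ≤ _ := by nlinarith
  have a3 : τ ^ 2 * (202 / τ ^ 2 * R3 τ (xx τ i t) (sg (sj τ i t))) ≤
      156 * τ + (606 * (exp (-7) * (1 + BLL τ)) * ZZ τ n 49 t + 1818 * C2 * ZZ τ n (1 / 2) t) := by
    have e : τ ^ 2 * (202 / τ ^ 2 * R3 τ (xx τ i t) (sg (sj τ i t))) =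
        202 * R3 τ (xx τ i t) (sg (sj τ i t)) := by field_simp
    rw [e]
    unfold R3
    rw [← BLL]
    have g1 : C2 * xx τ i t * (τ ^ 4 + ka τ) * vL (τ ^ 2) (LL τ) ≤ C2 * xx τ i t := by
      have h1 : 0 ≤ C2 * xx τ i t := mul_nonneg (by linarith) hx0
      calc C2 * xx τ i t * (τ ^ 4 + ka τ) * vL (τ ^ 2) (LL τ) =
            C2 * xx τ i t * ((τ ^ 4 + ka τ) * vL (τ ^ 2) (LL τ)) := by ring
        _ ≤ C2 * xx τ i t * 1 := mul_le_mul_of_nonneg_left d3 h1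
        _ = _ := by ring
    have g2 : C2 * xx τ i t ≤ C2 * ZZ τ n (1 / 2) t := mul_le_mul_of_nonneg_left hx (by linarith)
    have g3 : 3 * xx τ i t ^ 100 * (√(2 * sg (sj τ i t)) + BLL τ) ≤
        3 * (exp (-7) * (1 + BLL τ) * ZZ τ n 49 t) := by
      rw [mul_assoc]
      exact mul_le_mul_of_nonneg_left hx100 (by norm_num)
    generalize 3 * xx τ i t ^ 100 * (√(2 * sg (sj τ i t)) + BLL τ) = q1 at g3 ⊢
    generalize C2 * xx τ i t * (τ ^ 4 + ka τ) * vL (τ ^ 2) (LL τ) = q2 at g1 ⊢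
    generalize (τ ^ 4 + ka τ) * vM (τ ^ 2) (LL τ) = q3 at d2 ⊢
    generalize C2 * xx τ i t = q4 at g1 g2 ⊢
    linarith
  unfold Bd
  have e : τ ^ 2 * (R1 τ ((i + 1) / τ ^ 4) (t / τ ^ 2 + 1 / τ) t + R2 τ + 202 / τ ^ 2 *
      R3 τ (xx τ i t) (sg (sj τ i t))) = τ ^ 2 * R1 τ ((i + 1) / τ ^ 4) (t / τ ^ 2 + 1 / τ) t +
      τ ^ 2 * R2 τ + τ ^ 2 * (202 / τ ^ 2 * R3 τ (xx τ i t) (sg (sj τ i t))) := by ring
  rw [e]
  linarith

end Pool.Agent.Helper50.Ctrl
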