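import Pool.Agent.Helper50.Ctrl.Time

set_option autoImplicit false

namespace Pool.Agent.Helper50.Ctrl

open MeasureTheory Set Real
open scoped ENNReal

variable {τ : ℝ} {n i : ℕ} {t : ℝ}

lemma Bd_meas (hτ : 0 < τ) (n : ℕ) : Measurable (Bd τ n) := by
  unfold Bd
  have h1 := ZZ_meas hτ n 49
  have h2 := ZZ_meas hτ n (1 / 2)
  fun_prop

lemma int_id {T : ℝ} (hT : 0 ≤ T) : ∫⁻ t in Icc 0 T, ENNReal.ofReal t ≤
    ENNReal.ofReal (T ^ 2 / 2) := by
  rw [← ofReal_integral_eq_lintegral_ofReal (f := fun t : ℝ => t)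
    (continuous_id.integrableOn_Icc)]
  · apply ENNReal.ofReal_le_ofReal
    rw [integral_Icc_eq_integral_Ioc, ← intervalIntegral.integral_of_le hT]
    simp
  · filter_upwards [ae_restrict_mem measurableSet_Icc] with t ht
    exact ht.1

lemma int_const {T c : ℝ} (hT : 0 ≤ T) (hc : 0 ≤ c) : ∫⁻ _t in Icc 0 T, ENNReal.ofReal c ≤
    ENNReal.ofReal (c * T) := by
  rw [lintegral_const, Measure.restrict_apply MeasurableSet.univ, univ_inter, Real.volume_Icc,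
    ENNReal.ofReal_mul hc, sub_zero]

lemma Bd_int (hτ : 0 < τ) (n : ℕ) {T : ℝ} (hT : 0 ≤ T) :
    ∫⁻ t in Icc 0 T, ENNReal.ofReal (Bd τ n t) ≤ ENNReal.ofReal ((T ^ 2 / 2 + 425 * τ * T) +
      (606 * (exp (-7) * (1 + BLL τ)) * (n * (τ ^ 2 / 49)) +
        1818 * C2 * (n * (τ ^ 2 / (1 / 2))))) := by
  have hB := BLL_pos hτ
  have hC := C2_ge
  have hc1 : 0 ≤ 606 * (exp (-7) * (1 + BLL τ)) := by positivity
  have hc2 : 0 ≤ 1818 * C2 := by linarith
  have z1 := ZZ_int hτ n (c := 49) (by norm_num) (Icc 0 T)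
  have z2 := ZZ_int hτ n (c := 1 / 2) (by norm_num) (Icc 0 T)
  have m1 : Measurable fun t => ENNReal.ofReal (ZZ τ n 49 t) := (ZZ_meas hτ n 49).ennreal_ofReal
  have m2 : Measurable fun t => ENNReal.ofReal (ZZ τ n (1 / 2) t) :=
    (ZZ_meas hτ n _).ennreal_ofReal
  have i1 := int_id hT
  have i2 := int_const (T := T) (c := 425 * τ) hT (by positivity)
  set c1 := 606 * (exp (-7) * (1 + BLL τ)) with hc1d
  set c2 := 1818 * C2 with hc2d
  calc ∫⁻ t in Icc 0 T, ENNReal.ofReal (Bd τ n t)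
      ≤ ∫⁻ t in Icc 0 T, ((ENNReal.ofReal t + ENNReal.ofReal (425 * τ)) +
          (ENNReal.ofReal c1 * ENNReal.ofReal (ZZ τ n 49 t) +
            ENNReal.ofReal c2 * ENNReal.ofReal (ZZ τ n (1 / 2) t))) := by
        apply lintegral_mono
        intro t
        simp only
        rw [← ENNReal.ofReal_mul hc1, ← ENNReal.ofReal_mul hc2]
        unfold Bd
        refine ENNReal.ofReal_add_le.trans (add_le_add ENNReal.ofReal_add_le ?_)
        exact ENNReal.ofReal_add_le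
    _ = ((∫⁻ t in Icc 0 T, ENNReal.ofReal t) + ∫⁻ _t in Icc 0 T, ENNReal.ofReal (425 * τ)) +
          (ENNReal.ofReal c1 * (∫⁻ t in Icc 0 T, ENNReal.ofReal (ZZ τ n 49 t)) +
            ENNReal.ofReal c2 * ∫⁻ t in Icc 0 T, ENNReal.ofReal (ZZ τ n (1 / 2) t)) := by
        have m3 : Measurable fun t : ℝ => ENNReal.ofReal t + ENNReal.ofReal (425 * τ) := by
          fun_prop
        have m4 : Measurable fun t : ℝ => ENNReal.ofReal t := by fun_prop
        rw [lintegral_add_left m3, lintegral_add_left m4, lintegral_add_left (m1.const_mul _),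
          lintegral_const_mul _ m1, lintegral_const_mul _ m2]
    _ ≤ (ENNReal.ofReal (T ^ 2 / 2) + ENNReal.ofReal (425 * τ * T)) +
          (ENNReal.ofReal c1 * ENNReal.ofReal (n * (τ ^ 2 / 49)) +
            ENNReal.ofReal c2 * ENNReal.ofReal (n * (τ ^ 2 / (1 / 2)))) := by
        gcongr
    _ = _ := by
        rw [← ENNReal.ofReal_mul hc1, ← ENNReal.ofReal_mul hc2,
          ← ENNReal.ofReal_add (by positivity) (by positivity),
          ← ENNReal.ofReal_add (by positivity) (by positivity),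
          ← ENNReal.ofReal_add (by positivity) (by positivity)]

lemma DD_nonneg (hτ : 0 < τ) (z : ℝ) : 0 ≤ DD τ z := by
  rcases lt_or_ge z 0 with h | h
  · refine le_trans ?_ (DD_low h)
    have := ka_pos (τ := τ)
    have := Cc_pos
    positivity
  · rcases le_or_gt z (LL τ) with h2 | h2
    · exact le_trans (by positivity) (DD_mid h h2)
    · exact le_trans (by positivity) (DD_high h2)

noncomputable def KD (τ : ℝ) : ℝ :=
  (21 * τ ^ 2 + 2 * ka τ) * (1 / τ ^ 2) + Cc * 1 + 8 / 100 * BLL τ + 2 * 8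
    + (1 + τ ^ 2 * LL τ + τ ^ 2) + τ ^ 2 / 2 * vM (τ ^ 2) (LL τ)

lemma II_DD (hτ : 0 < τ) (hτ1 : τ ≤ 1 / 2) :
    II (τ ^ 2) (fun z => DD τ z + τ ^ 2 / 2 * Mb (LL τ) z) ≤ ENNReal.ofReal (KD τ) := by
  have hε : 0 < τ ^ 2 := by positivity
  have hL := (LL_pos hτ).le
  have hk := ka_pos (τ := τ)
  have hCc := Cc_pos
  have hεL : τ ^ 2 * LL τ ≤ 1 := by
    unfold LL
    have : τ ^ 2 * (1 / (2 * τ)) = τ / 2 := by field_simp
    rw [this]; linarith
  set A1 : ℝ → ℝ := (Iio (0:ℝ)).indicator fun _ => (1:ℝ) with hA1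
  set A2 : ℝ → ℝ := (Iio (0:ℝ)).indicator fun z => exp (z / 1) with hA2
  set A3 : ℝ → ℝ := (Icc (0:ℝ) (LL τ)).indicator fun _ => (1:ℝ) with hA3
  set A4 : ℝ → ℝ := fun z => exp (-|z - 0|) with hA4
  set A5 : ℝ → ℝ := (Ioi (LL τ)).indicator fun z => exp (-(z - LL τ)) with hA5
  have m1 : Measurable A1 := measurable_const.indicator measurableSet_Iio
  have m2 : Measurable A2 := Measurable.indicator (by fun_prop) measurableSet_Iio
  have m3 : Measurable A3 := measurable_const.indicator measurableSet_Icc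
  have m4 : Measurable A4 := by
    have : Continuous A4 := by rw [hA4]; fun_prop
    exact this.measurable
  have m5 : Measurable A5 := Measurable.indicator (by fun_prop) measurableSet_Ioi
  have m0 := Mb_meas (LL τ)
  have p0 := Mb_nonneg (LL τ)
  have p1 : ∀ z, 0 ≤ A1 z := fun z => indicator_nonneg (fun _ _ => by norm_num) _
  have p2 : ∀ z, 0 ≤ A2 z := fun z => indicator_nonneg (fun _ _ => (exp_pos _).le) _
  have p3 : ∀ z, 0 ≤ A3 z := fun z => indicator_nonneg (fun _ _ => by norm_num) _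
  have p4 : ∀ z, 0 ≤ A4 z := fun z => (exp_pos _).le
  have p5 : ∀ z, 0 ≤ A5 z := fun z => indicator_nonneg (fun _ _ => (exp_pos _).le) _
  set c1 := 21 * τ ^ 2 + 2 * ka τ with hc1
  have hc1' : 0 ≤ c1 := by rw [hc1]; positivity
  have hc2 : (0:ℝ) ≤ 8 / 100 := by norm_num
  have hc3 : (0:ℝ) ≤ 2 := by norm_num
  have hc4 : 0 ≤ τ ^ 2 / 2 := by positivity
  have hle : ∀ z, DD τ z + τ ^ 2 / 2 * Mb (LL τ) z = ((((c1 * A1 z + Cc * A2 z) +
      8 / 100 * A3 z) + 2 * A4 z) + A5 z) + τ ^ 2 / 2 * Mb (LL τ) z := by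
    intro z
    congr 1
    unfold DD
    rw [hA4]
    have e1 : (Iio 0).indicator (fun z => (21 * τ ^ 2 + 2 * ka τ) + Cc * exp z) z =
        c1 * A1 z + Cc * A2 z := by
      by_cases h : z ∈ Iio (0:ℝ)
      · rw [hA1, hA2, indicator_of_mem h, indicator_of_mem h, indicator_of_mem h]
        simp [hc1]
      · rw [hA1, hA2, indicator_of_notMem h, indicator_of_notMem h, indicator_of_notMem h]
        simp
    have e2 : (Icc 0 (LL τ)).indicator (fun _ => (8 / 100 : ℝ)) z = 8 / 100 * A3 z := by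
      by_cases h : z ∈ Icc (0:ℝ) (LL τ)
      · rw [hA3, indicator_of_mem h, indicator_of_mem h]
        simp
      · rw [hA3, indicator_of_notMem h, indicator_of_notMem h]
        simp
    rw [e1, e2]
    simp only [sub_zero]
    rfl
  have hfun : (fun z => DD τ z + τ ^ 2 / 2 * Mb (LL τ) z) = fun z => ((((c1 * A1 z + Cc * A2 z) +
      8 / 100 * A3 z) + 2 * A4 z) + A5 z) + τ ^ 2 / 2 * Mb (LL τ) z := funext hle
  rw [hfun]
  have q1 : ∀ z, 0 ≤ c1 * A1 z := fun z => mul_nonneg hc1' (p1 z)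
  have q2 : ∀ z, 0 ≤ Cc * A2 z := fun z => mul_nonneg hCc.le (p2 z)
  have q3 : ∀ z, 0 ≤ 8 / 100 * A3 z := fun z => mul_nonneg hc2 (p3 z)
  have q4 : ∀ z, 0 ≤ 2 * A4 z := fun z => mul_nonneg hc3 (p4 z)
  have q0 : ∀ z, 0 ≤ τ ^ 2 / 2 * Mb (LL τ) z := fun z => mul_nonneg hc4 (p0 z)
  have n1 : Measurable fun z => c1 * A1 z := m1.const_mul _
  have n2 : Measurable fun z => c1 * A1 z + Cc * A2 z := n1.add (m2.const_mul _)
  have n3 : Measurable fun z => (c1 * A1 z + Cc * A2 z) + 8 / 100 * A3 z :=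
    n2.add (m3.const_mul _)
  have n4 : Measurable fun z => ((c1 * A1 z + Cc * A2 z) + 8 / 100 * A3 z) + 2 * A4 z :=
    n3.add (m4.const_mul _)
  have n5 : Measurable fun z => (((c1 * A1 z + Cc * A2 z) + 8 / 100 * A3 z) + 2 * A4 z) + A5 z :=
    n4.add m5
  have w2 : ∀ z, 0 ≤ c1 * A1 z + Cc * A2 z := fun z => add_nonneg (q1 z) (q2 z)
  have w3 : ∀ z, 0 ≤ (c1 * A1 z + Cc * A2 z) + 8 / 100 * A3 z := fun z => add_nonneg (w2 z) (q3 z)
  have w4 : ∀ z, 0 ≤ ((c1 * A1 z + Cc * A2 z) + 8 / 100 * A3 z) + 2 * A4 z :=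
    fun z => add_nonneg (w3 z) (q4 z)
  have w5 : ∀ z, 0 ≤ (((c1 * A1 z + Cc * A2 z) + 8 / 100 * A3 z) + 2 * A4 z) + A5 z :=
    fun z => add_nonneg (w4 z) (p5 z)
  rw [II_add hε n5 w5 q0, II_add hε n4 w4 p5, II_add hε n3 w3 q4, II_add hε n2 w2 q3,
    II_add hε n1 q1 q2, II_const_mul m1 hc1', II_const_mul m2 hCc.le, II_const_mul m3 hc2,
    II_const_mul m4 hc3, II_const_mul m0 hc4]
  have b0 := II_Mb hε hL
  have b1 : II (τ ^ 2) A1 ≤ ENNReal.ofReal (1 / τ ^ 2) := II_neg hε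
  have b2 : II (τ ^ 2) A2 ≤ ENNReal.ofReal 1 := II_neg_exp hε one_pos
  have b3 : II (τ ^ 2) A3 ≤ ENNReal.ofReal (BLL τ) := II_mid hε hL
  have b4 : II (τ ^ 2) A4 ≤ ENNReal.ofReal 8 := II_abs hε (by nlinarith) hεL hL
  have b5 : II (τ ^ 2) A5 ≤ ENNReal.ofReal (1 + τ ^ 2 * LL τ + τ ^ 2) := II_exp hε hL
  have v0 : 0 ≤ vM (τ ^ 2) (LL τ) := by unfold vM; positivity
  have vB := (BLL_pos hτ).le
  clear_value c1
  unfold KD
  rw [← hc1]
  rw [ENNReal.ofReal_add (q := τ ^ 2 / 2 * vM (τ ^ 2) (LL τ)) (by positivity) (by positivity),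
    ENNReal.ofReal_add (q := 1 + τ ^ 2 * LL τ + τ ^ 2) (by positivity) (by positivity),
    ENNReal.ofReal_add (q := 2 * 8) (by positivity) (by positivity),
    ENNReal.ofReal_add (q := 8 / 100 * BLL τ) (by positivity) (by positivity),
    ENNReal.ofReal_add (q := Cc * 1) (by positivity) (by positivity),
    ENNReal.ofReal_mul hc1', ENNReal.ofReal_mul hCc.le, ENNReal.ofReal_mul hc2,
    ENNReal.ofReal_mul hc3, ENNReal.ofReal_mul hc4]
  gcongr

/-- the killing part of the cost -/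
lemma kill_cost (hτ : 0 < τ) (hτ1 : τ ≤ 1 / 2) (hκ : ka τ ≤ 1 / 2)
    (hsm : τ ^ 2 / 2 + 2 * ka τ ≤ 1 / 1000) (n : ℕ) (T : ℝ) :
    ∫⁻ t in Icc 0 T, II (τ ^ 2) (kill τ n t) ≤ n * ENNReal.ofReal (KD τ) := by
  have hc : Continuous fun p : ℝ × ℝ => kill τ n p.1 p.2 :=
    kill_cont hτ n continuous_fst continuous_snd
  have hm : Measurable fun p : ℝ × ℝ =>
      ENNReal.ofReal ((1 + τ ^ 2 * p.2) * kill τ n p.1 p.2) := by
    have h2 : Continuous fun p : ℝ × ℝ => (1 + τ ^ 2 * p.2) * kill τ n p.1 p.2 := by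
      fun_prop
    exact h2.measurable.ennreal_ofReal
  unfold II
  rw [lintegral_lintegral_swap hm.aemeasurable]
  have h1 : ∫⁻ z in Ioi (1 - 1 / τ ^ 2), ∫⁻ t in Icc 0 T,
      ENNReal.ofReal ((1 + τ ^ 2 * z) * kill τ n t z) ≤
      ∫⁻ z in Ioi (1 - 1 / τ ^ 2), n * ENNReal.ofReal ((1 + τ ^ 2 * z) *
        (DD τ z + τ ^ 2 / 2 * Mb (LL τ) z)) := by
    apply setLIntegral_mono' measurableSet_Ioi
    intro z hz
    have hζ := dom_pos hτ hz
    have hε : 0 < τ ^ 2 := by positivity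
    have hζ0 : 0 ≤ 1 + τ ^ 2 * z := by linarith
    have h2 : ∀ t, ENNReal.ofReal ((1 + τ ^ 2 * z) * kill τ n t z) =
        ENNReal.ofReal (1 + τ ^ 2 * z) * ENNReal.ofReal (kill τ n t z) :=
      fun t => ENNReal.ofReal_mul hζ0
    simp_rw [h2]
    rw [lintegral_const_mul' _ _ ENNReal.ofReal_ne_top, ENNReal.ofReal_mul hζ0]
    have h3 := kill_time hτ (by nlinarith) hκ hsm n T z
    calc ENNReal.ofReal (1 + τ ^ 2 * z) * ∫⁻ t in Icc 0 T, ENNReal.ofReal (kill τ n t z)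
        ≤ ENNReal.ofReal (1 + τ ^ 2 * z) *
          (n * ENNReal.ofReal (DD τ z + τ ^ 2 / 2 * Mb (LL τ) z)) := by gcongr
      _ = _ := by ring
  refine h1.trans ?_
  rw [lintegral_const_mul' _ _ (ENNReal.natCast_ne_top n)]
  have := II_DD hτ hτ1
  unfold II at this
  gcongr

/-- number of pulses -/
noncomputable def nT (T τ : ℝ) : ℕ := ⌊T / τ⌋₊

lemma nT_mul {T : ℝ} (hτ : 0 < τ) (hT : 0 ≤ T) : (nT T τ : ℝ) * τ ≤ T := by
  unfold nT
  have := Nat.floor_le (show 0 ≤ T / τ by positivity)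
  rw [le_div_iff₀ hτ] at this
  exact this

lemma exists_cycle {T : ℝ} (hτ : 0 < τ) (hτT : τ ≤ T) (ht : t ∈ Icc 0 T) :
    InCycle τ (nT T τ) (⌊t / τ⌋₊ - 1) t := by
  obtain ⟨h0, h1⟩ := ht
  have hfl := Nat.floor_le (show 0 ≤ t / τ by positivity)
  have hlt := Nat.lt_floor_add_one (t / τ)
  rw [le_div_iff₀ hτ] at hfl
  rw [div_lt_iff₀ hτ] at hlt
  have hn1 : 1 ≤ nT T τ := by
    unfold nT
    rw [Nat.one_le_floor_iff, le_div_iff₀ hτ]
    linarith
  have hmono : ⌊t / τ⌋₊ ≤ nT T τ := by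
    unfold nT
    exact Nat.floor_le_floor (by gcongr)
  refine ⟨by omega, h0, ?_, ?_⟩
  · rcases Nat.eq_zero_or_pos ⌊t / τ⌋₊ with h | h
    · right; omega
    · left
      have : (((⌊t / τ⌋₊ - 1 : ℕ)) : ℝ) + 1 = (⌊t / τ⌋₊ : ℝ) := by
        have : (⌊t / τ⌋₊ - 1) + 1 = ⌊t / τ⌋₊ := by omega
        exact_mod_cast this
      rw [this]
      exact hfl
  · have h2 : (⌊t / τ⌋₊ : ℝ) ≤ (((⌊t / τ⌋₊ - 1 : ℕ)) : ℝ) + 1 := by
      have : ⌊t / τ⌋₊ ≤ (⌊t / τ⌋₊ - 1) + 1 := by omega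
      exact_mod_cast this
    nlinarith

/-- total cost -/
lemma total_cost {T : ℝ} (hT1 : T ≤ 1) (hτ : 0 < τ) (hτs : τ ≤ 1 / 1000) (hτT : τ ≤ T) :
    ∫⁻ t in Icc 0 T, ∫⁻ p : ℝ × ℝ, ENNReal.ofReal (aa τ (nT T τ) t p.1 p.2) ≤
      ENNReal.ofReal (2 * π * τ ^ 2) * ((nT T τ : ℝ≥0∞) * ENNReal.ofReal (KD τ)) +
      ENNReal.ofReal (2 * π) * ENNReal.ofReal ((T ^ 2 / 2 + 425 * τ * T) +
      (606 * (exp (-7) * (1 + BLL τ)) * ((nT T τ : ℝ) * (τ ^ 2 / 49)) +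
        1818 * C2 * ((nT T τ : ℝ) * (τ ^ 2 / (1 / 2))))) := by
  have hT : 0 ≤ T := by linarith
  have hk := ka_le4 hτ
  have hk0 := ka_pos (τ := τ)
  have hτ2 : τ ^ 2 ≤ 1 / 1000 * τ := by nlinarith
  have hτ4 : τ ^ 4 ≤ (1 / 1000) ^ 3 * τ := by
    have : τ ^ 4 = τ ^ 2 * τ ^ 2 := by ring
    nlinarith [sq_nonneg τ]
  have hκ : ka τ ≤ 1 / 2 := by nlinarith
  have hδ : τ ^ 4 + ka τ ≤ 1 := by nlinarith
  have hsm : τ ^ 2 / 2 + 2 * ka τ ≤ 1 / 1000 := by nlinarith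
  have hn := nT_mul hτ hT
  have hn' : (nT T τ : ℝ) * τ ≤ 1 := by linarith
  set n := nT T τ with hnd
  have step : ∀ t ∈ Icc 0 T, ∫⁻ p : ℝ × ℝ, ENNReal.ofReal (aa τ n t p.1 p.2) ≤
      ENNReal.ofReal (2 * π * τ ^ 2) * II (τ ^ 2) (kill τ n t) +
        ENNReal.ofReal (2 * π) * ENNReal.ofReal (Bd τ n t) := by
    intro t ht
    have hc := exists_cycle hτ hτT ht
    rw [← hnd] at hc
    set i := ⌊t / τ⌋₊ - 1 with hi
    have ht0 : 0 ≤ t := ht.1
    have h1 := hc.cost_at hτ (by linarith) hδ (b := t / τ ^ 2 + 1 / τ) (by positivity)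
    refine h1.trans ?_
    rw [mul_add]
    apply add_le_add_right
    have h2 := hc.rest_final hτ hτs hn'
    have hR1 : 0 ≤ R1 τ ((i + 1) / τ ^ 4) (t / τ ^ 2 + 1 / τ) t := by
      unfold R1
      have := LL_pos hτ
      positivity
    have hR2 : 0 ≤ R2 τ := by
      unfold R2
      have := LL_pos hτ
      positivity
    have hR3 : 0 ≤ R3 τ (xx τ i t) (sg (sj τ i t)) := by
      unfold R3 vM vL
      have hL := LL_pos hτ
      have hx := xx_nonneg (τ := τ) i t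
      have hx100 : 0 ≤ xx τ i t ^ 100 := pow_nonneg hx 100
      have hC : 0 ≤ C2 := by linarith [C2_ge]
      refine add_nonneg (add_nonneg (by positivity) (add_nonneg ?_ ?_)) ?_
      · exact mul_nonneg (mul_nonneg (by norm_num) hx100) (by positivity)
      · exact mul_nonneg (mul_nonneg (mul_nonneg hC hx) (by positivity)) (by positivity)
      · exact mul_nonneg (mul_nonneg hC hx) (by norm_num)
    rw [← ENNReal.ofReal_mul (by positivity), ← ENNReal.ofReal_add hR1 hR2,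
      ← ENNReal.ofReal_add (by positivity) (by positivity), ← ENNReal.ofReal_mul (by positivity),
      ← ENNReal.ofReal_mul (by positivity)]
    apply ENNReal.ofReal_le_ofReal
    rw [mul_assoc]
    exact mul_le_mul_of_nonneg_left h2 (by positivity)
  calc ∫⁻ t in Icc 0 T, ∫⁻ p : ℝ × ℝ, ENNReal.ofReal (aa τ n t p.1 p.2)
      ≤ ∫⁻ t in Icc 0 T, (ENNReal.ofReal (2 * π * τ ^ 2) * II (τ ^ 2) (kill τ n t) +
        ENNReal.ofReal (2 * π) * ENNReal.ofReal (Bd τ n t)) :=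
        setLIntegral_mono' measurableSet_Icc step
    _ = ENNReal.ofReal (2 * π * τ ^ 2) * (∫⁻ t in Icc 0 T, II (τ ^ 2) (kill τ n t)) +
        ENNReal.ofReal (2 * π) * ∫⁻ t in Icc 0 T, ENNReal.ofReal (Bd τ n t) := by
        rw [lintegral_add_right _ ((Bd_meas hτ n).ennreal_ofReal.const_mul _),
          lintegral_const_mul' _ _ ENNReal.ofReal_ne_top,
          lintegral_const_mul' _ _ ENNReal.ofReal_ne_top]
    _ ≤ _ := by
        have h3 := kill_cost hτ (by linarith) hκ hsm n T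
        have h4 := Bd_int hτ n hT
        gcongr

lemma exp7 : exp (-7 : ℝ) ≤ 1 / 1000 := by
  have h1 : (1000 : ℝ) ≤ exp 7 := by
    have h2 := Real.exp_one_gt_d9
    have h3 : exp (7:ℝ) = exp 1 ^ 7 := by rw [← Real.exp_nat_mul]; norm_num
    rw [h3]
    calc (1000:ℝ) ≤ (2.7182818283 : ℝ) ^ 7 := by norm_num
      _ ≤ exp 1 ^ 7 := by gcongr
  rw [exp_neg, inv_eq_one_div]
  exact one_div_le_one_div_of_le (by norm_num) h1

/-- threshold for the small parameter -/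
noncomputable def τ0 : ℝ := 1 / (100 * (600 + Cc + 4000 * C2))

lemma τ0_pos : 0 < τ0 := by
  unfold τ0
  have := Cc_pos
  have := C2_ge
  positivity

lemma τ0_le : τ0 ≤ 1 / 1000 := by
  unfold τ0
  have := Cc_pos
  have := C2_ge
  apply one_div_le_one_div_of_le (by norm_num)
  linarith

/-- the cost is at most `2 π T / 10` -/
theorem cost_small (hτ : 0 < τ) (hτs : τ ≤ τ0) :
    ∫⁻ t in Icc 0 (1 / 20), ∫⁻ p : ℝ × ℝ, ENNReal.ofReal (aa τ (nT (1 / 20) τ) t p.1 p.2) ≤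
      ENNReal.ofReal (2 * π * (1 / 20) * (1 / 10)) := by
  have h1000 := hτs.trans τ0_le
  have hCc := Cc_pos
  have hC2 := C2_ge
  have hmain : τ * (600 + Cc + 4000 * C2) ≤ 1 / 100 := by
    have h1 : τ * (600 + Cc + 4000 * C2) ≤ τ0 * (600 + Cc + 4000 * C2) :=
      mul_le_mul_of_nonneg_right hτs (by positivity)
    have h2 : τ0 * (600 + Cc + 4000 * C2) = 1 / 100 := by
      unfold τ0
      field_simp
    linarith
  refine (total_cost (T := 1 / 20) (by norm_num) hτ h1000 (by linarith)).trans ?_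
  have hn := nT_mul (T := 1 / 20) hτ (by norm_num)
  have hk := ka_le4 hτ
  have hk0 := ka_pos (τ := τ)
  have hL := LL_pos hτ
  have hB := BLL_pos hτ
  have he7 := exp7
  have he7' := exp_pos (-7 : ℝ)
  have hBB : BLL τ = (1 + τ / 2) / (2 * τ) := by
    unfold BLL LL
    field_simp
  have hτB : τ * BLL τ = (1 + τ / 2) / 2 := by
    rw [hBB]; field_simp
  set n := nT (1 / 20) τ with hnd
  have hKD : 0 ≤ KD τ := by
    unfold KD vM
    positivity
  have hKD2 : τ * KD τ ≤ 4 / 100 + τ * (50 + Cc) := by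
    have e : τ * KD τ = τ * (21 + 2 * (ka τ / τ ^ 2)) + τ * Cc + 8 / 100 * (τ * BLL τ) + 16 * τ
        + τ * (1 + τ / 2 + τ ^ 2) + τ * (τ ^ 2 / 2 * vM (τ ^ 2) (LL τ)) := by
      unfold KD
      have : τ ^ 2 * LL τ = τ / 2 := by unfold LL; field_simp
      rw [this]
      field_simp
      ring
    rw [e, hτB]
    have h1 : ka τ / τ ^ 2 ≤ 1 := by
      rw [div_le_one (by positivity)]
      have h0 : τ ^ 4 = τ ^ 2 * τ ^ 2 := by ring
      have h00 : 384 * τ ^ 2 ≤ 1 := by nlinarith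
      have h000 : 384 * τ ^ 2 * τ ^ 2 ≤ 1 * τ ^ 2 := mul_le_mul_of_nonneg_right h00 (sq_nonneg τ)
      linarith
    have h2 : τ ^ 2 / 2 * vM (τ ^ 2) (LL τ) ≤ 1 := by
      unfold vM LL
      have e2 : τ ^ 2 / 2 * (1 / τ ^ 2 + (1 + τ ^ 2 * (1 / (2 * τ))) * (1 / (2 * τ)) +
        (1 + τ ^ 2 * (1 / (2 * τ)) + τ ^ 2)) =
        (1 + (τ / 2 + τ ^ 2 / 4) + (τ ^ 2 + τ ^ 3 / 2 + τ ^ 4)) / 2 := by
        field_simp
        ring
      rw [e2]
      have h2 : τ ^ 2 ≤ τ := by nlinarith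
      have h3 : τ ^ 3 ≤ τ := by nlinarith [pow_pos hτ 2]
      have h4 : τ ^ 4 ≤ τ := by nlinarith [pow_pos hτ 3]
      linarith
    have h3 : τ * (21 + 2 * (ka τ / τ ^ 2)) ≤ τ * 23 :=
      mul_le_mul_of_nonneg_left (by linarith) hτ.le
    have h4 : τ * (τ ^ 2 / 2 * vM (τ ^ 2) (LL τ)) ≤ τ * 1 := mul_le_mul_of_nonneg_left h2 hτ.le
    have h5 : τ * (1 + τ / 2 + τ ^ 2) ≤ τ * 2 := by
      apply mul_le_mul_of_nonneg_left _ hτ.le
      nlinarith
    linarith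
  have hnτ2 : τ ^ 2 * ((n : ℝ) * KD τ) ≤ 1 / 20 * (4 / 100 + τ * (50 + Cc)) := by
    calc τ ^ 2 * ((n : ℝ) * KD τ) = (n * τ) * (τ * KD τ) := by ring
      _ ≤ 1 / 20 * (4 / 100 + τ * (50 + Cc)) :=
          mul_le_mul hn hKD2 (by positivity) (by norm_num)
  have hpart2 : ((1 / 20 : ℝ) ^ 2 / 2 + 425 * τ * (1 / 20)) +
      (606 * (exp (-7) * (1 + BLL τ)) * ((n : ℝ) * (τ ^ 2 / 49)) +
        1818 * C2 * ((n : ℝ) * (τ ^ 2 / (1 / 2)))) ≤
      1 / 20 * (25 / 1000 + 425 * τ + 7 / 1000 + 7 / 1000 * τ + 3636 * C2 * τ + τ) := by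
    have h1 : 606 * (exp (-7) * (1 + BLL τ)) * ((n : ℝ) * (τ ^ 2 / 49)) ≤
        1 / 20 * (7 / 1000 + τ) := by
      have e : 606 * (exp (-7) * (1 + BLL τ)) * ((n : ℝ) * (τ ^ 2 / 49)) =
          606 / 49 * exp (-7) * ((n * τ) * (τ + τ * BLL τ)) := by ring
      rw [e, hτB]
      have h2 : (n * τ) * (τ + (1 + τ / 2) / 2) ≤ 1 / 20 * (τ + (1 + τ / 2) / 2) :=
        mul_le_mul_of_nonneg_right hn (by positivity)
      have h3 : 606 / 49 * exp (-7) ≤ 606 / 49 * (1 / 1000) :=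
        mul_le_mul_of_nonneg_left he7 (by norm_num)
      calc 606 / 49 * exp (-7) * ((n * τ) * (τ + (1 + τ / 2) / 2))
          ≤ 606 / 49 * (1 / 1000) * (1 / 20 * (τ + (1 + τ / 2) / 2)) :=
            mul_le_mul h3 h2 (by positivity) (by positivity)
        _ ≤ _ := by linarith
    have h2 : 1818 * C2 * ((n : ℝ) * (τ ^ 2 / (1 / 2))) ≤ 1 / 20 * (3636 * C2 * τ) := by
      have e : 1818 * C2 * ((n : ℝ) * (τ ^ 2 / (1 / 2))) = (n * τ) * (3636 * C2 * τ) := by ring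
      rw [e]
      exact mul_le_mul_of_nonneg_right hn (by positivity)
    linarith
  rw [← ENNReal.ofReal_natCast, ← ENNReal.ofReal_mul (by positivity),
    ← ENNReal.ofReal_mul (by positivity), ← ENNReal.ofReal_mul (by positivity),
    ← ENNReal.ofReal_add (by positivity) (by positivity)]
  apply ENNReal.ofReal_le_ofReal
  have hπ := Real.pi_pos
  have e : 2 * π * τ ^ 2 * (↑n * KD τ) + 2 * π * ((1 / 20) ^ 2 / 2 + 425 * τ * (1 / 20) +
      (606 * (exp (-7) * (1 + BLL τ)) * (↑n * (τ ^ 2 / 49)) +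
        1818 * C2 * (↑n * (τ ^ 2 / (1 / 2))))) = 2 * π * (τ ^ 2 * (↑n * KD τ) +
      ((1 / 20) ^ 2 / 2 + 425 * τ * (1 / 20) +
      (606 * (exp (-7) * (1 + BLL τ)) * (↑n * (τ ^ 2 / 49)) +
        1818 * C2 * (↑n * (τ ^ 2 / (1 / 2)))))) := by ring
  rw [e, mul_assoc (2 * π)]
  apply mul_le_mul_of_nonneg_left _ (by positivity)
  have hexp : τ * (600 + Cc + 4000 * C2) = 600 * τ + τ * Cc + 4000 * (C2 * τ) := by ring
  rw [hexp] at hmain
  have hexp2 : τ * (50 + Cc) = 50 * τ + τ * Cc := by ring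
  rw [hexp2] at hnτ2
  have hexp3 : 3636 * C2 * τ = 3636 * (C2 * τ) := by ring
  rw [hexp3] at hpart2
  have hC2τ : 0 ≤ C2 * τ := by positivity
  linarith

end Pool.Agent.Helper50.Ctrl
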